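import Pool.Agent.MP_ca1109_lc.Pnh.Defs

/-!
# Combinations of functions of heavy labels times products of functions of labels
-/

namespace Pool.Agent.MP_ca1109_lc.Pnh

open Finset Pool.Agent.H66 Pool.Agent.MP_ca1109_lc.Mpg Pool.Agent.MP_ca1109_lc.Agp
  Pool.Agent.MP_ca1109_lc.Xp Pool.Agent.MP_ca1109_lc.Pt
open Pool.Agent.MP_ca1109_lc.Dnf (Cube ch one one_le one_nonneg one_true one_false On)

variable {n : ℕ}

section BCL

variable {Λ Λ' : Type} {J : Finset (Fin n)} {lam : Fin n → Cube n → Λ}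
  {lam' : Fin n → Cube n → Λ'} {A A' : Fin n → Cube n → Prop} {B B' : ℝ} {f g : Cube n → ℂ}

theorem bcl_dl_one : Dl J lam A (fun _ : Cube n => (1 : ℂ)) :=
  ⟨fun _ => norm_one.le, fun _ _ _ => rfl⟩

theorem bcl_dl_mul {Φ Φ' : Cube n → ℂ} (h : Dl J lam A Φ) (h' : Dl J lam A Φ') :
    Dl J lam A (fun x => Φ x * Φ' x) := by
  refine ⟨fun x => ?_, fun x y hxy => ?_⟩
  · rw [norm_mul]
    exact mul_le_one₀ (h.le x) (norm_nonneg _) (h'.le x)
  · show Φ x * Φ' x = Φ y * Φ' y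
    rw [h.dep x y hxy, h'.dep x y hxy]

theorem bcl_fl_one : Fl J lam (fun _ _ => (1 : ℂ)) :=
  fun _ _ => ⟨fun _ _ _ => rfl, fun _ => norm_one.le⟩

theorem bcl_fl_mul {p q : Fin n → Cube n → ℂ} (h : Fl J lam p) (h' : Fl J lam q) :
    Fl J lam (fun j x => p j x * q j x) := by
  intro j hj
  refine ⟨fun x y hxy => ?_, fun x => ?_⟩
  · show p j x * q j x = p j y * q j y
    rw [(h j hj).1 x y hxy, (h' j hj).1 x y hxy]
  · rw [norm_mul]
    exact mul_le_one₀ ((h j hj).2 x) (norm_nonneg _) ((h' j hj).2 x)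

theorem LC.mono (h : LC J lam A B f) (hB : B ≤ B') : LC J lam A B' f := by
  obtain ⟨ι, hι, c, Φ, p, h1, h2, h3, h4⟩ := h
  exact ⟨ι, hι, c, Φ, p, h1, h2, h3.trans hB, h4⟩

theorem LC.of_eq (h : LC J lam A B f) (hfg : ∀ x, f x = g x) : LC J lam A B g := by
  obtain ⟨ι, hι, c, Φ, p, h1, h2, h3, h4⟩ := h
  exact ⟨ι, hι, c, Φ, p, h1, h2, h3, fun x => (hfg x).symm.trans (h4 x)⟩

theorem LC.one' {Φ : Cube n → ℂ} {h : Fin n → Cube n → ℂ} (hΦ : Dl J lam A Φ) (hh : Fl J lam h) :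
    LC J lam A 1 (fun x => Φ x * ∏ j ∈ J, h j x) := by
  refine ⟨Unit, inferInstance, fun _ => 1, fun _ => Φ, fun _ => h, fun _ => hΦ, fun _ => hh, ?_,
    fun x => ?_⟩
  · simp
  · simp

theorem LC.const (c : ℂ) : LC J lam A ‖c‖ (fun _ => c) := by
  refine ⟨Unit, inferInstance, fun _ => c, fun _ _ => 1, fun _ _ _ => 1, fun _ => bcl_dl_one,
    fun _ => bcl_fl_one, ?_, fun x => ?_⟩
  · simp
  · simp

theorem LC.add (h : LC J lam A B f) (h' : LC J lam A B' g) :
    LC J lam A (B + B') (fun x => f x + g x) := by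
  obtain ⟨ι, hι, c, Φ, p, h1, h2, h3, h4⟩ := h
  obtain ⟨ι', hι', c', Φ', p', h1', h2', h3', h4'⟩ := h'
  refine ⟨ι ⊕ ι', inferInstance, Sum.elim c c', Sum.elim Φ Φ', Sum.elim p p', ?_, ?_, ?_,
    fun x => ?_⟩
  · rintro (i | i)
    · exact h1 i
    · exact h1' i
  · rintro (i | i)
    · exact h2 i
    · exact h2' i
  · rw [Fintype.sum_sum_type]
    exact add_le_add h3 h3'
  · show f x + g x = _
    rw [Fintype.sum_sum_type, h4, h4']
    rfl

theorem LC.smul (a : ℂ) (h : LC J lam A B f) : LC J lam A (‖a‖ * B) (fun x => a * f x) := by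
  obtain ⟨ι, hι, c, Φ, p, h1, h2, h3, h4⟩ := h
  refine ⟨ι, hι, fun i => a * c i, Φ, p, h1, h2, ?_, fun x => ?_⟩
  · simp only [norm_mul, ← mul_sum]
    exact mul_le_mul_of_nonneg_left h3 (norm_nonneg _)
  · show a * f x = ∑ i, a * c i * (Φ i x * ∏ j ∈ J, p i j x)
    rw [h4, mul_sum]
    exact sum_congr rfl fun i _ => by ring

theorem LC.mul (h : LC J lam A B f) (h' : LC J lam A B' g) :
    LC J lam A (B * B') (fun x => f x * g x) := by
  obtain ⟨ι, hι, c, Φ, p, h1, h2, h3, h4⟩ := h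
  obtain ⟨ι', hι', c', Φ', p', h1', h2', h3', h4'⟩ := h'
  refine ⟨ι × ι', inferInstance, fun i => c i.1 * c' i.2, fun i x => Φ i.1 x * Φ' i.2 x,
    fun i j x => p i.1 j x * p' i.2 j x, fun i => bcl_dl_mul (h1 i.1) (h1' i.2),
    fun i => bcl_fl_mul (h2 i.1) (h2' i.2), ?_, fun x => ?_⟩
  · rw [Fintype.sum_prod_type]
    simp only [norm_mul, ← mul_sum, ← sum_mul]
    exact mul_le_mul h3 h3' (sum_nonneg fun _ _ => norm_nonneg _)
      ((sum_nonneg fun _ _ => norm_nonneg _).trans h3)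
  · show f x * g x = _
    rw [h4, h4', Fintype.sum_prod_type, sum_mul_sum]
    refine sum_congr rfl fun i _ => sum_congr rfl fun j _ => ?_
    rw [prod_mul_distrib]
    ring

theorem LC.sum {ι : Type*} (s : Finset ι) (b : ι → ℝ) (F : ι → Cube n → ℂ)
    (h : ∀ i ∈ s, LC J lam A (b i) (F i)) :
    LC J lam A (∑ i ∈ s, b i) (fun x => ∑ i ∈ s, F i x) := by
  classical
  induction s using Finset.induction_on with
  | empty =>
    simp only [sum_empty]
    exact (LC.const 0).mono (by simp)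
  | insert a s ha ih =>
    simp only [sum_insert ha]
    exact (h a (mem_insert_self a s)).add (ih fun i hi => h i (mem_insert_of_mem hi))

theorem LC.prod {ι : Type*} (s : Finset ι) (b : ι → ℝ) (F : ι → Cube n → ℂ)
    (h : ∀ i ∈ s, LC J lam A (b i) (F i)) :
    LC J lam A (∏ i ∈ s, b i) (fun x => ∏ i ∈ s, F i x) := by
  classical
  induction s using Finset.induction_on with
  | empty =>
    simp only [prod_empty]
    exact (LC.const 1).mono (by simp)
  | insert a s ha ih =>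
    simp only [prod_insert ha]
    exact (h a (mem_insert_self a s)).mul (ih fun i hi => h i (mem_insert_of_mem hi))

/-- More events. -/
theorem LC.sup (hA : ∀ j ∈ J, ∀ x, A j x → A' j x) (h : LC J lam A B f) : LC J lam A' B f := by
  obtain ⟨ι, hι, c, Φ, p, h1, h2, h3, h4⟩ := h
  refine ⟨ι, hι, c, Φ, p, fun i => ⟨(h1 i).le, fun x y hxy => (h1 i).dep x y fun j hj hj' => ?_⟩,
    h2, h3, h4⟩
  exact hxy j hj (hj'.imp (hA j hj x) (hA j hj y))

/-- Finer labels. -/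
theorem LC.lab (hl : ∀ j ∈ J, Ol (lam' j) (lam j)) (h : LC J lam A B f) :
    LC J lam' A B f := by
  obtain ⟨ι, hι, c, Φ, p, h1, h2, h3, h4⟩ := h
  exact ⟨ι, hι, c, Φ, p, fun i => ⟨(h1 i).le, fun x y hxy => (h1 i).dep x y fun j hj hj' =>
    hl j hj x y (hxy j hj hj')⟩, fun i j hj => ⟨fun x y hxy => (h2 i j hj).1 x y
    (hl j hj x y hxy), (h2 i j hj).2⟩, h3, h4⟩

theorem El.lab {K : ℝ} (hl : ∀ j ∈ J, Ol (lam' j) (lam j)) (h : El K J lam A) :
    El K J lam' A :=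
  ⟨fun j hj x y hxy => h.on j hj x y (hl j hj x y hxy), h.mass⟩

theorem el_union {ι : Type*} (s : Finset ι) (K : ℝ) (A : ι → Fin n → Cube n → Prop)
    (h : ∀ i ∈ s, El K J lam (A i)) : El (s.card * K) J lam (fun j x => ∃ i ∈ s, A i j x) := by
  classical
  refine ⟨fun j hj x y hxy => ?_, ?_⟩
  · show (∃ i ∈ s, A i j x) = ∃ i ∈ s, A i j y
    refine propext ⟨?_, ?_⟩
    · rintro ⟨i, hi, hx⟩
      refine ⟨i, hi, ?_⟩
      rw [← (h i hi).on j hj x y hxy]
      exact hx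
    · rintro ⟨i, hi, hy⟩
      refine ⟨i, hi, ?_⟩
      rw [(h i hi).on j hj x y hxy]
      exact hy
  · have h1 : ∀ j ∈ J, (avg fun x => one (∃ i ∈ s, A i j x)) ≤
        ∑ i ∈ s, avg fun x => one (A i j x) := by
      intro j _
      rw [← avg_sum]
      refine avg_mono fun x => ?_
      by_cases hx : ∃ i ∈ s, A i j x
      · rw [one_true hx]
        obtain ⟨i, hi, hA⟩ := hx
        calc (1 : ℝ) = one (A i j x) := (one_true hA).symm
          _ ≤ ∑ i ∈ s, one (A i j x) :=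
            single_le_sum (f := fun i => one (A i j x)) (fun i _ => one_nonneg _) hi
      · rw [one_false hx]
        exact sum_nonneg fun i _ => one_nonneg _
    calc ∑ j ∈ J, (avg fun x => one (∃ i ∈ s, A i j x))
        ≤ ∑ j ∈ J, ∑ i ∈ s, avg fun x => one (A i j x) := sum_le_sum h1
      _ = ∑ i ∈ s, ∑ j ∈ J, avg fun x => one (A i j x) := sum_comm
      _ ≤ ∑ i ∈ s, K := sum_le_sum fun i hi => (h i hi).mass
      _ = s.card * K := by rw [sum_const, nsmul_eq_mul]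

theorem LC.err [Fintype Λ] {N : ℕ} {K ε : ℝ} {I : Fin n → Finset (Fin n)} (hN : Lab N J I lam)
    (hA : El K J lam A) (h : LC J lam A B f) {Ω : Type} [Fintype Ω] [Nonempty Ω]
    (X : Ω → Cube n) (hX : LFools N K ε X) :
    ‖av (fun ω => f (X ω)) - av f‖ ≤ B * ε := by
  obtain ⟨ι, hι, c, Φ, p, h1, h2, h3, h4⟩ := h
  have hε : 0 ≤ ε := (norm_nonneg _).trans (hX Λ J I lam (fun _ _ => 1) A (fun _ => 1)
    hN bcl_fl_one hA bcl_dl_one)
  have e : ∀ {A' : Type} [Fintype A'] (Z : A' → Cube n),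
      av (fun ω => f (Z ω)) = ∑ i, c i * av (fun ω => Φ i (Z ω) * ∏ j ∈ J, p i j (Z ω)) := by
    intro A' _ Z
    unfold av
    simp only [h4]
    rw [sum_comm, sum_div]
    refine sum_congr rfl fun i _ => ?_
    rw [← mul_sum, mul_div_assoc]
  have e2 := e (A' := Cube n) id
  simp only [id] at e2
  have e3 : av f = av fun ω => f ω := rfl
  rw [e X, e3, e2, ← sum_sub_distrib]
  refine (norm_sum_le _ _).trans ?_
  refine (sum_le_sum (g := fun i => ‖c i‖ * ε) fun i _ => ?_).trans ?_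
  · rw [← mul_sub, norm_mul]
    refine mul_le_mul_of_nonneg_left ?_ (norm_nonneg _)
    exact hX Λ J I lam (p i) A (Φ i) hN (h2 i) hA (h1 i)
  · rw [← sum_mul]
    exact mul_le_mul_of_nonneg_right h3 hε

end BCL

end Pool.Agent.MP_ca1109_lc.Pnh
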