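import Pool.Agent.MP_ca1109_lc.Pnh.Defs

/-! Row GRP: questions in finite abelian groups. -/

namespace Pool.Agent.MP_ca1109_lc.Pnh

open Finset Pool.Agent.H66 Pool.Agent.MP_ca1109_lc.Mpg Pool.Agent.MP_ca1109_lc.Agp
  Pool.Agent.MP_ca1109_lc.Xp Pool.Agent.MP_ca1109_lc.Pt
open Pool.Agent.MP_ca1109_lc.Dnf (Cube ch one On)

variable {n : ℕ}

theorem gr_sum {G : Type} [AddCommGroup G] (χ : AddChar G ℂ) {ι : Type*} (J : Finset ι) (f : ι → G) :
    χ (∑ j ∈ J, f j) = ∏ j ∈ J, χ (f j) := by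
  classical
  induction J using Finset.induction_on with
  | empty => simp
  | insert i J hi ih => rw [Finset.sum_insert hi, Finset.prod_insert hi, AddChar.map_add_eq_mul, ih]

/-- Questions in finite abelian groups. -/
theorem bgrp {Λ : Type} {J : Finset (Fin n)} {lam : Fin n → Cube n → Λ} {G : Type}
    [AddCommGroup G] [Finite G] (a : Fin n → Cube n → G) (ha : ∀ j ∈ J, Ol (lam j) (a j))
    (S : Finset G) :
    LC J lam (fun _ _ => False) S.card (fun x => ((one (∑ j ∈ J, a j x ∈ S) : ℝ) : ℂ)) := by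
  classical
  have : Fintype G := Fintype.ofFinite G
  have hG0 : (Fintype.card G : ℂ) ≠ 0 := by exact_mod_cast Fintype.card_ne_zero
  have hcard : Fintype.card (AddChar G ℂ) = Fintype.card G := AddChar.card_eq
  refine ⟨S × AddChar G ℂ, inferInstance,
    fun i => (1 / (Fintype.card G : ℂ)) * i.2 (-(i.1 : G)), fun _ _ => 1,
    fun i j x => i.2 (a j x), fun _ => ⟨fun x => by simp, fun _ _ _ => rfl⟩,
    fun i j hj => ⟨fun x y h => congrArg i.2 (ha j hj x y h), fun x => ?_⟩, ?_, fun x => ?_⟩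
  · rw [AddChar.norm_apply]
  · have h1 : ∀ i : S × AddChar G ℂ,
        ‖(1 / (Fintype.card G : ℂ)) * i.2 (-(i.1 : G))‖ = 1 / (Fintype.card G : ℝ) := by
      intro i
      rw [norm_mul, AddChar.norm_apply, mul_one, norm_div, norm_one, Complex.norm_natCast]
    simp only [h1]
    rw [Finset.sum_const, Finset.card_univ, Fintype.card_prod, hcard, Fintype.card_coe,
      nsmul_eq_mul]
    push_cast
    have hG : (Fintype.card G : ℝ) ≠ 0 := by exact_mod_cast Fintype.card_ne_zero
    field_simp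
    exact le_rfl
  · have h2 : ∀ i : S × AddChar G ℂ, (1 / (Fintype.card G : ℂ)) * i.2 (-(i.1 : G)) *
        (1 * ∏ j ∈ J, i.2 (a j x)) =
        (1 / (Fintype.card G : ℂ)) * i.2 (∑ j ∈ J, a j x - (i.1 : G)) := by
      intro i
      rw [one_mul, sub_eq_add_neg, AddChar.map_add_eq_mul, gr_sum]
      ring
    simp only [h2]
    rw [Fintype.sum_prod_type]
    have h3 : ∀ s : S, ∑ χ : AddChar G ℂ, (1 / (Fintype.card G : ℂ)) *
        χ (∑ j ∈ J, a j x - (s : G)) = if ∑ j ∈ J, a j x = (s : G) then 1 else 0 := by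
      intro s
      rw [← Finset.mul_sum, AddChar.sum_apply_eq_ite]
      by_cases h : ∑ j ∈ J, a j x = (s : G)
      · rw [if_pos h, if_pos (sub_eq_zero.mpr h)]
        field_simp
      · rw [if_neg h, if_neg (fun h' => h (sub_eq_zero.mp h')), mul_zero]
    simp only [h3]
    rw [Finset.sum_coe_sort S fun s => if ∑ j ∈ J, a j x = s then (1 : ℂ) else 0]
    rw [Finset.sum_ite_eq]
    unfold one
    split_ifs <;> simp

end Pool.Agent.MP_ca1109_lc.Pnh
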