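import Mathlib

/-!
# Boolean functions of gates over disjoint unordered blocks of variables of any length: the class
-/

namespace Pool.Agent.MP_ca1109_lc.Pnh

open Classical in
/-- The indicators of the values of `f` have Walsh norms of sum at most `N`. -/
def Lev (N : ℕ) {n : ℕ} {α : Type} (f : (Fin n → Bool) → α) : Prop :=
  ∑ v ∈ Finset.univ.image f, ∑ S : Finset (Fin n),
    |∑ x with f x = v, ∏ i ∈ S, (if x i = true then (-1 : ℤ) else 1)| ≤ N * 2 ^ n

/-- The `a j` are functions of the disjoint blocks `{i | b i = j}` of variables, of any length, and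
their level sets have total Walsh norm at most `N`. -/
def Blo (N : ℕ) {n : ℕ} {α : Type} (b : Fin n → Fin n) (a : Fin n → (Fin n → Bool) → α) : Prop :=
  ∀ j, (∀ x y, (∀ i, b i = j → x i = y i) → a j x = a j y) ∧ Lev N (a j)

/-- A gate over the blocks `{i | b i = j}`. It tests whether the sum of such functions of the blocks
with values in a finite abelian group lies in a set of at most `B` elements, or whether the product
of such functions with values in a commutative monoid of at most `B` elements lies in a given set,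
or whether the sum of such real functions is at least `θ`. -/
def NGate (N B : ℕ) {n : ℕ} (b : Fin n → Fin n) (g : (Fin n → Bool) → Bool) : Prop :=
  (∃ (G : Type) (_ : AddCommGroup G) (_ : Finite G) (a : Fin n → (Fin n → Bool) → G) (A : Finset G),
    A.card ≤ B ∧ Blo N b a ∧ ∀ x, g x = true ↔ ∑ j, a j x ∈ A) ∨
  (∃ (M : Type) (_ : CommMonoid M) (_ : Fintype M) (a : Fin n → (Fin n → Bool) → M) (A : Set M),
    Fintype.card M ≤ B ∧ Blo N b a ∧ ∀ x, g x = true ↔ ∏ j, a j x ∈ A) ∨
  ∃ (w : Fin n → (Fin n → Bool) → ℝ) (θ : ℝ), Blo N b w ∧ ∀ x, g x = true ↔ θ ≤ ∑ j, w j x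

/-- `T` is a Boolean function of `k` gates over the same blocks `{i | b i = j}` of variables. The
blocks are arbitrary. -/
def NTest (c B k n : ℕ) (T : (Fin n → Bool) → Bool) : Prop :=
  ∃ (b : Fin n → Fin n) (g : Fin k → (Fin n → Bool) → Bool) (F : (Fin k → Bool) → Bool),
    (∀ i, NGate (n ^ c) B b (g i)) ∧ ∀ x, T x = F fun i => g i x

end Pool.Agent.MP_ca1109_lc.Pnh
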