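import Pool.Agent.MP_ca1109_lc.Pnh.Defs
import Pool.Agent.MP_ca1109_lc.Pnh.Test
import Pool.Agent.MP_ca1109_lc.Xp.SPa

/-!
# Level sets are labels
-/

namespace Pool.Agent.MP_ca1109_lc.Pnh

open Finset Pool.Agent.H66 Pool.Agent.MP_ca1109_lc.Mpg Pool.Agent.MP_ca1109_lc.Agp
  Pool.Agent.MP_ca1109_lc.Xp Pool.Agent.MP_ca1109_lc.Pt
open Pool.Agent.MP_ca1109_lc.Dnf (Cube ch one On sg L1)

variable {n : ℕ}

theorem lvl_ol {α : Type} (f : Cube n → α) : Ol (lvl f) f := by
  classical
  intro x y h
  have h1 : x ∈ lvl f x := by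
    unfold lvl
    simp
  rw [h] at h1
  unfold lvl at h1
  simpa using h1

theorem lvl_congr {α : Type} {f : Cube n → α} {x y : Cube n} (h : f x = f y) :
    lvl f x = lvl f y := by
  unfold lvl
  rw [h]

theorem le_sign (S : Finset (Fin n)) (x : Cube n) :
    ((∏ i ∈ S, (if x i = true then (-1 : ℤ) else 1) : ℤ) : ℝ) = (-1) ^ S.card * ch S x := by
  unfold ch
  rw [← prod_const, ← prod_mul_distrib]
  push_cast
  refine prod_congr rfl fun i _ => ?_
  unfold sg
  cases x i <;> simp

open Classical in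
/-- One level set. -/
theorem le_one {α : Type} (f : Cube n → α) (v : α) :
    L1 (fun x => one (f x = v)) = (∑ S : Finset (Fin n),
      |((∑ x with f x = v, ∏ i ∈ S, (if x i = true then (-1 : ℤ) else 1) : ℤ) : ℝ)|) / 2 ^ n := by
  unfold L1
  rw [sum_div]
  refine sum_congr rfl fun S _ => ?_
  have h1 : ((∑ x with f x = v, ∏ i ∈ S, (if x i = true then (-1 : ℤ) else 1) : ℤ) : ℝ) =
      (-1) ^ S.card * ∑ x, one (f x = v) * ch S x := by
    rw [Int.cast_sum, sum_filter, mul_sum]
    refine sum_congr rfl fun x _ => ?_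
    by_cases h : f x = v
    · rw [if_pos h, le_sign, Dnf.one_true h, one_mul]
    · rw [if_neg h, Dnf.one_false h]
      ring
  rw [h1, abs_mul, abs_pow, abs_neg, abs_one, one_pow, one_mul]
  unfold Dnf.fc Dnf.E
  rw [abs_div, abs_of_pos (by positivity : (0 : ℝ) < 2 ^ n)]

theorem le_nonneg {f : Cube n → ℝ} : 0 ≤ L1 f := by
  unfold L1
  exact sum_nonneg fun _ _ => abs_nonneg _

/-- Level sets are labels. -/
theorem le_sp {α : Type} {N : ℕ} (f : Cube n → α) (h : Lev N f) : ∃ c : Finset (Cube n) → ℝ,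
    (∀ v, Sp (c v) fun x => ((one (lvl f x = v) : ℝ) : ℂ)) ∧ ∑ v, c v ≤ N := by
  classical
  refine ⟨fun v => L1 fun x => one (lvl f x = v), fun v => Sp_real _, ?_⟩
  set D : α → Finset (Cube n) := fun u => univ.filter fun y => f y = u with hD
  have hlv : ∀ x, lvl f x = D (f x) := fun x => by
    unfold lvl
    simp only [hD]
  have h0 : ∀ v : Finset (Cube n), v ∉ (univ.image f).image D →
      L1 (fun x => one (lvl f x = v)) = 0 := by
    intro v hv
    have h1 : ∀ x, one (lvl f x = v) = 0 := fun x => Dnf.one_false fun h => hv (by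
      rw [← h, hlv]
      exact mem_image_of_mem _ (mem_image_of_mem _ (mem_univ x)))
    simp only [h1]
    unfold L1
    refine sum_eq_zero fun S _ => ?_
    unfold Dnf.fc Dnf.E
    simp
  have h1 : ∑ v, L1 (fun x => one (lvl f x = v)) =
      ∑ v ∈ (univ.image f).image D, L1 (fun x => one (lvl f x = v)) :=
    (sum_subset (subset_univ _) fun v _ hv => h0 v hv).symm
  rw [h1]
  have hinj : ∀ u ∈ univ.image f, ∀ u' ∈ univ.image f, D u = D u' → u = u' := by
    intro u hu u' _ he
    obtain ⟨x, -, rfl⟩ := mem_image.1 hu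
    have h2 : x ∈ D (f x) := by
      simp only [hD]
      rw [mem_filter]
      exact ⟨mem_univ _, rfl⟩
    rw [he] at h2
    simp only [hD] at h2
    exact (mem_filter.1 h2).2
  rw [sum_image hinj]
  have h2 : ∀ u ∈ univ.image f, L1 (fun x => one (lvl f x = D u)) = L1 (fun x => one (f x = u)) := by
    intro u hu
    have h3 : ∀ x, (lvl f x = D u) ↔ f x = u := by
      intro x
      constructor
      · intro h
        rw [hlv] at h
        exact hinj _ (mem_image_of_mem _ (mem_univ x)) _ hu h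
      · intro h
        rw [hlv, h]
    simp only [h3]
  rw [sum_congr rfl h2]
  simp only [le_one]
  rw [← sum_div, div_le_iff₀ (by positivity)]
  unfold Lev at h
  exact_mod_cast h

theorem lev_lab {α : Type} {N : ℕ} (hN : 1 ≤ N) (b : Fin n → Fin n) (a : Fin n → Cube n → α)
    (h : Blo N b a) :
    Lab N univ (fun j => univ.filter fun i => b i = j) (fun j => lvl (a j)) where
  pos := hN
  dj := fun i _ j _ hij => by
    rw [Finset.disjoint_left]
    intro l hl hl'
    rw [mem_filter] at hl hl'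
    exact hij (hl.2.symm.trans hl'.2)
  on := fun j _ x y hxy => lvl_congr ((h j).1 x y fun i hi =>
    hxy i (mem_filter.2 ⟨mem_univ _, hi⟩))
  sp := fun j _ => le_sp (a j) (h j).2

end Pool.Agent.MP_ca1109_lc.Pnh
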