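import Pool.Agent.MP_ca1109_lc.Pnh.Defs
import Pool.Agent.MP_ca1109_lc.Pt.CM

/-!
# Products in commutative monoids
-/

namespace Pool.Agent.MP_ca1109_lc.Pnh

open Finset Pool.Agent.H66 Pool.Agent.MP_ca1109_lc.Mpg Pool.Agent.MP_ca1109_lc.Agp
  Pool.Agent.MP_ca1109_lc.Xp Pool.Agent.MP_ca1109_lc.Pt
open Pool.Agent.MP_ca1109_lc.Dnf (Cube ch one On one_nonneg one_le)

variable {n : ℕ}

/-- Questions about products in commutative monoids with at most `B` elements. -/
theorem bmon (B : ℕ) : ∃ K : ℝ, 0 < K ∧ ∀ (Λ : Type) (n : ℕ) (lam : Fin n → Cube n → Λ) (M : Type)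
    [CommMonoid M] [Fintype M], Fintype.card M ≤ B → ∀ a : Fin n → Cube n → M,
    (∀ j, Ol (lam j) (a j)) → ∀ A : Set M,
    LC univ lam (fun _ _ => False) K (fun x => ((one (∏ j, a j x ∈ A) : ℝ) : ℂ)) := by
  obtain ⟨K, hK, H⟩ := monoid_split B
  refine ⟨K, hK, fun Λ n lam M _ _ hM a ha A => ?_⟩
  obtain ⟨q, c, t, hc, ht, hF⟩ := H M hM n (fun m => ((one (m ∈ A) : ℝ) : ℂ)) (by
    intro m
    rw [Complex.norm_real, Real.norm_of_nonneg (one_nonneg _)]
    exact one_le _)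
  refine ⟨Fin q, inferInstance, c, fun _ _ => 1, fun i j x => t i (a j x), fun _ => ?_, fun i => ?_,
    hc, fun x => ?_⟩
  · exact ⟨fun _ => by simp, fun _ _ _ => rfl⟩
  · intro j _
    refine ⟨fun x y hxy => ?_, fun x => ht i _⟩
    show t i (a j x) = t i (a j y)
    rw [ha j x y hxy]
  · have := hF fun j => a j x
    simp only [one_mul]
    exact this

end Pool.Agent.MP_ca1109_lc.Pnh
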