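import Pool.Agent.MP_ca1109_lc.Pnh.Defs
import Pool.Agent.MP_ca1109_lc.Xp.SPa

/-!
# Several labels of each block
-/

namespace Pool.Agent.MP_ca1109_lc.Pnh

open Finset Pool.Agent.H66 Pool.Agent.MP_ca1109_lc.Mpg Pool.Agent.MP_ca1109_lc.Agp
  Pool.Agent.MP_ca1109_lc.Xp Pool.Agent.MP_ca1109_lc.Pt
open Pool.Agent.MP_ca1109_lc.Dnf (Cube ch one On)

variable {n : ℕ}

/-- Several labels of each block. -/
theorem lab_pi {N : ℕ} {J : Finset (Fin n)} {I : Fin n → Finset (Fin n)} {k : ℕ} {Λ : Type}
    [Fintype Λ] {lam : Fin k → Fin n → Cube n → Λ} (hN : 1 ≤ N)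
    (hd : ∀ i ∈ J, ∀ j ∈ J, i ≠ j → Disjoint (I i) (I j)) (h : ∀ i, Lab N J I (lam i)) :
    Lab (N ^ k) J I (fun j x i => lam i j x) where
  pos := Nat.one_le_pow _ _ hN
  dj := hd
  on := fun j hj x y hxy => by
    funext i
    exact (h i).on j hj x y hxy
  sp := fun j hj => by
    classical
    choose c hc hc1 using fun i => (h i).sp j hj
    refine ⟨fun v => ∏ i, c i (v i), fun v => ?_, ?_⟩
    · have h1 := Sp.prod univ (fun i => c i (v i))
        (fun i x => ((one (lam i j x = v i) : ℝ) : ℂ)) fun i _ => hc i (v i)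
      refine h1.congr' fun x => ?_
      by_cases hx : (fun i => lam i j x) = v
      · rw [Dnf.one_true hx]
        have h2 : ∀ i ∈ (univ : Finset (Fin k)), ((one (lam i j x = v i) : ℝ) : ℂ) = 1 := by
          intro i _
          rw [Dnf.one_true (congrFun hx i)]
          simp
        rw [prod_congr rfl h2]
        simp
      · rw [Dnf.one_false hx]
        have h2 : ∃ i, lam i j x ≠ v i := by
          by_contra h3
          push Not at h3
          exact hx (funext h3)
        obtain ⟨i, hi⟩ := h2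
        have h3 : ∏ i, ((one (lam i j x = v i) : ℝ) : ℂ) = 0 :=
          prod_eq_zero (mem_univ i) (by rw [Dnf.one_false hi]; simp)
        rw [h3]
        simp
    · have h1 : ∑ v : Fin k → Λ, ∏ i, c i (v i) = ∏ i, ∑ v, c i v := by
        rw [prod_univ_sum]
        simp
      rw [h1]
      have h2 : ∏ i, ∑ v, c i v ≤ ∏ _i : Fin k, (N : ℝ) := by
        refine prod_le_prod (fun i _ => sum_nonneg fun v _ => (hc i v).nonneg) fun i _ => hc1 i
      refine h2.trans (le_of_eq ?_)
      simp

end Pool.Agent.MP_ca1109_lc.Pnh
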