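import Pool.Agent.MP_ca1109_lc.Pnh.BR
import Pool.Agent.MP_ca1109_lc.Ph.CC
import Pool.Agent.MP_ca1109_lc.Ph.CHF
import Pool.Agent.MP_ca1109_lc.Ph.AC
import Pool.Agent.MP_ca1109_lc.Ph.CN
import Pool.Agent.MP_ca1109_lc.Xh.RA

/-!
# Threshold gates over blocks are close to combinations of few products
-/

namespace Pool.Agent.MP_ca1109_lc.Pnh

open Finset Pool.Agent.H66 Pool.Agent.MP_ca1109_lc.Mpg Pool.Agent.MP_ca1109_lc.Agp
  Pool.Agent.MP_ca1109_lc.Xp Pool.Agent.MP_ca1109_lc.Pt
open Pool.Agent.MP_ca1109_lc.Dnf (Cube ch one On)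
open Pool.Agent.MP_ca1109_lc.Ph (bst be vs vz Dj bscale centre centre0 be_bst banti bconc)

variable {n : ℕ} {Λ : Type}

theorem ta_norm_be (t S : ℝ) : ‖be t S‖ = 1 := by
  unfold be
  rw [Complex.norm_exp_ofReal_mul_I]

theorem ta_norm_one (p : Prop) : ‖((one p : ℝ) : ℂ)‖ ≤ 1 := by
  rw [Complex.norm_real, Real.norm_eq_abs, abs_of_nonneg (Dnf.one_nonneg _)]
  exact Dnf.one_le _

theorem ta_dp_one (J : Finset (Fin n)) (lam : Fin n → Cube n → Λ) (A : Fin n → Cube n → Prop) :
    Dl J lam A (fun _ => 1) := ⟨fun _ => by rw [norm_one], fun _ _ _ => rfl⟩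

theorem ta_bd_one (J : Finset (Fin n)) (lam : Fin n → Cube n → Λ) :
    Fl J lam (fun _ _ => 1) := fun _ _ => ⟨fun _ _ _ => rfl, fun _ => by rw [norm_one]⟩

theorem ta_bd_be {J : Finset (Fin n)} {lam : Fin n → Cube n → Λ} {g : Fin n → Cube n → ℝ}
    (hg : ∀ j ∈ J, Ol (lam j) (g j)) (t : ℝ) : Fl J lam (fun j x => be t (g j x)) := by
  refine fun j hj => ⟨fun x y hxy => ?_, fun x => (ta_norm_be _ _).le⟩
  show be t (g j x) = be t (g j y)
  rw [hg j hj x y hxy]

/-- A string which fools the products is close for all phases. -/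
theorem ta_close [Fintype Λ] {N : ℕ} {K ε₀ : ℝ} {J : Finset (Fin n)} {I : Fin n → Finset (Fin n)}
    {lam : Fin n → Cube n → Λ} (hN : Lab N J I lam) {A : Fin n → Cube n → Prop}
    (hA : El K J lam A) {g : Fin n → Cube n → ℝ} (hg : ∀ j ∈ J, Ol (lam j) (g j)) {Ω : Type}
    [Fintype Ω] {X : Ω → Cube n} (hX : LFools N K ε₀ X) (t : ℝ) :
    ‖(av fun ω => be t (bst J g (X ω))) - av fun x => be t (bst J g x)‖ ≤ ε₀ := by
  have h2 := hX Λ J I lam (fun j x => be t (g j x)) A (fun _ => 1) hN (ta_bd_be hg t) hA
    (ta_dp_one J lam A)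
  simp only [one_mul, ← be_bst] at h2
  exact h2

/-- The heavy part is a function of the heavy blocks. -/
theorem ta_heavy {J : Finset (Fin n)} {lam : Fin n → Cube n → Λ} {A : Fin n → Cube n → Prop}
    {g : Fin n → Cube n → ℝ} (hA : ∀ j ∈ J, Ol (lam j) (A j)) (hg : ∀ j ∈ J, Ol (lam j) (g j))
    {x y : Cube n} (h : ∀ j ∈ J, A j x ∨ A j y → lam j x = lam j y) :
    (open Classical in ∑ j ∈ J, (if A j x then g j x else 0)) =
      (open Classical in ∑ j ∈ J, (if A j y then g j y else 0)) := by
  classical
  refine sum_congr rfl fun j hj => ?_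
  by_cases h1 : A j x ∨ A j y
  · have h2 := h j hj h1
    rw [hA j hj x y h2, hg j hj x y h2]
  · rw [not_or] at h1
    rw [if_neg h1.1, if_neg h1.2]

theorem bthr {ε₁ : ℝ} (h1 : 0 < ε₁) :
    ∃ C K : ℝ, 0 ≤ C ∧ 0 ≤ K ∧ ∃ ε₀ : ℝ, 0 < ε₀ ∧ ∀ (Λ : Type) [Fintype Λ] (n N : ℕ)
      (J : Finset (Fin n)) (I : Fin n → Finset (Fin n)) (lam : Fin n → Cube n → Λ),
      Lab N J I lam → ∀ g : Fin n → Cube n → ℝ, (∀ j ∈ J, Ol (lam j) (g j)) → ∀ θ : ℝ,
      ∃ (A : Fin n → Cube n → Prop) (G : Cube n → ℂ), El K J lam A ∧ (∀ x, ‖G x‖ ≤ 2) ∧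
        LC J lam A C G ∧
        ∀ {Ω : Type} [Fintype Ω] [Nonempty Ω] (X : Ω → Cube n), LFools N K ε₀ X →
          (avg fun ω => ‖((one (θ ≤ bst J g (X ω)) : ℝ) : ℂ) - G (X ω)‖) ≤ ε₁ := by
  classical
  -- the constants
  obtain ⟨K₀, hanti⟩ := banti (show 0 < ε₁ / 8 by positivity)
  set K₁ : ℝ := max 1 K₀ with hK₁
  have hK1 : 1 ≤ K₁ := le_max_left _ _
  obtain ⟨R, hR0, hconc⟩ := bconc (4 * K₁) (show 0 < ε₁ / 24 by positivity)
  set ε₂ : ℝ := min (ε₁ / 4) 1 with hε₂
  have hε₂0 : 0 < ε₂ := by positivity
  have hε₂1 : ε₂ ≤ 1 := min_le_right _ _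
  have hε₂2 : ε₂ ≤ ε₁ / 4 := min_le_left _ _
  obtain ⟨N', P, φ, b, hP, hb1, hb2⟩ := Xh.ramp R hR0 hε₂0
  refine ⟨1 + ∑ j, ‖φ j‖, 4 * K₁, by positivity, by positivity, ε₁ / 64, by positivity,
    fun Λ _ n N J I lam hN g hg θ => ?_⟩
  rcases le_or_gt (vz J g) (4 * K₁) with hv | hv
  · -- the test is a function of the heavy blocks
    choose a ha using fun j => centre0 (g j)
    set A : Fin n → Cube n → Prop := fun j x => g j x ≠ a j with hA
    have hAon : ∀ j ∈ J, Ol (lam j) (A j) := by
      intro j hj x y hxy
      simp only [hA]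
      rw [hg j hj x y hxy]
    have hEv : El (4 * K₁) J lam A := ⟨hAon, (sum_le_sum fun j _ => ha j).trans hv⟩
    have hDp : Dl J lam A (fun x => ((one (θ ≤ bst J g x) : ℝ) : ℂ)) := by
      refine ⟨fun x => ta_norm_one _, fun x y hxy => ?_⟩
      have h2 : bst J g x = bst J g y := by
        unfold bst
        refine sum_congr rfl fun j hj => ?_
        by_cases h3 : A j x ∨ A j y
        · exact hg j hj x y (hxy j hj h3)
        · rw [not_or] at h3
          simp only [hA, not_not] at h3
          rw [h3.1, h3.2]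
      rw [h2]
    refine ⟨A, fun x => ((one (θ ≤ bst J g x) : ℝ) : ℂ), hEv, fun x => ?_, ?_, ?_⟩
    · linarith [ta_norm_one (θ ≤ bst J g x)]
    · refine ⟨Unit, inferInstance, fun _ => 1, fun _ x => ((one (θ ≤ bst J g x) : ℝ) : ℂ),
        fun _ _ _ => 1, fun _ => hDp, fun _ => ta_bd_one J lam, ?_, fun x => ?_⟩
      · have : (0 : ℝ) ≤ ∑ j, ‖φ j‖ := sum_nonneg fun _ _ => norm_nonneg _
        simp
        exact this
      · simp
    · intro Ω _ _ X hX
      simp only [sub_self, norm_zero, avg_const]
      exact h1.le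
  · -- the scale
    obtain ⟨D, hD, hD1, hD2⟩ := bscale J g (show 0 < 4 * K₁ by positivity) hv
    have hD3 : K₁ ≤ vs J g D := by linarith
    choose a₀ ha₀ using fun j => centre (g := g j) D
    set g' : Fin n → Cube n → ℝ := fun j x => g j x - a₀ j with hg'
    have hg'on : ∀ j ∈ J, Ol (lam j) (g' j) := by
      intro j hj x y hxy
      simp only [hg']
      rw [hg j hj x y hxy]
    set θ' : ℝ := θ - ∑ j ∈ J, a₀ j with hθ'
    have hbst : ∀ x, bst J g x = bst J g' x + ∑ j ∈ J, a₀ j := by
      intro x
      unfold bst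
      rw [← sum_add_distrib]
      refine sum_congr rfl fun j _ => ?_
      simp only [hg']
      ring
    set A : Fin n → Cube n → Prop := fun j x => D < |g' j x| with hA
    have hAon : ∀ j ∈ J, Ol (lam j) (A j) := by
      intro j hj x y hxy
      simp only [hA]
      rw [hg'on j hj x y hxy]
    have hms : ∑ j ∈ J, (avg fun y => min 1 ((g' j y / D) ^ 2)) ≤ 4 * K₁ :=
      (sum_le_sum fun j _ => ha₀ j).trans hD1
    have hEv : El (4 * K₁) J lam A := by
      refine ⟨hAon, (sum_le_sum fun j _ => avg_mono fun x => ?_).trans hms⟩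
      by_cases h2 : A j x
      · rw [Dnf.one_true h2]
        have h3 : 1 ≤ (g' j x / D) ^ 2 := by
          rw [← sq_abs, abs_div, abs_of_pos hD]
          have h4 : 1 ≤ |g' j x| / D := by
            rw [le_div_iff₀ hD, one_mul]
            exact h2.le
          nlinarith
        rw [min_eq_left h3]
      · rw [Dnf.one_false h2]
        positivity
    set l : Fin n → Cube n → ℝ := fun j x => if A j x then 0 else g' j x with hl
    have hlon : ∀ j ∈ J, Ol (lam j) (l j) := by
      intro j hj x y hxy
      simp only [hl, hA]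
      rw [hg'on j hj x y hxy]
    have hl2 : (∑ j ∈ J, avg fun x => (l j x) ^ 2) ≤ 4 * K₁ * D ^ 2 := by
      have h2 : ∀ j ∈ J, (avg fun x => (l j x) ^ 2) ≤ D ^ 2 * avg fun y => min 1 ((g' j y / D) ^ 2) := by
        intro j _
        rw [← avg_mul_left]
        refine avg_mono fun x => ?_
        simp only [hl]
        split_ifs with h3
        · rw [zero_pow two_ne_zero]
          positivity
        · have h4 : |g' j x| ≤ D := not_lt.1 h3
          have h5 : (g' j x / D) ^ 2 ≤ 1 := by
            rw [← sq_abs, abs_div, abs_of_pos hD]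
            have h6 : |g' j x| / D ≤ 1 := (div_le_one hD).2 h4
            exact pow_le_one₀ (by positivity) h6
          rw [min_eq_right h5, div_pow, mul_div_cancel₀ _ (by positivity)]
      refine (sum_le_sum h2).trans ?_
      rw [← mul_sum]
      nlinarith [mul_le_mul_of_nonneg_left hms (sq_nonneg D)]
    set a : ℝ := avg (bst J l) with ha
    set H : Cube n → ℝ := fun x => ∑ j ∈ J, (if A j x then g' j x else 0) with hH
    have hHl : ∀ x, bst J g' x = H x + bst J l x := by
      intro x
      simp only [hH]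
      unfold bst
      rw [← sum_add_distrib]
      refine sum_congr rfl fun j _ => ?_
      simp only [hl]
      split_ifs <;> ring
    have hHd : ∀ x y : Cube n, (∀ j ∈ J, A j x ∨ A j y → lam j x = lam j y) → H x = H y :=
      fun x y hxy => ta_heavy hAon hg'on hxy
    set cs : Cube n → ℝ := fun x => (H x + a - θ') / D + 1 with hcs
    have hcsd : ∀ x y : Cube n, (∀ j ∈ J, A j x ∨ A j y → lam j x = lam j y) → cs x = cs y := by
      intro x y hxy
      simp only [hcs]
      rw [hHd x y hxy]
    set ψ : Fin N' → Cube n → ℂ := fun j x =>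
      if |cs x| ≤ R + 1 then be (2 * Real.pi * b j / P) (cs x) else 0 with hψ
    set ψ' : Cube n → ℂ := fun x => if R + 1 < cs x then 1 else 0 with hψ'
    set κ : Fin N' → ℂ := fun j => φ j * be (2 * Real.pi * b j / P) (-(a / D)) with hκ
    have hψ1 : ∀ j x, ‖ψ j x‖ ≤ 1 := by
      intro j x
      simp only [hψ]
      split_ifs
      · exact (ta_norm_be _ _).le
      · rw [norm_zero]; exact zero_le_one
    have hψ'1 : ∀ x, ‖ψ' x‖ ≤ 1 := by
      intro x
      simp only [hψ']
      split_ifs
      · rw [norm_one]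
      · rw [norm_zero]; exact zero_le_one
    have hκ1 : ∀ j, ‖κ j‖ = ‖φ j‖ := by
      intro j
      simp only [hκ]
      rw [norm_mul, ta_norm_be, mul_one]
    have hψd : ∀ j, Dl J lam A (ψ j) := by
      intro j
      refine ⟨hψ1 j, fun x y hxy => ?_⟩
      simp only [hψ]
      rw [hcsd x y hxy]
    have hψ'd : Dl J lam A ψ' := by
      refine ⟨hψ'1, fun x y hxy => ?_⟩
      simp only [hψ']
      rw [hcsd x y hxy]
    -- the product of the light phases
    have hpr : ∀ (j : Fin N') (x : Cube n), ∏ i ∈ J, be (2 * Real.pi * b j / P / D) (l i x) =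
        be (2 * Real.pi * b j / P) (bst J l x / D) := by
      intro j x
      rw [← be_bst]
      unfold be
      congr 2
      congr 1
      ring
    set G : Cube n → ℂ := fun x => ∑ j, κ j * (ψ j x * ∏ i ∈ J, be (2 * Real.pi * b j / P / D) (l i x)) +
      ψ' x with hG
    have hGin : ∀ x, |cs x| ≤ R + 1 → G x = ∑ j, φ j *
        Complex.exp (Complex.I * (2 * Real.pi * b j * (cs x + (bst J l x - a) / D : ℝ) / P)) := by
      intro x hx
      simp only [hG]
      have h2 : ψ' x = 0 := by
        simp only [hψ']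
        rw [if_neg]
        intro h3
        have := (abs_le.1 hx).2
        linarith
      rw [h2, add_zero]
      refine sum_congr rfl fun j _ => ?_
      rw [hpr j x]
      simp only [hκ, hψ]
      rw [if_pos hx]
      unfold be
      rw [mul_assoc, ← Complex.exp_add, ← Complex.exp_add]
      congr 2
      push_cast
      ring
    have hGout : ∀ x, ¬ |cs x| ≤ R + 1 → G x = ψ' x := by
      intro x hx
      simp only [hG]
      have h2 : ∀ j, ψ j x = 0 := by
        intro j
        simp only [hψ]
        rw [if_neg hx]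
      simp [h2]
    have hGx : ∀ x, ‖G x‖ ≤ 1 + ε₂ := by
      intro x
      by_cases hx : |cs x| ≤ R + 1
      · rw [hGin x hx]
        have h2 := hb1 ((bst J l x - a) / D) (cs x) hx
        push_cast at h2 ⊢
        exact h2
      · rw [hGout x hx]
        linarith [hψ'1 x]
    refine ⟨A, G, hEv, fun x => (hGx x).trans (by linarith), ?_, ?_⟩
    · -- the combination
      refine ⟨Option (Fin N'), inferInstance, fun o => o.elim 1 κ, fun o => o.elim ψ' ψ,
        fun o => o.elim (fun _ _ => 1) fun j i x => be (2 * Real.pi * b j / P / D) (l i x),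
        fun o => ?_, fun o => ?_, ?_, fun x => ?_⟩
      · cases o with
        | none => exact hψ'd
        | some j => exact hψd j
      · cases o with
        | none => exact ta_bd_one J lam
        | some j => exact ta_bd_be hlon _
      · rw [Fintype.sum_option]
        simp [hκ1]
      · rw [Fintype.sum_option]
        simp [hG, add_comm]
    · -- the error
      intro Ω _ _ X hX
      have e1 := hanti n (2 ^ n) J I (br_dj hN) g (br_on hN hg) D hD ((le_max_right _ _).trans hD3) X (ε₁ / 64)
        (fun t => ta_close hN hEv hg hX t) θ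
      have e2 := hconc n (2 ^ n) J I (br_dj hN) l (br_on hN hlon) D hD hl2 X (ε₁ / 64)
        (fun t => ta_close hN hEv hlon hX t)
      have hpt : ∀ x : Cube n, ‖((one (θ ≤ bst J g x) : ℝ) : ℂ) - G x‖ ≤
          one (|bst J g x - θ| ≤ D) + 3 * one (R * D ≤ |bst J l x - a|) + ε₂ := by
        intro x
        set c : ℝ := cs x with hc'
        set v : ℝ := (bst J l x - a) / D with hv'
        have hcv : c + v = (bst J g x - θ) / D + 1 := by
          rw [hc', hv', hbst x, hHl x]
          simp only [hcs, hθ']
          field_simp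
          ring
        set q : ℝ := max 0 (min 1 (c + v)) with hq
        have hq0 : 0 ≤ q := le_max_left _ _
        have hq1 : q ≤ 1 := max_le zero_le_one (min_le_left _ _)
        have hI1 : |one (θ ≤ bst J g x) - q| ≤ one (|bst J g x - θ| ≤ D) := by
          by_cases h2 : |bst J g x - θ| ≤ D
          · rw [Dnf.one_true h2, abs_le]
            have h3 := Dnf.one_nonneg (θ ≤ bst J g x)
            have h4 := Dnf.one_le (θ ≤ bst J g x)
            constructor <;> linarith
          · rw [Dnf.one_false h2]
            by_cases h3 : θ ≤ bst J g x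
            · have h4 : 1 ≤ c + v := by
                rw [hcv]
                have : 0 ≤ (bst J g x - θ) / D := div_nonneg (by linarith) hD.le
                linarith
              rw [Dnf.one_true h3, hq, min_eq_left h4, max_eq_right zero_le_one, sub_self, abs_zero]
            · have h4 : c + v ≤ 0 := by
                rw [hcv]
                rw [abs_of_neg (by linarith [not_le.1 h3])] at h2
                have : (bst J g x - θ) / D ≤ -1 := by
                  rw [div_le_iff₀ hD]
                  linarith [not_le.1 h2]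
                linarith
              rw [Dnf.one_false h3, hq, min_eq_right (h4.trans zero_le_one), max_eq_left h4,
                sub_self, abs_zero]
        have hf1 : ‖((q : ℝ) : ℂ) - G x‖ ≤ 3 * one (R * D ≤ |bst J l x - a|) + ε₂ := by
          by_cases h2 : R * D ≤ |bst J l x - a|
          · rw [Dnf.one_true h2]
            have h3 := norm_sub_le ((q : ℝ) : ℂ) (G x)
            rw [Complex.norm_real, Real.norm_eq_abs, abs_of_nonneg hq0] at h3
            linarith [hGx x]
          · rw [Dnf.one_false h2, mul_zero, zero_add]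
            have hvR : |v| ≤ R := by
              rw [hv', abs_div, abs_of_pos hD, div_le_iff₀ hD]
              exact (not_le.1 h2).le
            by_cases hx : |cs x| ≤ R + 1
            · rw [hGin x hx, norm_sub_rev]
              have h3 := hb2 ((bst J l x - a) / D) (cs x) hvR hx
              push_cast at h3 ⊢
              exact h3
            · rw [hGout x hx]
              have hvR' := abs_le.1 hvR
              simp only [hψ']
              split_ifs with h3
              · have h4 : 1 ≤ c + v := by
                  rw [hc']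
                  linarith
                rw [hq, min_eq_left h4, max_eq_right zero_le_one, Complex.ofReal_one, sub_self,
                  norm_zero]
                exact hε₂0.le
              · have h4 : c + v ≤ 0 := by
                  rw [hc']
                  rw [abs_le, not_and_or] at hx
                  rcases hx with hx | hx
                  · linarith [not_le.1 hx]
                  · exact absurd (not_le.1 hx) h3
                rw [hq, min_eq_right (h4.trans zero_le_one), max_eq_left h4, Complex.ofReal_zero,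
                  sub_self, norm_zero]
                exact hε₂0.le
        have h5 : ((one (θ ≤ bst J g x) : ℝ) : ℂ) - G x =
            ((one (θ ≤ bst J g x) - q : ℝ) : ℂ) + (((q : ℝ) : ℂ) - G x) := by
          push_cast
          ring
        rw [h5]
        refine (norm_add_le _ _).trans ?_
        rw [Complex.norm_real, Real.norm_eq_abs]
        linarith
      have h6 := avg_mono (f := fun ω => ‖((one (θ ≤ bst J g (X ω)) : ℝ) : ℂ) - G (X ω)‖)
        (g := fun ω => one (|bst J g (X ω) - θ| ≤ D) +
          3 * one (R * D ≤ |bst J l (X ω) - a|) + ε₂) fun ω => hpt (X ω)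
      rw [avg_add, avg_add, avg_mul_left, avg_const] at h6
      linarith

end Pool.Agent.MP_ca1109_lc.Pnh
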