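import Pool.Agent.MP_ca1109_lc.Pnh.HM
import Pool.Agent.MP_ca1109_lc.Pnh.TA
import Pool.Agent.MP_ca1109_lc.Pnh.GRP
import Pool.Agent.MP_ca1109_lc.Pnh.MON
import Pool.Agent.MP_ca1109_lc.Pnh.BCL
import Pool.Agent.MP_ca1109_lc.Pnh.PI
import Pool.Agent.MP_ca1109_lc.Pnh.LE
import Pool.Agent.MP_ca1109_lc.Pnh.Test
import Pool.Agent.MP_ca1109_lc.Mpg.G0
import Pool.Agent.MP_ca1109_lc.Agp.N1
import Pool.Agent.MP_ca1109_lc.Agp.K1
import Pool.Agent.MP_ca1109_lc.Agp.G3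

/-!
# Boolean functions of modular and threshold gates over unordered blocks of any length: the theorem
-/

namespace Pool.Agent.MP_ca1109_lc.Pnh

open Finset Pool.Agent.H66 Pool.Agent.MP_ca1109_lc.Mpg Pool.Agent.MP_ca1109_lc.Agp
  Pool.Agent.MP_ca1109_lc.Xp Pool.Agent.MP_ca1109_lc.Pt
open Pool.Agent.MP_ca1109_lc.Dnf (Cube ch one one_le one_nonneg one_true one_false On)
open Pool.Agent.MP_ca1109_lc.Ph (bst)

variable {n : ℕ}

/-! ## Monotonicity -/

theorem El.mono {Λ : Type} {K K' : ℝ} {J : Finset (Fin n)} {lam : Fin n → Cube n → Λ}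
    {A : Fin n → Cube n → Prop} (h : El K J lam A) (hK : K ≤ K') : El K' J lam A :=
  ⟨h.on, h.mass.trans hK⟩

theorem LFools.mono {N : ℕ} {K K' ε ε' : ℝ} (hK : K ≤ K') (hε : ε' ≤ ε) {Ω : Type*} [Fintype Ω]
    {X : Ω → Cube n} (h : LFools N K' ε' X) : LFools N K ε X :=
  fun Λ _ J I lam f A Φ hl hf hA hΦ => (h Λ J I lam f A Φ hl hf (hA.mono hK) hΦ).trans hε

theorem lfools_id (N : ℕ) (K : ℝ) {ε : ℝ} (hε : 0 ≤ ε) : LFools N K ε (fun x : Cube n => x) := by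
  intro Λ _ J I lam f A Φ _ _ _ _
  rw [sub_self, norm_zero]
  exact hε

/-! ## Boolean functions of approximable tests -/

theorem fi_prod_norm {ι : Type*} (s : Finset ι) (b : ι → ℂ) (hb : ∀ i ∈ s, ‖b i‖ ≤ 3) :
    ‖∏ i ∈ s, b i‖ ≤ 3 ^ s.card := by
  rw [norm_prod]
  calc ∏ i ∈ s, ‖b i‖ ≤ ∏ _i ∈ s, (3 : ℝ) := prod_le_prod (fun _ _ => norm_nonneg _) hb
    _ = 3 ^ s.card := by rw [prod_const]

theorem fi_prod_diff {ι : Type*} (s : Finset ι) (a b : ι → ℂ) (ha : ∀ i ∈ s, ‖a i‖ ≤ 3)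
    (hb : ∀ i ∈ s, ‖b i‖ ≤ 3) :
    ‖∏ i ∈ s, a i - ∏ i ∈ s, b i‖ ≤ 3 ^ s.card * ∑ i ∈ s, ‖a i - b i‖ := by
  classical
  induction s using Finset.induction_on with
  | empty => simp
  | insert j s hj ih =>
    rw [prod_insert hj, prod_insert hj, sum_insert hj, card_insert_of_notMem hj]
    have h1 := ih (fun i hi => ha i (mem_insert_of_mem hi)) (fun i hi => hb i (mem_insert_of_mem hi))
    have hp := fi_prod_norm s b fun i hi => hb i (mem_insert_of_mem hi)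
    have e : a j * ∏ i ∈ s, a i - b j * ∏ i ∈ s, b i =
        a j * (∏ i ∈ s, a i - ∏ i ∈ s, b i) + (a j - b j) * ∏ i ∈ s, b i := by ring
    rw [e]
    refine (norm_add_le _ _).trans ?_
    rw [norm_mul, norm_mul]
    have h2 : ‖a j‖ * ‖∏ i ∈ s, a i - ∏ i ∈ s, b i‖ ≤ 3 * (3 ^ s.card * ∑ i ∈ s, ‖a i - b i‖) :=
      mul_le_mul (ha j (mem_insert_self j s)) h1 (norm_nonneg _) (by norm_num)
    have h3 : ‖a j - b j‖ * ‖∏ i ∈ s, b i‖ ≤ ‖a j - b j‖ * 3 ^ s.card :=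
      mul_le_mul_of_nonneg_left hp (norm_nonneg _)
    have h4 : (3 : ℝ) ^ s.card ≤ 3 ^ (s.card + 1) := pow_le_pow_right₀ (by norm_num) (Nat.le_succ _)
    have h5 : ‖a j - b j‖ * 3 ^ s.card ≤ ‖a j - b j‖ * 3 ^ (s.card + 1) :=
      mul_le_mul_of_nonneg_left h4 (norm_nonneg _)
    calc ‖a j‖ * ‖∏ i ∈ s, a i - ∏ i ∈ s, b i‖ + ‖a j - b j‖ * ‖∏ i ∈ s, b i‖
        ≤ 3 * (3 ^ s.card * ∑ i ∈ s, ‖a i - b i‖) + ‖a j - b j‖ * 3 ^ (s.card + 1) := by linarith
      _ = 3 ^ (s.card + 1) * (‖a j - b j‖ + ∑ i ∈ s, ‖a i - b i‖) := by ring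

/-- The multilinear extension of a Boolean function. -/
noncomputable def fi_ext {K : ℕ} (F : (Fin K → Bool) → Bool) (h : Fin K → ℂ) : ℂ :=
  ∑ A : Fin K → Bool, ((ind (F A) : ℝ) : ℂ) * ∏ i, (if A i = true then h i else 1 - h i)

theorem fi_ext_ind {K : ℕ} (F : (Fin K → Bool) → Bool) (b : Fin K → Bool) :
    fi_ext F (fun i => ((ind (b i) : ℝ) : ℂ)) = ((ind (F b) : ℝ) : ℂ) := by
  classical
  unfold fi_ext
  rw [sum_eq_single b]
  · rw [prod_eq_one, mul_one]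
    intro i _
    rcases hb : b i with _ | _ <;> simp [ind, hb]
  · intro A _ hA
    obtain ⟨i, hi⟩ : ∃ i, A i ≠ b i := by
      by_contra h
      push Not at h
      exact hA (funext h)
    rw [prod_eq_zero (mem_univ i), mul_zero]
    rcases hb : b i with _ | _ <;> rcases hc : A i with _ | _ <;> simp_all [ind]
  · intro h
    exact absurd (mem_univ b) h

theorem fi_ext_diff {K : ℕ} (F : (Fin K → Bool) → Bool) (h h' : Fin K → ℂ) (hb : ∀ i, ‖h i‖ ≤ 2)
    (hb' : ∀ i, ‖h' i‖ ≤ 2) :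
    ‖fi_ext F h - fi_ext F h'‖ ≤ 2 ^ K * (3 ^ K * ∑ i, ‖h i - h' i‖) := by
  have h3 : ∀ (g : Fin K → ℂ) (A : Fin K → Bool), (∀ i, ‖g i‖ ≤ 2) →
      ∀ i, ‖(if A i = true then g i else 1 - g i)‖ ≤ 3 := by
    intro g A hg i
    split_ifs
    · linarith [hg i]
    · refine (norm_sub_le _ _).trans ?_
      rw [norm_one]
      linarith [hg i]
  unfold fi_ext
  rw [← sum_sub_distrib]
  refine (norm_sum_le _ _).trans ?_
  have key : ∀ A : Fin K → Bool, ‖((ind (F A) : ℝ) : ℂ) * ∏ i, (if A i = true then h i else 1 - h i) -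
      ((ind (F A) : ℝ) : ℂ) * ∏ i, (if A i = true then h' i else 1 - h' i)‖ ≤
      3 ^ K * ∑ i, ‖h i - h' i‖ := by
    intro A
    rw [← mul_sub, norm_mul, Complex.norm_real, Real.norm_of_nonneg (ind_nonneg _)]
    have h1 := fi_prod_diff univ _ _ (fun i _ => h3 h A hb i) (fun i _ => h3 h' A hb' i)
    rw [card_univ, Fintype.card_fin] at h1
    have h2 : ∑ i, ‖(if A i = true then h i else 1 - h i) - (if A i = true then h' i else 1 - h' i)‖ =
        ∑ i, ‖h i - h' i‖ := by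
      refine sum_congr rfl fun i _ => ?_
      split_ifs
      · rfl
      · rw [show 1 - h i - (1 - h' i) = -(h i - h' i) by ring, norm_neg]
    rw [h2] at h1
    calc ind (F A) * ‖_‖ ≤ 1 * ‖∏ i, (if A i = true then h i else 1 - h i) -
        ∏ i, (if A i = true then h' i else 1 - h' i)‖ :=
          mul_le_mul_of_nonneg_right (ind_le_one _) (norm_nonneg _)
      _ ≤ _ := by rw [one_mul]; exact h1
  refine (sum_le_sum fun A _ => key A).trans_eq ?_
  rw [sum_const, card_univ, Fintype.card_fun, Fintype.card_bool, Fintype.card_fin, nsmul_eq_mul]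
  push_cast
  rfl

theorem fi_ext_lc {K : ℕ} (F : (Fin K → Bool) → Bool) {Λ : Type} {J : Finset (Fin n)}
    {lam : Fin n → Cube n → Λ} {A : Fin n → Cube n → Prop} {C : ℝ}
    (G : Fin K → Cube n → ℂ) (hG : ∀ i, LC J lam A C (G i)) (hC : 0 ≤ C) :
    LC J lam A (2 ^ K * (1 + C) ^ K) (fun x => fi_ext F (fun i => G i x)) := by
  have h1 : ∀ B : Fin K → Bool, LC J lam A ((1 + C) ^ K)
      (fun x => ((ind (F B) : ℝ) : ℂ) * ∏ i, (if B i = true then G i x else 1 - G i x)) := by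
    intro B
    have h2 : ∀ i : Fin K, LC J lam A (1 + C)
        (fun x => (if B i = true then G i x else 1 - G i x)) := by
      intro i
      by_cases hB : B i = true
      · simp only [hB, if_true]
        exact (hG i).mono (by linarith)
      · simp only [hB]
        have := (LC.const (J := J) (lam := lam) (A := A) 1).add ((hG i).smul (-1))
        refine (this.of_eq fun x => ?_).mono ?_
        · simp only [Bool.false_eq_true, if_false]
          ring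
        · simp
    have h3 := LC.prod (univ : Finset (Fin K)) (fun _ => 1 + C) _ fun i _ => h2 i
    have h4 := h3.smul ((ind (F B) : ℝ) : ℂ)
    refine h4.mono ?_
    rw [prod_const, card_univ, Fintype.card_fin, Complex.norm_real,
      Real.norm_of_nonneg (ind_nonneg _)]
    calc ind (F B) * (1 + C) ^ K ≤ 1 * (1 + C) ^ K :=
          mul_le_mul_of_nonneg_right (ind_le_one _) (by positivity)
      _ = _ := one_mul _
  have h2 := LC.sum (univ : Finset (Fin K → Bool)) (fun _ => (1 + C) ^ K) _ fun B _ => h1 B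
  refine (h2.of_eq fun x => rfl).mono (le_of_eq ?_)
  rw [sum_const, card_univ, Fintype.card_fun, Fintype.card_bool, Fintype.card_fin, nsmul_eq_mul]
  push_cast
  rfl

theorem fi_norm_av_sub {A : Type*} [Fintype A] (f g : A → ℂ) :
    ‖av f - av g‖ ≤ avg fun a => ‖f a - g a‖ := by
  have : av f - av g = av (fun a => f a - g a) := by
    unfold av
    rw [sum_sub_distrib, sub_div]
  rw [this]
  exact norm_av_le _

theorem fi_close {K : ℕ} {ε₁ : ℝ} (F : (Fin K → Bool) → Bool)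
    (b : Fin K → Cube n → Bool) (G : Fin K → Cube n → ℂ) (h01 : ∀ i x, ‖G i x‖ ≤ 2)
    {A : Type*} [Fintype A] (Y : A → Cube n)
    (hY : ∀ i, (avg fun ω => ‖((ind (b i (Y ω)) : ℝ) : ℂ) - G i (Y ω)‖) ≤ ε₁) :
    ‖(av fun ω => ((ind (F fun i => b i (Y ω)) : ℝ) : ℂ)) - av fun ω => fi_ext F fun i => G i (Y ω)‖ ≤
      2 ^ K * (3 ^ K * (K * ε₁)) := by
  refine (fi_norm_av_sub _ _).trans ?_
  have h1 : ∀ ω, ‖((ind (F fun i => b i (Y ω)) : ℝ) : ℂ) - fi_ext F fun i => G i (Y ω)‖ ≤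
      2 ^ K * (3 ^ K * ∑ i, ‖((ind (b i (Y ω)) : ℝ) : ℂ) - G i (Y ω)‖) := by
    intro ω
    rw [← fi_ext_ind]
    refine fi_ext_diff F _ _ (fun i => ?_) fun i => h01 i _
    rw [Complex.norm_real, Real.norm_of_nonneg (ind_nonneg _)]
    linarith [ind_le_one (b i (Y ω))]
  refine (avg_mono h1).trans ?_
  rw [avg_mul_left, avg_mul_left, avg_sum]
  refine mul_le_mul_of_nonneg_left (mul_le_mul_of_nonneg_left ?_ (by positivity)) (by positivity)
  refine (sum_le_sum fun i _ => hY i).trans_eq ?_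
  rw [sum_const, card_univ, Fintype.card_fin, nsmul_eq_mul]

theorem fi_ofReal_avg {A : Type*} [Fintype A] (f : A → ℝ) :
    ((avg f : ℝ) : ℂ) = av fun a => ((f a : ℝ) : ℂ) := by
  unfold avg av
  push_cast
  rfl

/-- Boolean functions of approximable tests are fooled. -/
theorem fi_bool {K N : ℕ} {Λ₀ ε₀ ε₁ C : ℝ} (hC : 0 ≤ C) {Λ : Type} [Fintype Λ]
    {J : Finset (Fin n)} {I : Fin n → Finset (Fin n)} {lam : Fin n → Cube n → Λ}
    {A : Fin n → Cube n → Prop} (hN : Lab N J I lam) (hA : El Λ₀ J lam A)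
    (F : (Fin K → Bool) → Bool)
    (b : Fin K → Cube n → Bool) (G : Fin K → Cube n → ℂ) (h01 : ∀ i x, ‖G i x‖ ≤ 2)
    (hG : ∀ i, LC J lam A C (G i)) {Ω : Type} [Fintype Ω] [Nonempty Ω] {X : Ω → Cube n}
    (hX : LFools N Λ₀ ε₀ X) (hU : ∀ i, (avg fun x => ‖((ind (b i x) : ℝ) : ℂ) - G i x‖) ≤ ε₁)
    (hXi : ∀ i, (avg fun ω => ‖((ind (b i (X ω)) : ℝ) : ℂ) - G i (X ω)‖) ≤ ε₁) :
    |(avg fun ω => ind (F fun i => b i (X ω))) - avg fun x => ind (F fun i => b i x)| ≤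
      2 * (2 ^ K * (3 ^ K * (K * ε₁))) + 2 ^ K * (1 + C) ^ K * ε₀ := by
  have h1 := fi_close F b G h01 X hXi
  have h2 := fi_close F b G h01 (fun x : Cube n => x) hU
  have h3 := LC.err hN hA (fi_ext_lc F G hG hC) X hX
  rw [← Real.norm_eq_abs, ← Complex.norm_real, Complex.ofReal_sub, fi_ofReal_avg,
    fi_ofReal_avg]
  have e : (av fun ω => ((ind (F fun i => b i (X ω)) : ℝ) : ℂ)) -
      (av fun x : Cube n => ((ind (F fun i => b i x) : ℝ) : ℂ)) =
      ((av fun ω => ((ind (F fun i => b i (X ω)) : ℝ) : ℂ)) -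
        av fun ω => fi_ext F fun i => G i (X ω)) +
      (((av fun ω => fi_ext F fun i => G i (X ω)) - av fun x => fi_ext F fun i => G i x) -
      ((av fun x : Cube n => ((ind (F fun i => b i x) : ℝ) : ℂ)) -
        av fun x => fi_ext F fun i => G i x)) := by
    ring
  rw [e]
  refine (norm_add_le _ _).trans ?_
  refine (add_le_add h1 ((norm_sub_le _ _).trans (add_le_add h3 h2))).trans_eq ?_
  ring

/-! ## Gates -/

theorem fi_ind (P : Prop) (b : Bool) (hb : b = true ↔ P) : ind b = one P := by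
  by_cases h : P
  · rw [one_true h, hb.2 h]
    rfl
  · rw [one_false h]
    have : b = false := by
      cases b
      · rfl
      · exact absurd (hb.1 rfl) h
    rw [this]
    rfl

/-- Gates are approximable. -/
theorem fi_gate (B : ℕ) {ε₁ : ℝ} (h1 : 0 < ε₁) :
    ∃ C K : ℝ, 0 ≤ C ∧ 0 ≤ K ∧ ∃ ε₀ : ℝ, 0 < ε₀ ∧ ∀ (n N : ℕ) (b : Fin n → Fin n)
      (g : Cube n → Bool), NGate N B b g → ∃ (α : Type) (a : Fin n → Cube n → α), Blo N b a ∧
      ∀ (Λ : Type) [Fintype Λ] (N' : ℕ) (I : Fin n → Finset (Fin n)) (lam : Fin n → Cube n → Λ),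
        Lab N' univ I lam → (∀ j, Ol (lam j) (a j)) →
        ∃ (A : Fin n → Cube n → Prop) (G : Cube n → ℂ),
          El K (univ : Finset (Fin n)) lam A ∧ (∀ x, ‖G x‖ ≤ 2) ∧
          LC (univ : Finset (Fin n)) lam A C G ∧
          ∀ {Ω : Type} [Fintype Ω] [Nonempty Ω] (X : Ω → Cube n), LFools N' K ε₀ X →
            (avg fun ω => ‖((ind (g (X ω)) : ℝ) : ℂ) - G (X ω)‖) ≤ ε₁ := by
  obtain ⟨C, K, hC, hK, ε₀, hε₀, hthr⟩ := bthr h1
  obtain ⟨K', hK', hmon⟩ := bmon B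
  have hev : ∀ (n : ℕ) (Λ : Type) (lam : Fin n → Cube n → Λ),
      El K (univ : Finset (Fin n)) lam (fun _ _ => False) := by
    intro n Λ lam
    refine ⟨fun j _ x y _ => rfl, ?_⟩
    refine le_trans (le_of_eq ?_) hK
    refine sum_eq_zero fun j _ => ?_
    have : (fun _ : Cube n => one False) = fun _ => 0 := by
      funext x
      exact one_false not_false
    rw [this, avg_const]
  have h01 : ∀ P : Prop, ‖((one P : ℝ) : ℂ)‖ ≤ 2 := by
    intro P
    rw [Complex.norm_real, Real.norm_of_nonneg (one_nonneg _)]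
    linarith [one_le P]
  have hex : ∀ (n : ℕ) (g : Cube n → Bool) (P : Cube n → Prop), (∀ x, g x = true ↔ P x) →
      ∀ {Ω : Type} [Fintype Ω] [Nonempty Ω] (X : Ω → Cube n),
        (avg fun ω => ‖((ind (g (X ω)) : ℝ) : ℂ) - ((one (P (X ω)) : ℝ) : ℂ)‖) ≤ ε₁ := by
    intro n g P hgP Ω _ _ X
    have e : (fun ω => ‖((ind (g (X ω)) : ℝ) : ℂ) - ((one (P (X ω)) : ℝ) : ℂ)‖) =
        fun _ => 0 := by
      funext ω
      rw [fi_ind _ _ (hgP (X ω)), sub_self, norm_zero]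
    rw [e, avg_const]
    exact h1.le
  refine ⟨max C (max B K'), K, le_max_of_le_left hC, hK, ε₀, hε₀, ?_⟩
  intro n N b g hg
  rcases hg with ⟨G, i1, i2, a, S, hS, ha, hgx⟩ | ⟨M, i1, i2, a, S, hM, ha, hgx⟩ | ⟨w, θ, hw, hgx⟩
  · refine ⟨G, a, ha, fun Λ _ N' I lam hl hol => ?_⟩
    exact ⟨fun _ _ => False, fun x => ((one (∑ j, a j x ∈ S) : ℝ) : ℂ), hev n Λ lam,
      fun x => h01 _, (bgrp a (fun j _ => hol j) S).mono
        ((Nat.cast_le.2 hS).trans ((le_max_left _ _).trans (le_max_right _ _))),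
      fun X _ => hex n g _ hgx X⟩
  · refine ⟨M, a, ha, fun Λ _ N' I lam hl hol => ?_⟩
    exact ⟨fun _ _ => False, fun x => ((one (∏ j, a j x ∈ S) : ℝ) : ℂ), hev n Λ lam,
      fun x => h01 _, (hmon Λ n lam M hM a hol S).mono
        ((le_max_right _ _).trans (le_max_right _ _)),
      fun X _ => hex n g _ hgx X⟩
  · refine ⟨ℝ, w, hw, fun Λ _ N' I lam hl hol => ?_⟩
    obtain ⟨A, G, hA, h02, hG, happ⟩ := hthr Λ n N' univ I lam hl w (fun j _ => hol j) θ
    refine ⟨A, G, hA, h02, hG.mono (le_max_left _ _), ?_⟩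
    intro Ω _ _ X hX
    have e : (fun ω => ‖((ind (g (X ω)) : ℝ) : ℂ) - G (X ω)‖) =
        fun ω => ‖((one (θ ≤ bst univ w (X ω)) : ℝ) : ℂ) - G (X ω)‖ := by
      funext ω
      rw [fi_ind _ _ (hgx (X ω))]
      rfl
    rw [e]
    exact happ X hX

/-- Larger classes for small `n` do not matter. -/
theorem fi_eventually {𝒯 𝒯' : ∀ n : ℕ, ((Fin n → Bool) → Bool) → Prop} {ε : ℝ}
    (h : LogGen 𝒯 ε) (n₀ : ℕ) (h' : ∀ n ≥ n₀, ∀ T, 𝒯' n T → 𝒯 n T) : LogGen 𝒯' ε := by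
  obtain ⟨D, G, hD, hG, hl, c, hc⟩ := h
  refine ⟨D, G, hD, hG, hl, c, ?_⟩
  filter_upwards [hc, Filter.eventually_ge_atTop n₀] with n hn hn'
  exact ⟨hn.1, hn.2.1, fun T hT => hn.2.2 T (h' n hn' T hT)⟩

theorem fi_avg_fin (M : ℕ) (F : ℕ → ℝ) : avg (fun a : Fin M => F a) = nr M F := by
  unfold avg nr
  rw [Fintype.card_fin, Fin.sum_univ_eq_sum_range F M]

/-- The theorem. -/
theorem final (c B k : ℕ) {ε : ℝ} (hε : 0 < ε) : LogGen (NTest c B k) ε := by
  classical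
  obtain ⟨C, K, hC, hK, ε₀, hε₀, hg⟩ := fi_gate B
    (ε₁ := ε / (4 * (2 ^ k * (3 ^ k * ((k : ℝ) + 1))))) (by positivity)
  obtain ⟨ε₂, hε₂⟩ : ∃ ε₂ : ℝ, ε₂ = min ε₀ (ε / (2 * (2 ^ k * (1 + C) ^ k))) := ⟨_, rfl⟩
  have hε₂0 : 0 < ε₂ := by rw [hε₂]; exact lt_min hε₀ (by positivity)
  have hε₂1 : ε₂ ≤ ε₀ := by rw [hε₂]; exact min_le_left _ _
  have hε₂2 : ε₂ ≤ ε / (2 * (2 ^ k * (1 + C) ^ k)) := by rw [hε₂]; exact min_le_right _ _
  obtain ⟨E, G, hNG, n₀, HG⟩ := main_heavy (c * k) (k * K + K) hε₂0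
  refine fi_eventually (𝒯 := fun n T => max n₀ 1 ≤ n ∧ NTest c B k n T)
    (logGen_of hNG fun n T hT => ?_) (max n₀ 1) fun n hn T hT => ⟨hn, hT⟩
  obtain ⟨hn, b, g, F, hgate, hT⟩ := hT
  have hn0 : n₀ ≤ n := (le_max_left _ _).trans hn
  have hn1 : 1 ≤ n := (le_max_right _ _).trans hn
  have hne : Nonempty (Fin (2 ^ E n)) := ⟨⟨0, by positivity⟩⟩
  have hN1 : 1 ≤ n ^ c := Nat.one_le_iff_ne_zero.2 (pow_ne_zero _ (by omega))
  have hX : LFools (n ^ (c * k)) (k * K + K) ε₂ (fun p : Fin (2 ^ E n) => out G n p) := by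
    intro Λ _ J I lam f A Φ hl hf hA hΦ
    have := HG n hn0 Λ J I lam f A Φ hl hf hA hΦ
    rwa [← av_fin (2 ^ E n) (fun p => Φ (out G n p) * ∏ j ∈ J, f j (out G n p))] at this
  choose α a hblo hgt using fun i => hg n (n ^ c) b (g i) (hgate i)
  -- the common label
  set lam : Fin n → Cube n → (Fin k → Finset (Cube n)) := fun j x i => lvl (a i j) x with hlam
  have hLab : Lab (n ^ (c * k)) univ (fun j => univ.filter fun i => b i = j) lam := by
    have h1 := lab_pi (k := k) (lam := fun i j => lvl (a i j)) hN1 (J := univ)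
      (I := fun j => univ.filter fun i => b i = j) (by
        intro j _ j' _ hjj
        rw [Finset.disjoint_left]
        intro l hl hl'
        rw [Finset.mem_filter] at hl hl'
        exact hjj (hl.2.symm.trans hl'.2)) fun i => lev_lab hN1 b (a i) (hblo i)
    rw [pow_mul]
    exact h1
  have hol : ∀ i j, Ol (lam j) (a i j) := by
    intro i j x y hxy
    exact lvl_ol (a i j) x y (congrFun hxy i)
  choose A Gj hA h01 hLC happ using fun i => hgt i (Fin k → Finset (Cube n)) (n ^ (c * k))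
    (fun j => univ.filter fun i => b i = j) lam hLab (hol i)
  have hkK : K ≤ k * K + K := by
    have : 0 ≤ (k : ℝ) * K := by positivity
    linarith
  have hU : El (k * K + K) (univ : Finset (Fin n)) lam
      (fun j x => ∃ i ∈ (univ : Finset (Fin k)), A i j x) := by
    have h1 := el_union (univ : Finset (Fin k)) K A fun i _ => hA i
    rw [card_univ, Fintype.card_fin] at h1
    exact h1.mono (by linarith)
  have hCB : (0 : ℝ) ≤ C := hC
  have key := fi_bool (ε₁ := ε / (4 * (2 ^ k * (3 ^ k * ((k : ℝ) + 1))))) hC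
    hLab hU F g Gj h01 (fun i => (hLC i).sup fun j _ x hx => ⟨i, mem_univ i, hx⟩) hX
    (fun j => happ j (fun x : Cube n => x) (lfools_id _ _ hε₀.le))
    (fun j => happ j _ (hX.mono hkK hε₂1))
  have e1 : nr (2 ^ E n) (fun p => ind (T (out G n p))) =
      avg fun p : Fin (2 ^ E n) => ind (F fun j => g j (out G n p)) := by
    rw [← fi_avg_fin]
    congr 1
    funext p
    rw [hT]
  have e2 : prob T = avg fun x : Cube n => ind (F fun j => g j x) := by
    rw [prob_eq_avg]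
    congr 1
    funext x
    rw [hT]
  rw [e1, e2]
  refine key.trans ?_
  have e3 : 2 * (2 ^ k * (3 ^ k * ((k : ℝ) * (ε / (4 * (2 ^ k * (3 ^ k * ((k : ℝ) + 1)))))))) ≤
      ε / 2 := by
    rw [show 2 * (2 ^ k * (3 ^ k * ((k : ℝ) * (ε / (4 * (2 ^ k * (3 ^ k * ((k : ℝ) + 1)))))))) =
      ε / 2 * ((k : ℝ) / ((k : ℝ) + 1)) by field_simp; ring]
    have : (k : ℝ) / ((k : ℝ) + 1) ≤ 1 := by
      rw [div_le_one (by positivity)]
      linarith
    nlinarith
  have e4 : 2 ^ k * (1 + C) ^ k * ε₂ ≤ ε / 2 := by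
    calc 2 ^ k * (1 + C) ^ k * ε₂ ≤ 2 ^ k * (1 + C) ^ k * (ε / (2 * (2 ^ k * (1 + C) ^ k))) :=
          mul_le_mul_of_nonneg_left hε₂2 (by positivity)
      _ = ε / 2 := by field_simp
  linarith

end Pool.Agent.MP_ca1109_lc.Pnh
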