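import Pool.Agent.MP_ca1109_lc.Pnh.Defs

/-!
# Row BR: bridges to the families of functions of the blocks
-/

namespace Pool.Agent.MP_ca1109_lc.Pnh

open Finset Pool.Agent.H66 Pool.Agent.MP_ca1109_lc.Mpg Pool.Agent.MP_ca1109_lc.Agp
  Pool.Agent.MP_ca1109_lc.Xp Pool.Agent.MP_ca1109_lc.Pt
open Pool.Agent.MP_ca1109_lc.Dnf (Cube ch one On one_true one_false)
open Pool.Agent.MP_ca1109_lc.Pn (Bln)
open Pool.Agent.MP_ca1109_lc.Ph (Dj)

variable {n : ℕ}

section BR

variable {Λ : Type} {N : ℕ} {K : ℝ} {J : Finset (Fin n)} {I : Fin n → Finset (Fin n)}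
  {lam : Fin n → Cube n → Λ} {f : Fin n → Cube n → ℂ} {A : Fin n → Cube n → Prop}
  {Φ : Cube n → ℂ}

theorem br_card (S : Finset (Fin n)) : 2 ^ S.card ≤ 2 ^ n :=
  Nat.pow_le_pow_right (by norm_num) (by simpa using Finset.card_le_univ S)

/-- The length of the blocks does not matter if `N` does not occur in the conclusion. -/
theorem br_blk (h : Bln N J I f) : Blk (2 ^ n) J I f :=
  ⟨Nat.one_le_two_pow, h.dj, fun _ _ => br_card _, h.on, h.le⟩

theorem br_dj [Fintype Λ] (h : Lab N J I lam) : Dj (2 ^ n) J I :=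
  ⟨Nat.one_le_two_pow, h.dj, fun _ _ => br_card _⟩

theorem br_on [Fintype Λ] (h : Lab N J I lam) {α : Type} {g : Fin n → Cube n → α}
    (hg : ∀ j ∈ J, Ol (lam j) (g j)) : ∀ j ∈ J, On (I j) (g j) :=
  fun j hj x y hxy => hg j hj x y (h.on j hj x y hxy)

/-- Functions of the labels of `s` blocks. -/
theorem br_sp [Fintype Λ] (h : Lab N J I lam) {T : Finset (Fin n)} (hT : T ⊆ J) {F : Cube n → ℂ}
    (hF : ∀ x y, (∀ j ∈ T, lam j x = lam j y) → F x = F y) (hF1 : ∀ x, ‖F x‖ ≤ 1) :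
    Sp ((N : ℝ) ^ T.card) F := by
  classical
  have h0 : ∀ j : T, ∃ c : Λ → ℝ, (∀ v, Sp (c v) fun x => ((one (lam j x = v) : ℝ) : ℂ)) ∧
      ∑ v, c v ≤ N := fun j => h.sp j (hT j.2)
  choose c hc hcN using h0
  have hc0 : ∀ j v, 0 ≤ c j v := fun j v => (hc j v).nonneg
  set φ : (T → Λ) → ℂ := fun v =>
    if h : ∃ x, ∀ j : T, lam j x = v j then F h.choose else 0 with hφ
  have hφ1 : ∀ v, ‖φ v‖ ≤ 1 := by
    intro v
    rw [hφ]
    simp only
    split_ifs
    · exact hF1 _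
    · simp
  have hsum : ∀ x, (∑ v : T → Λ, φ v * ∏ j : T, ((one (lam j x = v j) : ℝ) : ℂ)) = F x := by
    intro x
    rw [sum_eq_single (fun j : T => lam j x)]
    · have h1 : (∏ j : T, ((one (lam (j : Fin n) x = lam j x) : ℝ) : ℂ)) = 1 :=
        prod_eq_one fun j _ => by rw [one_true rfl, Complex.ofReal_one]
      have h2 : ∃ y, ∀ j : T, lam (j : Fin n) y = lam j x := ⟨x, fun _ => rfl⟩
      rw [h1, mul_one, hφ]
      simp only
      rw [dif_pos h2]
      exact hF _ _ fun j hj => h2.choose_spec ⟨j, hj⟩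
    · intro v _ hv
      obtain ⟨j, hj⟩ : ∃ j : T, lam (j : Fin n) x ≠ v j := by
        by_contra h1
        push Not at h1
        exact hv (funext fun j => (h1 j).symm)
      rw [prod_eq_zero (mem_univ j) (by rw [one_false hj, Complex.ofReal_zero]), mul_zero]
    · intro h1
      exact absurd (mem_univ _) h1
  have h1 := Sp.sum (univ : Finset (T → Λ)) (fun v => ‖φ v‖ * ∏ j : T, c j (v j))
    (fun v x => φ v * ∏ j : T, ((one (lam j x = v j) : ℝ) : ℂ))
    fun v _ => Sp.smul (φ v) (Sp.prod univ (fun j : T => c j (v j))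
      (fun (j : T) x => ((one (lam j x = v j) : ℝ) : ℂ)) fun j _ => hc j (v j))
  refine (h1.of_eq hsum).mono ?_
  calc ∑ v : T → Λ, ‖φ v‖ * ∏ j : T, c j (v j)
      ≤ ∑ v : T → Λ, ∏ j : T, c j (v j) := sum_le_sum fun v _ =>
        mul_le_of_le_one_left (prod_nonneg fun j _ => hc0 j (v j)) (hφ1 v)
    _ = ∏ j : T, ∑ v, c j v := by
        rw [prod_univ_sum, Fintype.piFinset_univ]
    _ ≤ ∏ _j : T, (N : ℝ) := prod_le_prod (fun j _ => sum_nonneg fun v _ => hc0 j v)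
        fun j _ => hcN j
    _ = (N : ℝ) ^ T.card := by
        rw [prod_const, card_univ, Fintype.card_coe]

theorem br_bln [Fintype Λ] (h : Lab N J I lam) (hf : Fl J lam f) : Bln N J I f := by
  refine ⟨h.pos, h.dj, br_on h fun j hj => (hf j hj).1, fun j hj => (hf j hj).2, fun j hj => ?_⟩
  have := br_sp h (T := {j}) (singleton_subset_iff.2 hj) (F := f j)
    (fun x y hxy => (hf j hj).1 x y (hxy j (mem_singleton_self j))) (hf j hj).2
  simpa using this

theorem br_ev [Fintype Λ] (h : Lab N J I lam) (hA : El K J lam A) : Ph.Ev K J I A :=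
  ⟨br_on h hA.on, hA.mass⟩

theorem br_dp [Fintype Λ] (h : Lab N J I lam) (hΦ : Dl J lam A Φ) : Ph.Dp J I A Φ :=
  ⟨hΦ.le, fun x y hxy => hΦ.dep x y fun j hj hj' => h.on j hj x y (hxy j hj hj')⟩

theorem Lab.sub [Fintype Λ] {J' : Finset (Fin n)} (h : Lab N J I lam) (hJ : J' ⊆ J) :
    Lab N J' I lam :=
  ⟨h.pos, fun i hi j hj => h.dj i (hJ hi) j (hJ hj), fun j hj => h.on j (hJ hj),
    fun j hj => h.sp j (hJ hj)⟩

theorem Lab.mono [Fintype Λ] {N' : ℕ} (h : Lab N J I lam) (hN : N ≤ N') : Lab N' J I lam :=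
  ⟨h.pos.trans hN, h.dj, h.on, fun j hj => by
    obtain ⟨c, hc, hs⟩ := h.sp j hj
    exact ⟨c, hc, hs.trans (by exact_mod_cast hN)⟩⟩

end BR

end Pool.Agent.MP_ca1109_lc.Pnh
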