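import Pool.Agent.MP_ca1109_lc.Pn.Defs
import Pool.Agent.MP_ca1109_lc.Ph.Defs

/-!
# Product tests over blocks of any length, with heavy blocks: definitions

* `Ol l f`: `f` is a function of the label `l`.
* `Lab N J I lam`: the labels `lam j` of the disjoint blocks `I j` have level sets of total Walsh
  norm at most `N`.
* `Fl J lam f`: the `f j` are bounded by one and functions of the labels.
* `El K J lam A`: the events `A j` are functions of the labels, of total probability at most `K`.
* `Dl J lam A Φ`: `Φ` is bounded by one and depends only on the labels of the blocks at which `A j`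
  happens.
* `LFools N K ε X`: `X` fools all `Φ * ∏ j, f j`.
* `LC J lam A B f`: combinations of such functions with coefficients of total size at most `B`.
-/

namespace Pool.Agent.MP_ca1109_lc.Pnh

open Finset Pool.Agent.H66 Pool.Agent.MP_ca1109_lc.Mpg Pool.Agent.MP_ca1109_lc.Agp
  Pool.Agent.MP_ca1109_lc.Xp Pool.Agent.MP_ca1109_lc.Pt
open Pool.Agent.MP_ca1109_lc.Dnf (Cube ch one On)

variable {n : ℕ}

/-- `f` is a function of `l`. -/
def Ol {Λ α : Type*} (l : Cube n → Λ) (f : Cube n → α) : Prop := ∀ x y, l x = l y → f x = f y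

/-- Labels of disjoint blocks. The level sets of a label have total Walsh norm at most `N`. -/
structure Lab {Λ : Type} [Fintype Λ] (N : ℕ) (J : Finset (Fin n)) (I : Fin n → Finset (Fin n))
    (lam : Fin n → Cube n → Λ) : Prop where
  pos : 1 ≤ N
  dj : ∀ i ∈ J, ∀ j ∈ J, i ≠ j → Disjoint (I i) (I j)
  on : ∀ j ∈ J, On (I j) (lam j)
  sp : ∀ j ∈ J, ∃ c : Λ → ℝ, (∀ v, Sp (c v) fun x => ((one (lam j x = v) : ℝ) : ℂ)) ∧
    ∑ v, c v ≤ N

/-- The `f j` are bounded by one and functions of the labels. -/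
def Fl {Λ : Type} (J : Finset (Fin n)) (lam : Fin n → Cube n → Λ) (f : Fin n → Cube n → ℂ) : Prop :=
  ∀ j ∈ J, Ol (lam j) (f j) ∧ ∀ x, ‖f j x‖ ≤ 1

/-- The events `A j` are functions of the labels and have total probability at most `K`. -/
structure El {Λ : Type} (K : ℝ) (J : Finset (Fin n)) (lam : Fin n → Cube n → Λ)
    (A : Fin n → Cube n → Prop) : Prop where
  on : ∀ j ∈ J, Ol (lam j) (A j)
  mass : ∑ j ∈ J, (avg fun x => one (A j x)) ≤ K

/-- `Φ` is bounded by one and depends only on the labels at which the events happen. -/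
structure Dl {Λ : Type} (J : Finset (Fin n)) (lam : Fin n → Cube n → Λ)
    (A : Fin n → Cube n → Prop) (Φ : Cube n → ℂ) : Prop where
  le : ∀ x, ‖Φ x‖ ≤ 1
  dep : ∀ x y : Cube n, (∀ j ∈ J, A j x ∨ A j y → lam j x = lam j y) → Φ x = Φ y

/-- The string `X ω` fools, with error at most `ε`, all functions of the heavy labels times products
of bounded functions of the labels. -/
def LFools (N : ℕ) (K ε : ℝ) {Ω : Type*} [Fintype Ω] (X : Ω → Cube n) : Prop :=
  ∀ (Λ : Type) [Fintype Λ] (J : Finset (Fin n)) (I : Fin n → Finset (Fin n))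
    (lam : Fin n → Cube n → Λ) (f : Fin n → Cube n → ℂ) (A : Fin n → Cube n → Prop)
    (Φ : Cube n → ℂ), Lab N J I lam → Fl J lam f → El K J lam A → Dl J lam A Φ →
    ‖av (fun ω => Φ (X ω) * ∏ j ∈ J, f j (X ω)) - av (fun x => Φ x * ∏ j ∈ J, f j x)‖ ≤ ε

/-- Combinations with coefficients of total size at most `B`. -/
def LC {Λ : Type} (J : Finset (Fin n)) (lam : Fin n → Cube n → Λ) (A : Fin n → Cube n → Prop)
    (B : ℝ) (f : Cube n → ℂ) : Prop :=
  ∃ (ι : Type) (_ : Fintype ι) (c : ι → ℂ) (Φ : ι → Cube n → ℂ) (g : ι → Fin n → Cube n → ℂ),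
    (∀ i, Dl J lam A (Φ i)) ∧ (∀ i, Fl J lam (g i)) ∧ (∑ i, ‖c i‖ ≤ B) ∧
      ∀ x, f x = ∑ i, c i * (Φ i x * ∏ j ∈ J, g i j x)

/-- The pair of labels of `y` and of the shift of `y` by `W`. -/
def pl {Λ : Type} (lam : Fin n → Cube n → Λ) (W : Cube n) (j : Fin n) (y : Cube n) : Λ × Λ :=
  (lam j y, lam j (xo y W))

/-- The level set of `f` which contains `x`. -/
noncomputable def lvl {α : Type*} (f : Cube n → α) (x : Cube n) : Finset (Cube n) :=
  open Classical in univ.filter fun y => f y = f x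

end Pool.Agent.MP_ca1109_lc.Pnh
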