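import Pool.Agent.MP_ca1109_lc.Pn.SF
import Pool.Agent.MP_ca1109_lc.Pn.BL
import Pool.Agent.MP_ca1109_lc.Pt.C0

/-!
# The first easy case with heavy blocks: the second moments are small
-/

namespace Pool.Agent.MP_ca1109_lc.Pnh

open Finset Pool.Agent.H66 Pool.Agent.MP_ca1109_lc.Mpg Pool.Agent.MP_ca1109_lc.Agp
  Pool.Agent.MP_ca1109_lc.Xp Pool.Agent.MP_ca1109_lc.Pt
open Pool.Agent.MP_ca1109_lc.Dnf (Cube ch one On)
open Pool.Agent.MP_ca1109_lc.Pn (Bln)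

variable {n : ℕ}

theorem case0h {ε : ℝ} (hε : 0 < ε) : ∃ C K' : ℕ, ∀ (n N : ℕ) (J : Finset (Fin n))
    (I : Fin n → Finset (Fin n)) (f : Fin n → Cube n → ℂ) (Φ : Cube n → ℂ), Bln N J I f →
    (∀ x, ‖Φ x‖ ≤ 1) → (C : ℝ) ≤ Ls J f 0 →
    ∀ {Ω : Type} [Fintype Ω] [Nonempty Ω] (Y : Ω → Cube n) (δ : ℝ), 0 ≤ δ → Bias δ Y →
      ‖av (fun ω => Φ (Y ω) * ∏ j ∈ J, f j (Y ω))‖ ^ 2 ≤ ε + δ * bd K' n N := by
  classical
  obtain ⟨C, hC⟩ := exists_nat_ge (2 * Real.log (2 / ε))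
  obtain ⟨K', hK⟩ := Pn.foolSB (Lam := (C : ℝ) + 1) (half_pos hε)
  refine ⟨C, 2 * K', ?_⟩
  intro n N J I f Φ h hΦ hCL Ω _ _ Y δ hδ hY
  set b : Fin n → ℝ := fun j => avg fun x => ‖f j x‖ ^ 2 with hb
  have hb0 : ∀ j, 0 ≤ b j := fun j => by
    rw [hb]
    unfold avg
    positivity
  have hb1 : ∀ j ∈ J, b j ≤ 1 := fun j hj =>
    (avg_mono fun x => pow_le_one₀ (norm_nonneg _) (h.le j hj x)).trans (le_of_eq (avg_const 1))
  rw [Ls_zero] at hCL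
  obtain ⟨J', hJ', h1, h2⟩ := c0_sel (fun j => 1 - b j ^ 2) (Nat.cast_nonneg C) J
    (fun j _ => by nlinarith [hb0 j]) hCL
  set g : Fin n → Cube n → ℂ := fun j x => ((‖f j x‖ ^ 2 : ℝ) : ℂ) with hg
  have hgn : ∀ j x, ‖g j x‖ = ‖f j x‖ ^ 2 := fun j x => by
    rw [hg]
    simp only
    rw [Complex.norm_real, Real.norm_eq_abs, abs_of_nonneg (by positivity)]
  have hBlk : Bln (N ^ 2) J' I g := by
    refine ⟨Nat.one_le_pow _ _ h.pos, fun i hi j hj => h.dj i (hJ' hi) j (hJ' hj),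
      fun j hj x y hxy => ?_, fun j hj x => ?_, fun j hj => ?_⟩
    · rw [hg]
      simp only
      rw [h.on j (hJ' hj) x y hxy]
    · rw [hgn]
      exact pow_le_one₀ (norm_nonneg _) (h.le j (hJ' hj) x)
    · have h9 := sp_normsq (h.sp j (hJ' hj))
      push_cast
      exact h9
  have hav : ∀ j, av (g j) = ((b j : ℝ) : ℂ) := fun j => c0_av_ofReal _
  have havn : ∀ j, ‖av (g j)‖ = b j := fun j => by
    rw [hav, Complex.norm_real, Real.norm_eq_abs, abs_of_nonneg (hb0 j)]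
  have hloss : ∑ j ∈ J', (1 - ‖av (g j)‖) ≤ (C : ℝ) + 1 := by
    refine le_trans (sum_le_sum fun j hj => ?_) h2
    rw [havn]
    nlinarith [hb0 j, hb1 j (hJ' hj)]
  have h3 := hK n (N ^ 2) J' I g hBlk hloss ∅ Y δ hδ hY
  simp only [Dnf.ch_empty, Complex.ofReal_one, one_mul] at h3
  have h4 : av (fun x => ∏ j ∈ J', g j x) = ∏ j ∈ J', av (g j) := av_prod hBlk.dj g hBlk.on
  have h5 : ‖∏ j ∈ J', av (g j)‖ ≤ ε / 2 := by
    rw [norm_prod]
    calc ∏ j ∈ J', ‖av (g j)‖ ≤ ∏ j ∈ J', Real.exp (-(1 - b j ^ 2) / 2) := by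
          refine prod_le_prod (fun j _ => norm_nonneg _) fun j hj => ?_
          rw [havn]
          have e1 := Real.add_one_le_exp (-(1 - b j))
          have e2 : Real.exp (-(1 - b j)) ≤ Real.exp (-(1 - b j ^ 2) / 2) := by
            apply Real.exp_le_exp.2
            nlinarith [hb0 j, hb1 j (hJ' hj)]
          linarith
      _ = Real.exp (-(∑ j ∈ J', (1 - b j ^ 2)) / 2) := by
          rw [← Real.exp_sum, neg_div, sum_div, ← sum_neg_distrib]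
          congr 1
          exact sum_congr rfl fun j _ => by ring
      _ ≤ Real.exp (-Real.log (2 / ε)) := by
          apply Real.exp_le_exp.2
          linarith
      _ = ε / 2 := by
          rw [Real.exp_neg, Real.exp_log (by positivity), inv_div]
  have h6 : ‖av fun ω => Φ (Y ω) * ∏ j ∈ J, f j (Y ω)‖ ^ 2 ≤
      avg fun ω => ∏ j ∈ J', ‖f j (Y ω)‖ ^ 2 := by
    refine (c0_norm_sq _).trans (avg_mono fun ω => ?_)
    have e0 : ‖Φ (Y ω) * ∏ j ∈ J, f j (Y ω)‖ ^ 2 ≤ ‖∏ j ∈ J, f j (Y ω)‖ ^ 2 := by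
      rw [norm_mul, mul_pow]
      exact mul_le_of_le_one_left (by positivity) (pow_le_one₀ (norm_nonneg _) (hΦ _))
    refine e0.trans ?_
    rw [norm_prod, ← prod_pow, ← prod_sdiff hJ']
    calc (∏ j ∈ J \ J', ‖f j (Y ω)‖ ^ 2) * ∏ j ∈ J', ‖f j (Y ω)‖ ^ 2
        ≤ 1 * ∏ j ∈ J', ‖f j (Y ω)‖ ^ 2 := by
          refine mul_le_mul_of_nonneg_right ?_ (prod_nonneg fun j _ => by positivity)
          exact prod_le_one (fun j _ => by positivity) fun j hj =>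
            pow_le_one₀ (norm_nonneg _) (h.le j (mem_sdiff.1 hj).1 _)
      _ = _ := one_mul _
  have h7 : (avg fun ω => ∏ j ∈ J', ‖f j (Y ω)‖ ^ 2) ≤ ‖av fun ω => ∏ j ∈ J', g j (Y ω)‖ := by
    have e1 : (av fun ω => ∏ j ∈ J', g j (Y ω)) =
        ((avg fun ω => ∏ j ∈ J', ‖f j (Y ω)‖ ^ 2 : ℝ) : ℂ) := by
      rw [← c0_av_ofReal]
      congr 1
      funext ω
      rw [hg]
      push_cast
      rfl
    rw [e1, Complex.norm_real]
    exact le_abs_self _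
  have h8 : ‖av fun ω => ∏ j ∈ J', g j (Y ω)‖ ≤
      ‖(av fun ω => ∏ j ∈ J', g j (Y ω)) - av fun x => ∏ j ∈ J', g j x‖ +
        ‖av fun x => ∏ j ∈ J', g j x‖ := by
    have := norm_add_le ((av fun ω => ∏ j ∈ J', g j (Y ω)) - av fun x => ∏ j ∈ J', g j x)
      (av fun x => ∏ j ∈ J', g j x)
    rwa [sub_add_cancel] at this
  rw [h4] at h8 h3
  have h9 := mul_le_mul_of_nonneg_left (Pn.bd_sq (K := K') h.pos n) hδ
  linarith

end Pool.Agent.MP_ca1109_lc.Pnh
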