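import Pool.Agent.MP_ca1109_lc.Pnh.SFH
import Pool.Agent.MP_ca1109_lc.Pt.C1

/-!
# The case of small loss at density `1 / 2`, with heavy blocks of any length
-/

namespace Pool.Agent.MP_ca1109_lc.Pnh

open Finset Pool.Agent.H66 Pool.Agent.MP_ca1109_lc.Mpg Pool.Agent.MP_ca1109_lc.Agp
  Pool.Agent.MP_ca1109_lc.Xp Pool.Agent.MP_ca1109_lc.Pt
open Pool.Agent.MP_ca1109_lc.Dnf (Cube ch one On)

variable {n : ℕ}

/-! ## H1 -/

theorem h1_bd {C n N : ℕ} (hN : 1 ≤ N) : bd C n (2 * N) ≤ bd (C * 2 ^ C) n N := by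
  unfold bd
  have hN' : (1 : ℝ) ≤ N := by exact_mod_cast hN
  have h1 : (1 : ℝ) ≤ ((n : ℝ) + 1) * N := by
    have h0 : (0 : ℝ) ≤ n := Nat.cast_nonneg n
    nlinarith
  have h2 : (((n : ℝ) + 1) * N) ^ C ≤ (((n : ℝ) + 1) * N) ^ (C * 2 ^ C) :=
    pow_le_pow_right₀ h1 (Nat.le_mul_of_pos_right C (by positivity))
  have h3 : ((n : ℝ) + 1) * ((2 * N : ℕ) : ℝ) = 2 * (((n : ℝ) + 1) * N) := by
    push_cast
    ring
  rw [h3, mul_pow]
  calc (C : ℝ) * (2 ^ C * (((n : ℝ) + 1) * N) ^ C) = (C * 2 ^ C) * (((n : ℝ) + 1) * N) ^ C := by ring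
    _ ≤ (C * 2 ^ C) * (((n : ℝ) + 1) * N) ^ (C * 2 ^ C) := mul_le_mul_of_nonneg_left h2 (by positivity)
    _ = ((C * 2 ^ C : ℕ) : ℝ) * (((n : ℝ) + 1) * N) ^ (C * 2 ^ C) := by push_cast; ring

/-- The indicator of a value, times the indicator of a parity. -/
theorem h1_sp {B : ℝ} {P : Cube n → Prop} (h : Sp B fun x => ((one (P x) : ℝ) : ℂ))
    (S : Finset (Fin n)) (s : Bool) :
    Sp B fun x => ((one (P x ∧ decide (ch S x = 1) = s) : ℝ) : ℂ) := by
  have h1 := (h.add (sp_ch h S)).smul (1 / 2)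
  have h2 := (h.sub (sp_ch h S)).smul (1 / 2)
  have e0 : ‖(1 / 2 : ℂ)‖ * (B + B) = B := by
    rw [norm_div, norm_one]
    norm_num
    ring
  rw [e0] at h1 h2
  have hc : ∀ x : Cube n, ch S x = 1 ∨ ch S x = -1 := by
    intro x
    have h3 : ch S x * ch S x = 1 := c1_ch_sq S x
    have h4 : (ch S x - 1) * (ch S x + 1) = 0 := by ring_nf; linarith
    rcases mul_eq_zero.1 h4 with h5 | h5
    · exact Or.inl (by linarith)
    · exact Or.inr (by linarith)
  cases s with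
  | true =>
    refine h1.of_eq fun x => ?_
    by_cases hP : P x
    · rcases hc x with h3 | h3
      · rw [Dnf.one_true hP, Dnf.one_true ⟨hP, by simp [h3]⟩, h3]
        push_cast
        ring
      · rw [Dnf.one_true hP, Dnf.one_false (by simp [h3]; intro _; norm_num), h3]
        push_cast
        ring
    · rw [Dnf.one_false hP, Dnf.one_false (fun h6 => hP h6.1)]
      simp
  | false =>
    refine h2.of_eq fun x => ?_
    by_cases hP : P x
    · rcases hc x with h3 | h3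
      · rw [Dnf.one_true hP, Dnf.one_false (by simp [h3]), h3]
        push_cast
        ring
      · rw [Dnf.one_true hP, Dnf.one_true ⟨hP, by simp [h3]; norm_num⟩, h3]
        push_cast
        ring
    · rw [Dnf.one_false hP, Dnf.one_false (fun h6 => hP h6.1)]
      simp

/-- Labels with one parity more. -/
theorem h1_lab {Λ : Type} [Fintype Λ] {N : ℕ} {J : Finset (Fin n)} {I : Fin n → Finset (Fin n)}
    {lam : Fin n → Cube n → Λ} (h : Lab N J I lam) (S : Fin n → Finset (Fin n))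
    (hS : ∀ j ∈ J, S j ⊆ I j) :
    Lab (2 * N) J I (fun j x => (lam j x, decide (ch (S j) x = 1))) where
  pos := by have := h.pos; omega
  dj := h.dj
  on := by
    intro j hj x y hxy
    have h1 := h.on j hj x y hxy
    have h2 : ch (S j) x = ch (S j) y := by
      unfold ch
      exact Finset.prod_congr rfl fun i hi => by rw [hxy i (hS j hj hi)]
    show (lam j x, decide (ch (S j) x = 1)) = (lam j y, decide (ch (S j) y = 1))
    rw [h1, h2]
  sp := by
    intro j hj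
    obtain ⟨c, hc, hc1⟩ := h.sp j hj
    refine ⟨fun v => c v.1, fun v => ?_, ?_⟩
    · refine (h1_sp (hc v.1) (S j) v.2).of_eq fun x => ?_
      congr 2
      apply propext
      rw [Prod.ext_iff]
    · rw [Fintype.sum_prod_type]
      simp only [Finset.sum_const, Finset.card_univ, Fintype.card_bool, nsmul_eq_mul]
      rw [← Finset.mul_sum]
      push_cast
      linarith

theorem case1h {Lam K ε : ℝ} (hε : 0 < ε) : ∃ K' : ℕ, ∀ (Λ : Type) [Fintype Λ] (n N : ℕ)
    (J : Finset (Fin n)) (I : Fin n → Finset (Fin n)) (lam : Fin n → Cube n → Λ)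
    (f : Fin n → Cube n → ℂ) (A : Fin n → Cube n → Prop) (Φ : Cube n → ℂ), Lab N J I lam →
    Fl J lam f → El K J lam A → Dl J lam A Φ →
    Ls J f (1 / 2) ≤ Lam → ∀ {Ω : Type} [Fintype Ω] [Nonempty Ω] (Y : Ω → Cube n) (δ : ℝ),
      0 ≤ δ → Bias δ Y →
      ‖av (fun ω => Φ (Y ω) * ∏ j ∈ J, f j (Y ω)) - av (fun x => Φ x * ∏ j ∈ J, f j x)‖ ≤
        ε + δ * bd K' n N := by
  classical
  obtain ⟨C, hK⟩ := foolSBH (Lam := Lam) (K := K) hε
  refine ⟨C * 2 ^ C, fun Λ _ n N J I lam f A Φ h hf hA hΦ hL Ω _ _ Y δ hδ hY => ?_⟩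
  have hon : ∀ j ∈ J, On (I j) (f j) := fun j hj x y hxy => (hf j hj).1 x y (h.on j hj x y hxy)
  have hex : ∀ j, ∃ S : Finset (Fin n), j ∈ J → (S ⊆ I j ∧
      ∑ U, (‖co (f j) U‖ ^ 2) ^ 2 ≤ ‖co (f j) S‖) := by
    intro j
    by_cases hj : j ∈ J
    · obtain ⟨S, hS, hS'⟩ := c1_max (hon j hj) (hf j hj).2
      exact ⟨S, fun _ => ⟨hS, hS'⟩⟩
    · exact ⟨∅, fun h' => absurd h' hj⟩
  choose S hS using hex
  obtain ⟨g, hg⟩ : ∃ g : Fin n → Cube n → ℂ, ∀ j x, g j x = f j x * ((ch (S j) x : ℝ) : ℂ) :=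
    ⟨fun j x => f j x * ((ch (S j) x : ℝ) : ℂ), fun _ _ => rfl⟩
  have hch1 : ∀ (T : Finset (Fin n)) (x : Cube n), ‖((ch T x : ℝ) : ℂ)‖ = 1 := by
    intro T x
    rw [Complex.norm_real, Real.norm_eq_abs, Dnf.ch_abs]
  have hlab := h1_lab h S fun j hj => (hS j hj).1
  have hcd : ∀ (j : Fin n) (x y : Cube n), decide (ch (S j) x = 1) = decide (ch (S j) y = 1) →
      ch (S j) x = ch (S j) y := by
    intro j x y hxy
    have hc : ∀ z : Cube n, ch (S j) z = 1 ∨ ch (S j) z = -1 := by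
      intro z
      have h3 : ch (S j) z * ch (S j) z = 1 := c1_ch_sq (S j) z
      have h4 : (ch (S j) z - 1) * (ch (S j) z + 1) = 0 := by ring_nf; linarith
      rcases mul_eq_zero.1 h4 with h5 | h5
      · exact Or.inl (by linarith)
      · exact Or.inr (by linarith)
    have h5 := decide_eq_decide.1 hxy
    rcases hc x with hx | hx
    · rw [hx, h5.1 hx]
    · rcases hc y with hy | hy
      · rw [hy, h5.2 hy]
      · rw [hx, hy]
  have hgF : Fl J (fun j x => (lam j x, decide (ch (S j) x = 1))) g := by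
    refine fun j hj => ⟨fun x y hxy => ?_, fun x => ?_⟩
    · have h1 := (Prod.ext_iff.1 hxy).1
      have h2 := (Prod.ext_iff.1 hxy).2
      rw [hg, hg, (hf j hj).1 x y h1, hcd j x y h2]
    · rw [hg, norm_mul, hch1, mul_one]
      exact (hf j hj).2 x
  have hA' : El K J (fun j x => (lam j x, decide (ch (S j) x = 1))) A :=
    ⟨fun j hj x y hxy => hA.on j hj x y (Prod.ext_iff.1 hxy).1, hA.mass⟩
  have hΦ' : Dl J (fun j x => (lam j x, decide (ch (S j) x = 1))) A Φ :=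
    ⟨hΦ.le, fun x y hxy => hΦ.dep x y fun j hj h' => (Prod.ext_iff.1 (hxy j hj h')).1⟩
  have hav : ∀ j, av (g j) = co (f j) (S j) := by
    intro j
    unfold co
    congr 1
    funext x
    exact hg j x
  have hloss : ∑ j ∈ J, (1 - ‖av (g j)‖) ≤ Lam := by
    refine le_trans (Finset.sum_le_sum fun j hj => ?_) ((Ls_half J f).symm.le.trans hL)
    rw [hav]
    have := (hS j hj).2
    linarith
  have hprod : ∀ x, Φ x * ∏ j ∈ J, f j x =
      ((ch (J.biUnion S) x : ℝ) : ℂ) * (Φ x * ∏ j ∈ J, g j x) := by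
    intro x
    have h1 : ch (J.biUnion S) x = ∏ j ∈ J, ch (S j) x := by
      unfold ch
      rw [Finset.prod_biUnion]
      intro i hi j hj hij
      exact Finset.disjoint_of_subset_left (hS i hi).1
        (Finset.disjoint_of_subset_right (hS j hj).1 (h.dj i hi j hj hij))
    have h3 : ∏ j ∈ J, f j x = ((ch (J.biUnion S) x : ℝ) : ℂ) * ∏ j ∈ J, g j x := by
      rw [h1]
      push_cast
      rw [← Finset.prod_mul_distrib]
      refine Finset.prod_congr rfl fun j _ => ?_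
      rw [hg]
      have h2 : ((ch (S j) x : ℝ) : ℂ) * ((ch (S j) x : ℝ) : ℂ) = 1 := by
        exact_mod_cast c1_ch_sq (S j) x
      calc f j x = f j x * 1 := (mul_one _).symm
        _ = f j x * (((ch (S j) x : ℝ) : ℂ) * ((ch (S j) x : ℝ) : ℂ)) := by rw [h2]
        _ = _ := by ring
    rw [h3]
    ring
  have key := hK (Λ × Bool) n (2 * N) J I _ g A Φ hlab hgF hA' hΦ' hloss (J.biUnion S) Y δ hδ hY
  have e1 : (fun ω => Φ (Y ω) * ∏ j ∈ J, f j (Y ω)) =
      fun ω => ((ch (J.biUnion S) (Y ω) : ℝ) : ℂ) * (Φ (Y ω) * ∏ j ∈ J, g j (Y ω)) :=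
    funext fun ω => hprod (Y ω)
  have e2 : (fun x => Φ x * ∏ j ∈ J, f j x) =
      fun x => ((ch (J.biUnion S) x : ℝ) : ℂ) * (Φ x * ∏ j ∈ J, g j x) := funext hprod
  rw [e1, e2]
  have h9 := mul_le_mul_of_nonneg_left (h1_bd (C := C) (n := n) h.pos) hδ
  linarith

end Pool.Agent.MP_ca1109_lc.Pnh
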