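import Pool.Agent.MP_ca1109_lc.Pnh.Defs
import Pool.Agent.MP_ca1109_lc.Pt.AU
import Pool.Agent.MP_ca1109_lc.Xp.SPb

/-!
# Row PD: pairs of labels
-/

namespace Pool.Agent.MP_ca1109_lc.Pnh

open Finset Pool.Agent.H66 Pool.Agent.MP_ca1109_lc.Mpg Pool.Agent.MP_ca1109_lc.Agp
  Pool.Agent.MP_ca1109_lc.Xp Pool.Agent.MP_ca1109_lc.Pt
open Pool.Agent.MP_ca1109_lc.Dnf (Cube ch one On)

variable {n : ℕ} {Λ : Type} {K : ℝ} {N : ℕ} {J : Finset (Fin n)}
  {I : Fin n → Finset (Fin n)} {lam : Fin n → Cube n → Λ} {f : Fin n → Cube n → ℂ}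
  {A : Fin n → Cube n → Prop} {Φ : Cube n → ℂ}

/-! ## Products with shifts -/

theorem pd_sp {B : ℝ} {g : Cube n → Prop} (W : Cube n)
    (h : Sp B fun x => ((one (g x) : ℝ) : ℂ)) : Sp B fun x => ((one (g (xo x W)) : ℝ) : ℂ) :=
  h.xo W

theorem pd_on {α : Type*} {B : Finset (Fin n)} {g : Cube n → α} (h : On B g) (W : Cube n) :
    On B fun x => g (xo x W) := fun x y hxy => h _ _ fun i hi => by
  unfold xo
  rw [hxy i hi]

theorem lab_pl [Fintype Λ] (h : Lab N J I lam) (W : Cube n) : Lab (N ^ 2) J I (pl lam W) where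
  pos := Nat.one_le_pow _ _ h.pos
  dj := h.dj
  on := fun j hj x y hxy => Prod.ext (h.on j hj x y hxy) (pd_on (h.on j hj) W x y hxy)
  sp := fun j hj => by
    obtain ⟨c, h1, h2⟩ := h.sp j hj
    have hc0 : ∀ v, 0 ≤ c v := fun v => (h1 v).nonneg
    refine ⟨fun v => c v.1 * c v.2, fun v => ?_, ?_⟩
    · have h3 := (h1 v.1).mul (pd_sp (g := fun x => lam j x = v.2) W (h1 v.2))
      refine h3.congr' fun x => ?_
      rw [← Complex.ofReal_mul, ← Dnf.one_and]
      congr 2
      refine propext ?_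
      unfold pl
      rw [Prod.ext_iff]
    · rw [Fintype.sum_prod_type]
      simp only
      have h3 : ∑ x, ∑ y, c x * c y = (∑ v, c v) ^ 2 := by
        rw [sq, sum_mul_sum]
      rw [h3]
      push_cast
      exact pow_le_pow_left₀ (sum_nonneg fun v _ => hc0 v) h2 2

theorem fl_dr (hf : Fl J lam f) (W : Cube n) : Fl J (pl lam W) (fun j => dr (f j) W) := by
  intro j hj
  obtain ⟨h1, h2⟩ := hf j hj
  refine ⟨fun x y hxy => ?_, fun x => ?_⟩
  · unfold pl at hxy
    rw [Prod.ext_iff] at hxy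
    show f j x * (starRingEnd ℂ) (f j (xo x W)) = f j y * (starRingEnd ℂ) (f j (xo y W))
    rw [h1 x y hxy.1, h1 _ _ hxy.2]
  · unfold dr
    rw [norm_mul, Complex.norm_conj]
    exact mul_le_one₀ (h2 _) (norm_nonneg _) (h2 _)

theorem el_dr (hA : El K J lam A) (W : Cube n) :
    El (2 * K) J (pl lam W) (fun j y => A j y ∨ A j (xo y W)) where
  on := fun j hj x y hxy => by
    unfold pl at hxy
    rw [Prod.ext_iff] at hxy
    simp only [hA.on j hj x y hxy.1, hA.on j hj _ _ hxy.2]
  mass := by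
    have h1 : ∀ j ∈ J, (avg fun y => one (A j y ∨ A j (xo y W))) ≤
        2 * avg fun x => one (A j x) := by
      intro j _
      have h2 : (avg fun y => one (A j (xo y W))) = avg fun x => one (A j x) :=
        avg_xo (fun y => one (A j y)) W
      have h3 : (avg fun y => one (A j y ∨ A j (xo y W))) ≤
          avg fun y => one (A j y) + one (A j (xo y W)) := by
        refine avg_mono fun y => ?_
        have h4 := Dnf.one_nonneg (A j y)
        have h5 := Dnf.one_nonneg (A j (xo y W))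
        by_cases h6 : A j y
        · have := Dnf.one_le (A j y ∨ A j (xo y W))
          rw [Dnf.one_true h6]
          linarith
        · by_cases h7 : A j (xo y W)
          · have := Dnf.one_le (A j y ∨ A j (xo y W))
            rw [Dnf.one_true h7]
            linarith
          · rw [Dnf.one_false (not_or.2 ⟨h6, h7⟩)]
            linarith
      rw [avg_add, h2] at h3
      linarith
    refine (sum_le_sum h1).trans ?_
    rw [← mul_sum]
    linarith [hA.mass]

theorem dl_dr (hΦ : Dl J lam A Φ) (W : Cube n) :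
    Dl J (pl lam W) (fun j y => A j y ∨ A j (xo y W)) (dr Φ W) where
  le := fun x => by
    unfold dr
    rw [norm_mul, Complex.norm_conj]
    exact mul_le_one₀ (hΦ.le _) (norm_nonneg _) (hΦ.le _)
  dep := fun x y h => by
    have h2 : ∀ j ∈ J, (A j x ∨ A j (xo x W)) ∨ (A j y ∨ A j (xo y W)) →
        lam j x = lam j y ∧ lam j (xo x W) = lam j (xo y W) := fun j hj h1 => by
      have h3 := h j hj h1
      unfold pl at h3
      rwa [Prod.ext_iff] at h3
    unfold dr
    rw [hΦ.dep x y fun j hj h1 => (h2 j hj (h1.imp Or.inl Or.inl)).1,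
      hΦ.dep (xo x W) (xo y W) fun j hj h1 => (h2 j hj (h1.imp Or.inr Or.inr)).2]

/-- The labels of a shifted string. -/
theorem lab_xo [Fintype Λ] (h : Lab N J I lam) (W : Cube n) :
    Lab N J I (fun j y => lam j (xo y W)) where
  pos := h.pos
  dj := h.dj
  on := fun j hj => pd_on (h.on j hj) W
  sp := fun j hj => by
    obtain ⟨c, h1, h2⟩ := h.sp j hj
    exact ⟨c, fun v => pd_sp (g := fun x => lam j x = v) W (h1 v), h2⟩

end Pool.Agent.MP_ca1109_lc.Pnh
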