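import Pool.Agent.MP_ca1109_lc.Pnh.SH
import Pool.Agent.MP_ca1109_lc.Pt.SF

/-! Row SFH: small bias fools heavy product tests of bounded loss, with a character. -/

namespace Pool.Agent.MP_ca1109_lc.Pnh

open Finset Pool.Agent.H66 Pool.Agent.MP_ca1109_lc.Mpg Pool.Agent.MP_ca1109_lc.Agp
  Pool.Agent.MP_ca1109_lc.Xp Pool.Agent.MP_ca1109_lc.Pt
open Pool.Agent.MP_ca1109_lc.Dnf (Cube ch one On)

variable {n : ℕ}

theorem foolSBH {Lam K ε : ℝ} (hε : 0 < ε) : ∃ C : ℕ, ∀ (Λ : Type) [Fintype Λ] (n N : ℕ)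
    (J : Finset (Fin n)) (I : Fin n → Finset (Fin n)) (lam : Fin n → Cube n → Λ)
    (g : Fin n → Cube n → ℂ) (A : Fin n → Cube n → Prop) (Φ : Cube n → ℂ), Lab N J I lam →
    Fl J lam g → El K J lam A → Dl J lam A Φ →
    ∑ j ∈ J, (1 - ‖av (g j)‖) ≤ Lam → ∀ (S : Finset (Fin n)) {Ω : Type} [Fintype Ω] [Nonempty Ω]
      (Y : Ω → Cube n) (δ : ℝ), 0 ≤ δ → Bias δ Y →
      ‖av (fun ω => ((ch S (Y ω) : ℝ) : ℂ) * (Φ (Y ω) * ∏ j ∈ J, g j (Y ω))) -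
        av (fun x => ((ch S x : ℝ) : ℂ) * (Φ x * ∏ j ∈ J, g j x))‖ ≤ ε + δ * bd C n N := by
  obtain ⟨C, hC⟩ := sbh (Lam := Lam) (K := K) (ε := ε / 2) (by linarith)
  refine ⟨2 * C, fun Λ _ n N J I lam g A Φ hl hg hA hΦ hL S Ω _ _ Y δ hδ hY => ?_⟩
  obtain ⟨t, R, h1, h2, h3, h4⟩ := hC Λ n N J I lam g A Φ hl hg hA hΦ hL
  set P : Cube n → ℂ := fun x => Φ x * ∏ j ∈ J, g j x with hP
  have e1 := sf_err (P := P) (t := t) (R := R) h1 S Y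
  have e2 := sf_err (P := P) (t := t) (R := R) h1 S (fun x : Cube n => x)
  have e3 : ‖av (fun ω => ((ch S (Y ω) : ℝ) : ℂ) * t (Y ω)) -
      av (fun x => ((ch S x : ℝ) : ℂ) * t x)‖ ≤ δ * bd C n N :=
    fool hδ hY (f := fun x => ((ch S x : ℝ) : ℂ) * t x) (h3.ch_mul S)
  have e4 : |(avg fun ω => R (Y ω)) - avg R| ≤ δ * bd C n N := fool_real hδ hY h4
  have e5 : δ * (2 * bd C n N) ≤ δ * bd (2 * C) n N :=
    mul_le_mul_of_nonneg_left (sf_bd_two C n N hl.pos) hδ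
  have e6 := (abs_le.1 e4).2
  change ‖av (fun ω => ((ch S (Y ω) : ℝ) : ℂ) * P (Y ω)) - av (fun x => ((ch S x : ℝ) : ℂ) * P x)‖ ≤ _
  set a := av (fun ω => ((ch S (Y ω) : ℝ) : ℂ) * P (Y ω))
  set b := av (fun x => ((ch S x : ℝ) : ℂ) * P x)
  set c := av (fun ω => ((ch S (Y ω) : ℝ) : ℂ) * t (Y ω))
  set d := av (fun x => ((ch S x : ℝ) : ℂ) * t x)
  have e7 : ‖a - b‖ ≤ ‖a - c‖ + ‖c - d‖ + ‖b - d‖ := by
    have : a - b = (a - c) + (c - d) - (b - d) := by ring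
    rw [this]
    exact (norm_sub_le _ _).trans (add_le_add (norm_add_le _ _) le_rfl)
  have e8 : ‖b - d‖ ≤ avg R := e2
  linarith

end Pool.Agent.MP_ca1109_lc.Pnh
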