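import Pool.Agent.MP_ca1109_lc.Ph.UB
import Pool.Agent.MP_ca1109_lc.Pn.C2
import Pool.Agent.MP_ca1109_lc.Pnh.BR
import Pool.Agent.MP_ca1109_lc.Pnh.PD
import Pool.Agent.MP_ca1109_lc.Pnh.SFH

namespace Pool.Agent.MP_ca1109_lc.Pnh

open Finset Pool.Agent.H66 Pool.Agent.MP_ca1109_lc.Mpg Pool.Agent.MP_ca1109_lc.Agp
  Pool.Agent.MP_ca1109_lc.Xp
open Pool.Agent.MP_ca1109_lc.Pt (Blk co cc dr au cb Ls Lo wd pd bd cs dr_prod bd_nonneg bd_add)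
open Pool.Agent.MP_ca1109_lc.Dnf (Cube ch one On)
open Pool.Agent.MP_ca1109_lc.Pn (Bln Dist Dis2)

variable {n : ℕ}

/-! ## H2: the main case -/

/-- The pointwise bound for one shift. -/
theorem h2_point {c X r Λ e δ b A : ℝ} (hX : 0 ≤ X) (hΛ : 0 < Λ) (he : 0 ≤ e) (hδ : 0 ≤ δ)
    (hb : 0 ≤ b) (hA1 : A ≤ 1) (hA : X ≤ Λ → A ≤ Real.exp (c - X / 2) + (e + δ * b)) :
    A ≤ Real.exp (c - r / 2) + one (X < r) + 1 / Λ * X + (e + δ * b) := by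
  have hdb : 0 ≤ δ * b := mul_nonneg hδ hb
  have h0 : 0 ≤ Real.exp (c - r / 2) := (Real.exp_pos _).le
  have h1 : 0 ≤ one (X < r) := Dnf.one_nonneg _
  have h2 : 0 ≤ 1 / Λ * X := by positivity
  rcases le_or_gt X Λ with h | h
  · rcases le_or_gt r X with h' | h'
    · have h3 : Real.exp (c - X / 2) ≤ Real.exp (c - r / 2) := Real.exp_le_exp.2 (by linarith)
      linarith [hA h]
    · rw [Dnf.one_true h']
      linarith
  · have h3 : 1 ≤ 1 / Λ * X := by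
      rw [one_div, inv_mul_eq_div, le_div_iff₀ hΛ]
      linarith
    linarith

theorem h2_lo {N : ℕ} {J : Finset (Fin n)} {I : Fin n → Finset (Fin n)} {f : Fin n → Cube n → ℂ}
    (h : Bln N J I f) (W : Cube n) :
    Lo J f W / 2 ≤ ∑ j ∈ J, (1 - ‖av (dr (f j) W)‖) := by
  unfold Lo
  rw [Finset.sum_div]
  refine sum_le_sum fun j hj => ?_
  have h1 : ‖au (f j) W‖ ≤ 1 := Pt.au_le (f j) (h.le j hj) W
  have h2 : 0 ≤ ‖au (f j) W‖ := norm_nonneg _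
  change (1 - ‖au (f j) W‖ ^ 2) / 2 ≤ 1 - ‖au (f j) W‖
  nlinarith

theorem case2h (K : ℝ) {ε : ℝ} (hε : 0 < ε) : ∃ s C₀ : ℕ, ∃ ε₀ : ℝ, 0 < ε₀ ∧ ∀ C : ℝ, C₀ ≤ C →
    ∃ K' : ℕ, ∀ (Λ : Type) [Fintype Λ] (n N : ℕ) (J : Finset (Fin n))
    (I : Fin n → Finset (Fin n)) (lam : Fin n → Cube n → Λ) (f : Fin n → Cube n → ℂ)
    (A : Fin n → Cube n → Prop) (Φ : Cube n → ℂ), Lab N J I lam → Fl J lam f → El K J lam A →
    Dl J lam A Φ → ∀ (L l : ℕ), l ≤ L → 1 ≤ l → C ≤ Ls J f ((1 / 2) ^ l) →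
    Ls J f ((1 / 2) ^ l) ≤ 2 * C →
    ∀ {Ω₁ Ω₂ : Type} [Fintype Ω₁] [Nonempty Ω₁] [Fintype Ω₂] [Nonempty Ω₂]
      (Y : Ω₁ → Cube n) (Z : Ω₂ → Cube (n * (L + s))) (sh : Ω₂ → Cube n) (δ : ℝ), 0 ≤ δ →
      Bias δ Y → Bias δ Z →
      (∀ d, Dist (pd l s d) ε₀ (fun ω => wd (eta (Z ω) l) (hsh (Z ω)) d)) →
      ‖av fun ω₂ => av fun ω₁ => av fun u : Fin (2 ^ s) → Bool =>
        Φ (mv (xo (Y ω₁) (sh ω₂)) (eta (Z ω₂) l) (hsh (Z ω₂)) u) *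
        ∏ j ∈ J, f j (mv (xo (Y ω₁) (sh ω₂)) (eta (Z ω₂) l) (hsh (Z ω₂)) u)‖ ^ 2 ≤
        ε + δ * bd K' n N := by
  obtain ⟨s, hs⟩ : ∃ s : ℕ, (1 / 2 : ℝ) ^ s < ε / 8 :=
    exists_pow_lt_of_lt_one (by positivity) (by norm_num)
  have hs' : (1 / 2 : ℝ) ^ (2 ^ s) ≤ ε / 8 :=
    (pow_le_pow_of_le_one (by norm_num) (by norm_num) Nat.lt_two_pow_self.le).trans hs.le
  obtain ⟨e, he, he1, he2⟩ : ∃ e : ℝ, 0 < e ∧ e ≤ 1 / 2 ∧ 4 * e ≤ ε / 8 :=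
    ⟨min (ε / 32) (1 / 2), lt_min (by positivity) (by norm_num), min_le_right _ _, by
      have := min_le_left (ε / 32) (1 / 2 : ℝ)
      linarith⟩
  have hT : (0 : ℝ) < 2 ^ s := by positivity
  have hT1 : (1 : ℝ) ≤ 2 ^ s := one_le_pow₀ (by norm_num)
  obtain ⟨C₀, hC₀⟩ := exists_nat_ge (800 * 2 ^ s / (e ^ 2 * ε) + 192 * 2 ^ s / (e * ε) +
    96 * |K| * 2 ^ s / e + 2 ^ s)
  refine ⟨s, C₀, e ^ 2 * ε / 96, by positivity, fun C hC => ?_⟩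
  have q1 : 0 ≤ 800 * 2 ^ s / (e ^ 2 * ε) := by positivity
  have q2 : 0 ≤ 192 * 2 ^ s / (e * ε) := by positivity
  have q3 : 0 ≤ 96 * |K| * 2 ^ s / e := by positivity
  have hC1 : 800 * 2 ^ s / (e ^ 2 * ε) ≤ C := by linarith
  have hC2 : 192 * 2 ^ s / (e * ε) + 96 * |K| * 2 ^ s / e ≤ C := by linarith
  have hC3 : 2 ^ s ≤ C := by linarith
  have hC0 : 0 < C := lt_of_lt_of_le hT hC3
  set Lm : ℝ := 32 * C / (e * ε) + 1 with hΛdef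
  have hΛ : 0 < Lm := by positivity
  have hΛ1 : 1 ≤ Lm := by
    have : 0 ≤ 32 * C / (e * ε) := by positivity
    linarith
  obtain ⟨K₃, hK₃⟩ := foolSBH (Lam := Lm) (K := 2 * K) (ε := ε / 8) (by positivity)
  refine ⟨1001 * 4 ^ (s + 2) + 2 * K₃, ?_⟩
  intro Λ _ n N J I lam f A Φ hLab hFl hEl hDl L l hlL hl hCl hCu Ω₁ Ω₂ _ _ _ _ Y Z sh δ hδ hY hZ
    hD
  have hB : Bln N J I f := br_bln hLab hFl
  have hN := hB.pos
  have hl2 : (1 / 2 : ℝ) ^ l ≤ 1 / 2 := by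
    have := pow_le_pow_of_le_one (a := (1 / 2 : ℝ)) (by norm_num) (by norm_num) hl
    rwa [pow_one] at this
  refine (cs (fun x => Φ x * ∏ j ∈ J, f j x) Y (fun ω₂ => eta (Z ω₂) l)
    (fun ω₂ => hsh (Z ω₂)) sh).trans ?_
  have hle1 : ∀ (d : Fin (2 ^ s) → Bool) (ω₂ : Ω₂) (a : Cube n),
      ‖av fun ω₁ => dr (fun x => Φ x * ∏ j ∈ J, f j x) (wd (eta (Z ω₂) l) (hsh (Z ω₂)) d)
        (xo (Y ω₁) a)‖ ≤ 1 := by
    intro d ω₂ a
    refine ((norm_av_le _).trans (avg_mono fun ω₁ => ?_)).trans_eq (avg_const 1)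
    rw [Ph.dr_mul, norm_mul, norm_prod]
    refine mul_le_one₀ ((dl_dr hDl _).le _) (prod_nonneg fun j _ => norm_nonneg _) ?_
    exact prod_le_one (fun j _ => norm_nonneg _) fun j hj =>
      (Pn.dr_bln hB (wd (eta (Z ω₂) l) (hsh (Z ω₂)) d)).le j hj _
  have hA : (0 : ℝ) ≤ 7 * ε / 8 + δ * bd (1001 * 4 ^ (s + 2) + 2 * K₃) n N :=
    add_nonneg (by positivity) (mul_nonneg hδ (bd_nonneg _ _ _))
  refine (Pt.C2.avg_d _ ?_ hA ?_).trans (by linarith)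
  · refine (avg_mono fun ω₂ => (avg_mono fun u => hle1 _ ω₂ _).trans_eq (avg_const 1)).trans_eq
      (avg_const 1)
  intro d hd
  -- the size of `ℓ`
  set ℓ : ℝ := Ls J f (pd l s d) with hℓdef
  have hpd0 := Pt.C2.pd_nonneg (l := l) d
  have hpd1 := Pt.C2.pd_ge (l := l) hd
  have hpd2 := Pt.C2.pd_le (l := l) d
  have hpd3 := hpd2.trans hl2
  have hℓ1 : C / 2 ^ s ≤ ℓ := by
    have h1 := Pn.Ls_scale hB (p := (1 / 2 : ℝ) ^ l) (θ := (1 / 2 : ℝ) ^ s) (by positivity) hl2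
      (by positivity) (pow_le_one₀ (by norm_num) (by norm_num))
    have h2 := Pn.Ls_mono hB (p := (1 / 2 : ℝ) ^ s * (1 / 2 : ℝ) ^ l) (q := pd l s d)
      (by positivity) (by rw [mul_comm]; exact hpd1) hpd3
    have h3 : C / 2 ^ s ≤ (1 / 2 : ℝ) ^ s * Ls J f ((1 / 2) ^ l) := by
      rw [one_div_pow, one_div, inv_mul_eq_div]
      exact div_le_div_of_nonneg_right hCl hT.le
    exact h3.trans (h1.trans h2)
  have hℓ2 : ℓ ≤ 2 * C := (Pn.Ls_mono hB hpd0 hpd2 hl2).trans hCu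
  have hℓ0 : 0 < ℓ := lt_of_lt_of_le (by positivity) hℓ1
  have hℓ3 : 1 ≤ ℓ := by
    refine le_trans ?_ hℓ1
    rw [le_div_iff₀ hT]
    linarith
  -- the pointwise bound
  have hpt : ∀ (ω₂ : Ω₂) (u : Fin (2 ^ s) → Bool),
      ‖av fun ω₁ => dr (fun x => Φ x * ∏ j ∈ J, f j x) (wd (eta (Z ω₂) l) (hsh (Z ω₂)) d)
        (xo (Y ω₁) (xo (sh ω₂) (wd (eta (Z ω₂) l) (hsh (Z ω₂)) u)))‖ ≤
      Real.exp (4 * K - e / 12 * ℓ / 2) +
        one (Lo J f (wd (eta (Z ω₂) l) (hsh (Z ω₂)) d) < e / 12 * ℓ) +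
        1 / Lm * Lo J f (wd (eta (Z ω₂) l) (hsh (Z ω₂)) d) + (ε / 8 + δ * bd (2 * K₃) n N) := by
    intro ω₂ u
    set W := wd (eta (Z ω₂) l) (hsh (Z ω₂)) d with hW
    set a := xo (sh ω₂) (wd (eta (Z ω₂) l) (hsh (Z ω₂)) u) with ha
    refine h2_point (Pn.Lo_nonneg hB W) hΛ (by positivity) hδ (bd_nonneg _ _ _) (hle1 d ω₂ a) ?_
    intro hX
    have g1 := lab_pl hLab W
    have g2 := fl_dr hFl W
    have g3 := el_dr hEl W
    have g4 := dl_dr hDl W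
    have h1 := hK₃ (Λ × Λ) n (N ^ 2) J I (pl lam W) (fun j => dr (f j) W) _ _ g1 g2 g3 g4
      ((Pn.Lo_ge hB W).trans hX) ∅ (fun ω₁ => xo (Y ω₁) a) δ hδ (hY.xo a)
    simp only [Dnf.ch_empty, Complex.ofReal_one, one_mul] at h1
    have h2 := Ph.ub (br_blk (br_bln g1 g2)) (br_ev g1 g3) (br_dp g1 g4)
    have h5 : Real.exp (2 * (2 * K) - ∑ j ∈ J, (1 - ‖av (dr (f j) W)‖)) ≤
        Real.exp (4 * K - Lo J f W / 2) := by
      apply Real.exp_le_exp.2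
      have := h2_lo hB W
      linarith
    have h3 : (fun ω₁ => dr (fun x => Φ x * ∏ j ∈ J, f j x) W (xo (Y ω₁) a)) =
        fun ω₁ => dr Φ W (xo (Y ω₁) a) * ∏ j ∈ J, dr (f j) W (xo (Y ω₁) a) := by
      funext ω₁
      exact Ph.dr_mul W _
    rw [h3]
    have h4 := norm_sub_norm_le
      (av fun ω₁ => dr Φ W (xo (Y ω₁) a) * ∏ j ∈ J, dr (f j) W (xo (Y ω₁) a))
      (av fun x => dr Φ W x * ∏ j ∈ J, dr (f j) W x)
    have h6 := mul_le_mul_of_nonneg_left (Pn.bd_sq (K := K₃) hN n) hδ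
    linarith
  have h1 : (avg fun ω₂ => avg fun u : Fin (2 ^ s) → Bool =>
      ‖av fun ω₁ => dr (fun x => Φ x * ∏ j ∈ J, f j x) (wd (eta (Z ω₂) l) (hsh (Z ω₂)) d)
        (xo (Y ω₁) (xo (sh ω₂) (wd (eta (Z ω₂) l) (hsh (Z ω₂)) u)))‖) ≤
      avg fun ω₂ => (Real.exp (4 * K - e / 12 * ℓ / 2) +
        one (Lo J f (wd (eta (Z ω₂) l) (hsh (Z ω₂)) d) < e / 12 * ℓ) +
        1 / Lm * Lo J f (wd (eta (Z ω₂) l) (hsh (Z ω₂)) d) + (ε / 8 + δ * bd (2 * K₃) n N)) :=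
    avg_mono fun ω₂ => (avg_mono fun u => hpt ω₂ u).trans_eq (avg_const _)
  refine h1.trans ?_
  rw [avg_add, avg_add, avg_add, avg_const, avg_const, avg_mul_left]
  have hδ2 : 0 ≤ δ * 4 ^ (s + 2) := by positivity
  have hd2 := Pn.dis2 hlL d Z δ hδ hZ
  have hv := Pn.loss_low hB hpd0 hpd3 he he1 (by positivity) hδ2 (hD d) hd2 hℓ3
  have hm := Pn.loss_mean hB hpd0 hpd3 he he1 hδ2 hd2
  have hn0 : (0 : ℝ) ≤ n := Nat.cast_nonneg n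
  have e1 : Real.exp (4 * K - e / 12 * ℓ / 2) ≤ ε / 8 := by
    have h2 : (8 : ℝ) / ε ≤ e / 12 * ℓ / 2 - 4 * K := by
      have h3 : 8 / ε + 4 * |K| ≤ e / 12 * (C / 2 ^ s) / 2 := by
        have h4 : e / 12 * ((192 * 2 ^ s / (e * ε) + 96 * |K| * 2 ^ s / e) / 2 ^ s) / 2 =
            8 / ε + 4 * |K| := by
          field_simp
          ring
        rw [← h4]
        have h5 : (192 * 2 ^ s / (e * ε) + 96 * |K| * 2 ^ s / e) / 2 ^ s ≤ C / 2 ^ s :=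
          div_le_div_of_nonneg_right hC2 hT.le
        have h6 := mul_le_mul_of_nonneg_left h5 (show (0 : ℝ) ≤ e / 12 by positivity)
        linarith
      have h5 : e / 12 * (C / 2 ^ s) ≤ e / 12 * ℓ := mul_le_mul_of_nonneg_left hℓ1 (by positivity)
      have h6 := le_abs_self K
      linarith
    have h3 : (8 : ℝ) / ε ≤ Real.exp (e / 12 * ℓ / 2 - 4 * K) :=
      h2.trans ((Real.add_one_le_exp _).trans' (by linarith))
    rw [show 4 * K - e / 12 * ℓ / 2 = -(e / 12 * ℓ / 2 - 4 * K) by ring, Real.exp_neg]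
    rw [inv_le_comm₀ (Real.exp_pos _) (by positivity), inv_div]
    exact h3
  have e2 : 12 * (e ^ 2 * ε / 96) / e ^ 2 ≤ ε / 8 := le_of_eq (by field_simp; ring)
  have e3 : 100 / (e ^ 2 * ℓ) ≤ ε / 8 := by
    rw [div_le_iff₀ (by positivity)]
    have h3 : 800 * 2 ^ s ≤ C * (e ^ 2 * ε) := (div_le_iff₀ (by positivity)).1 hC1
    have h4 : C / 2 ^ s * (e ^ 2 * ε) ≤ ℓ * (e ^ 2 * ε) :=
      mul_le_mul_of_nonneg_right hℓ1 (by positivity)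
    have h5 : 800 ≤ C / 2 ^ s * (e ^ 2 * ε) := by
      rw [div_mul_eq_mul_div, le_div_iff₀ hT]
      exact h3
    nlinarith
  have e4 : 1 / Lm * (2 / e * ℓ) ≤ ε / 8 := by
    rw [one_div, inv_mul_eq_div, div_le_iff₀ hΛ, hΛdef]
    have h2 : ε / 8 * (32 * C / (e * ε) + 1) = 4 * C / e + ε / 8 := by
      field_simp
      ring
    have h3 : 2 / e * ℓ ≤ 4 * C / e := by
      rw [div_mul_eq_mul_div]
      exact div_le_div_of_nonneg_right (by linarith) he.le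
    rw [h2]
    linarith
  have e5 : 1 / Lm ≤ 1 := by
    rw [div_le_one hΛ]
    exact hΛ1
  have f2 : 1 / Lm * (avg fun ω₂ => Lo J f (wd (eta (Z ω₂) l) (hsh (Z ω₂)) d)) ≤
      ε / 8 + n * (δ * 4 ^ (s + 2)) := by
    refine (mul_le_mul_of_nonneg_left hm (by positivity)).trans ?_
    rw [mul_add]
    exact add_le_add e4 (mul_le_of_le_one_left (by positivity) e5)
  have f3 : 1000 * ((n : ℝ) + 1) ^ 3 * (δ * 4 ^ (s + 2)) + n * (δ * 4 ^ (s + 2)) ≤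
      δ * bd (1001 * 4 ^ (s + 2)) n N := by
    have g1 : (n : ℝ) ≤ ((n : ℝ) + 1) ^ 3 := by nlinarith [sq_nonneg (n : ℝ), pow_nonneg hn0 3]
    have g2 := Pn.c2_bd (c := 1001 * 4 ^ (s + 2)) (n := n) (N := N)
      (by have := Nat.one_le_pow (s + 2) 4 (by norm_num); omega) hN
    have g3 := mul_le_mul_of_nonneg_left g2 hδ
    refine le_trans ?_ g3
    push_cast
    have g4 : 0 ≤ δ * 4 ^ (s + 2) := hδ2
    nlinarith [mul_le_mul_of_nonneg_left g1 g4]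
  have f5 := mul_le_mul_of_nonneg_left (bd_add (K := 1001 * 4 ^ (s + 2)) (K' := 2 * K₃) hN n) hδ
  rw [mul_add] at f5
  linarith

end Pool.Agent.MP_ca1109_lc.Pnh
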