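import Pool.Agent.MP_ca1109_lc.Pnh.BR
import Pool.Agent.MP_ca1109_lc.Pnh.H0
import Pool.Agent.MP_ca1109_lc.Pnh.H1
import Pool.Agent.MP_ca1109_lc.Pnh.H2
import Pool.Agent.MP_ca1109_lc.Pn.LV
import Pool.Agent.MP_ca1109_lc.Pn.ZC

/-!
# The main assembly: the generator fools product tests with heavy blocks of any length
-/

namespace Pool.Agent.MP_ca1109_lc.Pnh

open Finset Pool.Agent.H66 Pool.Agent.MP_ca1109_lc.Mpg Pool.Agent.MP_ca1109_lc.Agp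
  Pool.Agent.MP_ca1109_lc.Xp Pool.Agent.MP_ca1109_lc.Pt
open Pool.Agent.MP_ca1109_lc.Dnf (Cube ch one On)
open Pool.Agent.MP_ca1109_lc.Pn (Bln Dist Dis2)

variable {n : ℕ}

theorem main_heavy (c : ℕ) (K : ℝ) {ε : ℝ} (hε : 0 < ε) : ∃ E G, NG E G ∧ ∃ n₀ : ℕ, ∀ n ≥ n₀,
    ∀ (Λ : Type) [Fintype Λ] (J : Finset (Fin n)) (I : Fin n → Finset (Fin n))
      (lam : Fin n → Cube n → Λ) (f : Fin n → Cube n → ℂ)
      (A : Fin n → Cube n → Prop) (Φ : Cube n → ℂ),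
      Lab (n ^ c) J I lam → Fl J lam f → El K J lam A → Dl J lam A Φ →
      ‖na (2 ^ E n) (fun p => Φ (out G n p) * ∏ j ∈ J, f j (out G n p)) -
        av (fun x => Φ x * ∏ j ∈ J, f j x)‖ ≤ ε := by
  classical
  obtain ⟨C₀, K₀, h0⟩ := Pnh.case0h (show 0 < ε ^ 2 / 8 by positivity)
  obtain ⟨s, C₁, ε₀, hε₀, h2'⟩ := Pnh.case2h K (show 0 < ε ^ 2 / 8 by positivity)
  obtain ⟨C, hC⟩ : ∃ C : ℝ, C = C₀ + C₁ + 2 := ⟨_, rfl⟩
  have hC₀0 : (0 : ℝ) ≤ C₀ := Nat.cast_nonneg _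
  have hC₁0 : (0 : ℝ) ≤ C₁ := Nat.cast_nonneg _
  obtain ⟨K₂, h2⟩ := h2' C (by linarith)
  obtain ⟨K₁, h1⟩ := Pnh.case1h (Lam := 2 * C) (K := K) (show 0 < ε / 4 by positivity)
  obtain ⟨K', hK'⟩ : ∃ K' : ℕ, K' = K₀ + K₁ + K₂ := ⟨_, rfl⟩
  obtain ⟨Kg, hK⟩ : ∃ Kg : ℕ, Kg = (c + 1) * K' + 1 := ⟨_, rfl⟩
  obtain ⟨E, G, hG, n₁, hgen⟩ := Pn.xgenN s Kg hε₀
  obtain ⟨n₀, hn₀⟩ := exists_nat_gt ((K' : ℝ) / (ε ^ 2 / 8) + (K' : ℝ) / (ε / 4))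
  refine ⟨E, G, hG, max n₀ n₁, fun n hn Λ _ J I lam f A Φ hL hF hEv hDp => ?_⟩
  have hf : Bln (n ^ c) J I f := br_bln hL hF
  have hnn : (n₀ : ℝ) ≤ n := by exact_mod_cast (le_max_left _ _).trans hn
  have hn0 : (0 : ℝ) ≤ n := Nat.cast_nonneg n
  have hK'0 : (0 : ℝ) ≤ K' := Nat.cast_nonneg _
  have g1 : (0 : ℝ) ≤ (K' : ℝ) / (ε ^ 2 / 8) := by positivity
  have g2 : (0 : ℝ) ≤ (K' : ℝ) / (ε / 4) := by positivity
  obtain ⟨δ, hδ⟩ : ∃ δ : ℝ, δ = 1 / ((n : ℝ) + 1) ^ Kg := ⟨_, rfl⟩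
  have hδ0 : 0 ≤ δ := by rw [hδ]; positivity
  have herr : ∀ K'' : ℕ, K'' ≤ K' → δ * bd K'' n (n ^ c) ≤ K' / ((n : ℝ) + 1) := by
    intro K'' h
    have e1 : (c + 1) * K'' + 1 ≤ Kg := by
      rw [hK]
      exact Nat.add_le_add_right (Nat.mul_le_mul_left _ h) 1
    rw [hδ]
    refine (pma_err n c K'' Kg e1).trans ?_
    refine div_le_div_of_nonneg_right ?_ (by linarith)
    exact_mod_cast h
  have hs1 : (K' : ℝ) / ((n : ℝ) + 1) ≤ ε ^ 2 / 8 := by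
    have e1 : (K' : ℝ) / (ε ^ 2 / 8) ≤ (n : ℝ) + 1 := by linarith
    rw [div_le_iff₀ (by positivity)] at e1
    rw [div_le_iff₀ (by linarith)]
    linarith
  have hs2 : (K' : ℝ) / ((n : ℝ) + 1) ≤ ε / 4 := by
    have e1 : (K' : ℝ) / (ε / 4) ≤ (n : ℝ) + 1 := by linarith
    rw [div_le_iff₀ (by positivity)] at e1
    rw [div_le_iff₀ (by linarith)]
    linarith
  have hsq : ∀ a : ℝ, 0 ≤ a → a ^ 2 ≤ ε ^ 2 / 8 + ε ^ 2 / 8 → a ≤ ε / 2 := by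
    intro a _ h
    exact le_of_not_gt fun hlt => by nlinarith
  obtain ⟨M₁, M₂, hM₁, hM₂, Y, Z, hY, hZ, hD, hout⟩ := hgen n ((le_max_right _ _).trans hn)
  have : Nonempty (Fin M₁) := ⟨⟨0, hM₁⟩⟩
  have : Nonempty (Fin M₂) := ⟨⟨0, hM₂⟩⟩
  rw [← hδ] at hY hZ
  have hU : Bias δ (fun x : Cube n => x) := Bias.mono Bias.unif hδ0
  have hout' : na (2 ^ E n) (fun p => Φ (out G n p) * ∏ j ∈ J, f j (out G n p)) =
      Ph Y (fun l : Fin (Nat.clog 2 n + 1) => fun ω₂ => eta (Z ω₂) (l : ℕ)) (fun ω₂ => hsh (Z ω₂))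
        (fun x => Φ x * ∏ j ∈ J, f j x) := by
    have h3 := hout (fun x => Φ x * ∏ j ∈ J, f j x)
    unfold Ph
    exact h3
  rw [hout']
  rcases le_or_gt C (Ls J f 0) with hA | hA
  · -- the second moments are small
    have hC₀C : (C₀ : ℝ) ≤ Ls J f 0 := by linarith
    have e1 : ∀ {Ω : Type} [Fintype Ω] [Nonempty Ω] (X : Ω → Cube n), Bias δ X →
        ‖av (fun ω => Φ (X ω) * ∏ j ∈ J, f j (X ω))‖ ≤ ε / 2 := by
      intro Ω _ _ X hX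
      refine hsq _ (norm_nonneg _) ?_
      have := h0 n (n ^ c) J I f Φ hf hDp.le hC₀C X δ hδ0 hX
      have := herr K₀ (by omega)
      linarith
    have e2 : ‖Ph Y (fun l : Fin (Nat.clog 2 n + 1) => fun ω₂ => eta (Z ω₂) (l : ℕ))
        (fun ω₂ => hsh (Z ω₂)) (fun x => Φ x * ∏ j ∈ J, f j x) - 0‖ ≤ ε / 2 := by
      refine ph_const Y _ _ fun t => ?_
      rw [sub_zero]
      exact e1 (fun ω => xo (Y ω) t) (hY.xo t)
    have e3 := e1 (fun x : Cube n => x) hU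
    rw [sub_zero] at e2
    exact (norm_sub_le _ _).trans (by linarith)
  rcases le_or_gt (Ls J f (1 / 2)) (2 * C) with hB | hB
  · -- bounded loss
    refine ph_const Y _ _ fun t => ?_
    have := h1 Λ n (n ^ c) J I lam f A Φ hL hF hEv hDp hB (fun ω => xo (Y ω) t) δ hδ0 (hY.xo t)
    have := herr K₁ (by omega)
    linarith
  · -- the main case
    obtain ⟨l, hl2, hl, hl3, hl4⟩ := Pn.Ls_level hf (by linarith : 2 ≤ C) hA.le hB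
    have hlt : l < Nat.clog 2 n + 1 := by omega
    have e1 : ∀ {Ω : Type} [Fintype Ω] [Nonempty Ω] (X : Ω → Cube n), Bias δ X →
        ‖Ph X (fun l : Fin (Nat.clog 2 n + 1) => fun ω₂ => eta (Z ω₂) (l : ℕ))
          (fun ω₂ => hsh (Z ω₂)) (fun x => Φ x * ∏ j ∈ J, f j x)‖ ≤ ε / 2 := by
      intro Ω _ _ X hX
      rw [ph_level X _ _ ⟨l, hlt⟩]
      refine pma_norm_av fun v => hsq _ (norm_nonneg _) ?_
      have := h2 Λ n (n ^ c) J I lam f A Φ hL hF hEv hDp (Nat.clog 2 n + 1) l (by omega) (by omega) hl3 hl4 X Z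
        (fun ω₂ => gx (fun _ => false) (fun l => eta (Z ω₂) (l : ℕ)) (hsh (Z ω₂))
          (Function.update v ⟨l, hlt⟩ fun _ => false)) δ hδ0 hX hZ (hD l (by omega))
      have := herr K₂ (by omega)
      linarith
    have e2 := e1 Y hY
    have e3 := e1 (fun x : Cube n => x) hU
    rw [ph_unif] at e3
    exact (norm_sub_le _ _).trans (by linarith)

end Pool.Agent.MP_ca1109_lc.Pnh
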