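import Pool.Agent.MP_ca1109_lc.Pnh.BR
import Pool.Agent.MP_ca1109_lc.Ph.SH
import Pool.Agent.MP_ca1109_lc.Pn.SB

/-!
# Row SH: small bias fools heavy product tests of bounded loss
-/

namespace Pool.Agent.MP_ca1109_lc.Pnh

open Finset Pool.Agent.H66 Pool.Agent.MP_ca1109_lc.Mpg Pool.Agent.MP_ca1109_lc.Agp
  Pool.Agent.MP_ca1109_lc.Xp Pool.Agent.MP_ca1109_lc.Pt
open Pool.Agent.MP_ca1109_lc.Dnf (Cube ch one On)
open Pool.Agent.MP_ca1109_lc.Pn (Bln)
open Pool.Agent.MP_ca1109_lc.Ph (pick lt mass_nonneg one_cast_norm ac' ar)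

variable {n : ℕ} {Λ : Type} [Fintype Λ] {N : ℕ} {K : ℝ} {J : Finset (Fin n)}
  {I : Fin n → Finset (Fin n)} {lam : Fin n → Cube n → Λ} {f : Fin n → Cube n → ℂ}
  {A : Fin n → Cube n → Prop} {Φ : Cube n → ℂ}

omit [Fintype Λ] in
/-- The value of `Φ` if the heavy blocks are exactly those in `T`. -/
noncomputable def phl (J : Finset (Fin n)) (lam : Fin n → Cube n → Λ) (A : Fin n → Cube n → Prop)
    (Φ : Cube n → ℂ) (T : Finset (Fin n)) (x : Cube n) : ℂ :=
  pick Φ fun z => (∀ j ∈ J, (A j z ↔ j ∈ T)) ∧ ∀ j ∈ T, lam j z = lam j x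

/-- The heavy factor. -/
noncomputable def hFl (J : Finset (Fin n)) (lam : Fin n → Cube n → Λ) (A : Fin n → Cube n → Prop)
    (Φ : Cube n → ℂ) (f : Fin n → Cube n → ℂ) (T : Finset (Fin n)) (x : Cube n) : ℂ :=
  phl J lam A Φ T x * ∏ j ∈ T, (f j x * ((one (A j x) : ℝ) : ℂ))

omit [Fintype Λ] in
theorem phl_ol (T : Finset (Fin n)) {x y : Cube n} (h : ∀ j ∈ T, lam j x = lam j y) :
    phl J lam A Φ T x = phl J lam A Φ T y := by
  unfold phl
  congr 1
  funext z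
  refine propext (and_congr Iff.rfl ?_)
  constructor
  · intro h1 j hj
    rw [h1 j hj, h j hj]
  · intro h1 j hj
    rw [h1 j hj, h j hj]

omit [Fintype Λ] in
theorem phl_le (hd : Dl J lam A Φ) (T : Finset (Fin n)) (x : Cube n) :
    ‖phl J lam A Φ T x‖ ≤ 1 := by
  unfold phl pick
  split_ifs
  · exact hd.le _
  · simp

omit [Fintype Λ] in
theorem phl_eq (hd : Dl J lam A Φ) {T : Finset (Fin n)} {x : Cube n}
    (hx : ∀ j ∈ J, (A j x ↔ j ∈ T)) : phl J lam A Φ T x = Φ x := by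
  unfold phl pick
  have hex : ∃ z : Cube n, (∀ j ∈ J, (A j z ↔ j ∈ T)) ∧ ∀ j ∈ T, lam j z = lam j x :=
    ⟨x, hx, fun _ _ => rfl⟩
  rw [dif_pos hex]
  obtain ⟨h1, h2⟩ := hex.choose_spec
  refine hd.dep _ _ fun j hj h3 => ?_
  rcases h3 with h3 | h3
  · exact h2 j ((h1 j hj).1 h3)
  · exact h2 j ((hx j hj).1 h3)

omit [Fintype Λ] in
/-- Only the term of the heavy set of `x` is not zero. -/
theorem sh_zero (x : Cube n) {T : Finset (Fin n)} (_hT : T ⊆ J)
    (hne : ¬ ∀ j ∈ J, (A j x ↔ j ∈ T)) :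
    hFl J lam A Φ f T x * ∏ j ∈ J \ T, lt A f j x = 0 := by
  by_cases h : ∃ j ∈ T, ¬ A j x
  · obtain ⟨j, hj, hA⟩ := h
    unfold hFl
    rw [prod_eq_zero hj (by rw [Dnf.one_false hA]; simp)]
    ring
  · push Not at h
    have h1 : ∃ j ∈ J, j ∉ T ∧ A j x := by
      by_contra hcon
      push Not at hcon
      apply hne
      intro j hj
      constructor
      · intro hA
        by_contra hjT
        exact hcon j hj hjT hA
      · exact fun hjT => h j hjT
    obtain ⟨j, hj, hjT, hA⟩ := h1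
    have h2 : ∏ j ∈ J \ T, lt A f j x = 0 :=
      prod_eq_zero (mem_sdiff.2 ⟨hj, hjT⟩) (by
        unfold lt
        rw [Dnf.one_false (not_not.2 hA)]
        simp)
    rw [h2, mul_zero]

omit [Fintype Λ] in
/-- The expansion over the heavy blocks. -/
theorem expl (hd : Dl J lam A Φ) (f : Fin n → Cube n → ℂ) (x : Cube n) :
    Φ x * ∏ j ∈ J, f j x = ∑ T ∈ J.powerset, hFl J lam A Φ f T x * ∏ j ∈ J \ T, lt A f j x := by
  classical
  set T₀ := J.filter fun j => A j x with hT₀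
  have hmem : ∀ j ∈ J, (A j x ↔ j ∈ T₀) := fun j hj => by simp [hT₀, hj]
  rw [sum_eq_single_of_mem T₀ (mem_powerset.2 (filter_subset _ _))]
  · have h1 : phl J lam A Φ T₀ x = Φ x := phl_eq hd hmem
    have h2 : ∏ j ∈ T₀, (f j x * ((one (A j x) : ℝ) : ℂ)) = ∏ j ∈ T₀, f j x := by
      refine prod_congr rfl fun j hj => ?_
      rw [Dnf.one_true (mem_filter.1 hj).2]
      simp
    have h3 : ∏ j ∈ J \ T₀, lt A f j x = ∏ j ∈ J \ T₀, f j x := by
      refine prod_congr rfl fun j hj => ?_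
      rw [mem_sdiff] at hj
      have h4 : ¬ A j x := fun h => hj.2 (mem_filter.2 ⟨hj.1, h⟩)
      unfold lt
      rw [Dnf.one_true h4]
      simp
    unfold hFl
    rw [h1, h2, h3, mul_assoc, mul_comm (∏ j ∈ T₀, f j x),
      prod_sdiff (filter_subset _ _)]
  · intro T hT hne
    refine sh_zero x (mem_powerset.1 hT) fun h => hne ?_
    ext j
    constructor
    · intro hj
      exact (hmem j (mem_powerset.1 hT hj)).1 ((h j (mem_powerset.1 hT hj)).2 hj)
    · intro hj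
      have hjJ := (mem_filter.1 hj).1
      exact (h j hjJ).1 ((hmem j hjJ).2 hj)

omit [Fintype Λ] in
theorem hFl_norm (hf : Fl J lam f) (hd : Dl J lam A Φ) {T : Finset (Fin n)} (hT : T ⊆ J)
    (x : Cube n) : ‖hFl J lam A Φ f T x‖ ≤ ∏ j ∈ T, one (A j x) := by
  unfold hFl
  rw [norm_mul, norm_prod]
  have h1 : ∏ j ∈ T, ‖f j x * ((one (A j x) : ℝ) : ℂ)‖ ≤ ∏ j ∈ T, one (A j x) := by
    refine prod_le_prod (fun _ _ => norm_nonneg _) fun j hj => ?_
    rw [norm_mul, one_cast_norm]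
    exact mul_le_of_le_one_left (Dnf.one_nonneg _) ((hf j (hT hj)).2 x)
  calc ‖phl J lam A Φ T x‖ * ∏ j ∈ T, ‖f j x * ((one (A j x) : ℝ) : ℂ)‖
      ≤ 1 * ∏ j ∈ T, one (A j x) :=
        mul_le_mul (phl_le hd T x) h1 (prod_nonneg fun _ _ => norm_nonneg _) zero_le_one
    _ = _ := one_mul _

omit [Fintype Λ] in
theorem hFl_ol (hf : Fl J lam f) (hA : El K J lam A) {T : Finset (Fin n)} (hT : T ⊆ J)
    (x y : Cube n) (h : ∀ j ∈ T, lam j x = lam j y) :
    hFl J lam A Φ f T x = hFl J lam A Φ f T y := by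
  unfold hFl
  rw [phl_ol T h]
  congr 1
  refine prod_congr rfl fun j hj => ?_
  rw [(hf j (hT hj)).1 x y (h j hj), hA.on j (hT hj) x y (h j hj)]

omit [Fintype Λ] in
theorem lt_ol (hf : Fl J lam f) (hA : El K J lam A) {j : Fin n} (hj : j ∈ J) :
    Ol (lam j) (lt A f j) := fun x y h => by
  unfold lt
  rw [(hf j hj).1 x y h, hA.on j hj x y h]

theorem prod_one_le (x : Cube n) (T : Finset (Fin n)) : ∏ j ∈ T, one (A j x) ≤ 1 :=
  prod_le_one (fun _ _ => Dnf.one_nonneg _) fun _ _ => Dnf.one_le _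

omit [Fintype Λ] in
/-- The terms with more than `s` heavy blocks. -/
theorem shl_tail (hf : Fl J lam f) (hlt : ∀ j ∈ J, ∀ x, ‖lt A f j x‖ ≤ 1) (hd : Dl J lam A Φ)
    (s : ℕ) (x : Cube n) :
    ∑ T ∈ J.powerset.filter (fun T => ¬ T.card ≤ s),
      ‖hFl J lam A Φ f T x * ∏ j ∈ J \ T, lt A f j x‖ ≤
      ∑ T ∈ J.powersetCard (s + 1), ∏ j ∈ T, one (A j x) := by
  classical
  set T₀ := J.filter fun j => A j x with hT₀
  have hmem : ∀ j ∈ J, (A j x ↔ j ∈ T₀) := fun j hj => by simp [hT₀, hj]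
  have h0 : ∀ T ∈ J.powerset, T ≠ T₀ → hFl J lam A Φ f T x * ∏ j ∈ J \ T, lt A f j x = 0 := by
    intro T hT hne
    refine sh_zero x (mem_powerset.1 hT) fun h => hne ?_
    ext j
    constructor
    · intro hj
      exact (hmem j (mem_powerset.1 hT hj)).1 ((h j (mem_powerset.1 hT hj)).2 hj)
    · intro hj
      have hjJ := (mem_filter.1 hj).1
      exact (h j hjJ).1 ((hmem j hjJ).2 hj)
  have hnn : ∀ T ∈ J.powersetCard (s + 1), 0 ≤ ∏ j ∈ T, one (A j x) :=
    fun T _ => Ph.prod_one_nonneg x T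
  by_cases hc : T₀.card ≤ s
  · refine le_trans (le_of_eq ?_) (sum_nonneg hnn)
    refine sum_eq_zero fun T hT => ?_
    rw [mem_filter] at hT
    rw [h0 T hT.1 (fun e => hT.2 (e ▸ hc)), norm_zero]
  · have h1 : ∑ T ∈ J.powerset.filter (fun T => ¬ T.card ≤ s),
        ‖hFl J lam A Φ f T x * ∏ j ∈ J \ T, lt A f j x‖ ≤ 1 := by
      rw [sum_eq_single_of_mem T₀ (mem_filter.2 ⟨mem_powerset.2 (filter_subset _ _), hc⟩)
        fun T hT hne => by rw [h0 T (mem_filter.1 hT).1 hne, norm_zero]]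
      rw [norm_mul, norm_prod]
      have h2 : ‖hFl J lam A Φ f T₀ x‖ ≤ 1 :=
        (hFl_norm hf hd (filter_subset _ _) x).trans (prod_one_le x _)
      have h3 : ∏ j ∈ J \ T₀, ‖lt A f j x‖ ≤ 1 :=
        prod_le_one (fun _ _ => norm_nonneg _) fun j hj => hlt j (mem_sdiff.1 hj).1 x
      exact mul_le_one₀ h2 (prod_nonneg fun _ _ => norm_nonneg _) h3
    refine h1.trans ?_
    obtain ⟨T₁, hT₁, hc₁⟩ := exists_subset_card_eq (show s + 1 ≤ T₀.card by omega)
    have h2 : ∏ j ∈ T₁, one (A j x) = 1 :=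
      Ph.one_of_heavy x fun j hj => (mem_filter.1 (hT₁ hj)).2
    have h3 : T₁ ∈ J.powersetCard (s + 1) :=
      mem_powersetCard.2 ⟨hT₁.trans (filter_subset _ _), hc₁⟩
    exact h2 ▸ single_le_sum hnn h3

theorem sbh {Lam K ε : ℝ} (hε : 0 < ε) : ∃ C : ℕ, ∀ (Λ : Type) [Fintype Λ] (n N : ℕ)
    (J : Finset (Fin n)) (I : Fin n → Finset (Fin n)) (lam : Fin n → Cube n → Λ)
    (g : Fin n → Cube n → ℂ) (A : Fin n → Cube n → Prop) (Φ : Cube n → ℂ), Lab N J I lam →
    Fl J lam g → El K J lam A → Dl J lam A Φ →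
    ∑ j ∈ J, (1 - ‖av (g j)‖) ≤ Lam → ∃ (t : Cube n → ℂ) (R : Cube n → ℝ),
      (∀ x, ‖Φ x * ∏ j ∈ J, g j x - t x‖ ≤ R x) ∧ avg R ≤ ε ∧ Sp (bd C n N) t ∧
      Sp (bd C n N) (fun x => ((R x : ℝ) : ℂ)) := by
  classical
  -- the number of heavy blocks
  obtain ⟨s, hs1⟩ : ∃ s : ℕ, (1 / 2 : ℝ) ^ (s + 1) * Real.exp (2 * K) ≤ ε / 2 := by
    obtain ⟨s, h1⟩ := exists_pow_lt_of_lt_one (show 0 < ε / 2 / Real.exp (2 * K) by positivity)
      (show (1 / 2 : ℝ) < 1 by norm_num)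
    refine ⟨s, ?_⟩
    have h2 : (1 / 2 : ℝ) ^ (s + 1) ≤ (1 / 2) ^ s :=
      pow_le_pow_of_le_one (by norm_num) (by norm_num) (Nat.le_succ s)
    have h3 : (1 / 2 : ℝ) ^ (s + 1) ≤ ε / 2 / Real.exp (2 * K) := by linarith
    rwa [le_div_iff₀ (Real.exp_pos _)] at h3
  obtain ⟨C₀, hC₀⟩ := Pn.sb (Lam := Lam + K) (ε := ε / 2 / Real.exp K) (by positivity)
  refine ⟨(s + 1) * C₀ + (s + 1) + C₀ + (s + 2) + ((s + 1) * C₀ + (s + 1) + C₀),
    fun Λ _ n N J I lam g A Φ hB hg hA hΦ hL => ?_⟩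
  have hBl := br_bln hB hg
  have hK := br_blk hBl
  have hE := br_ev hB hA
  have hlt : ∀ j ∈ J, ∀ x, ‖lt A g j x‖ ≤ 1 := Ph.lt_le hK
  -- small bias for the light blocks
  have hT : ∀ T : Finset (Fin n), T ⊆ J → ∃ (t : Cube n → ℂ) (R : Cube n → ℝ),
      (∀ x, ‖∏ j ∈ J \ T, lt A g j x - t x‖ ≤ R x) ∧ avg R ≤ ε / 2 / Real.exp K ∧
      Sp (bd C₀ n N) t ∧ Sp (bd C₀ n N) (fun x => ((R x : ℝ) : ℂ)) ∧
      On (T.biUnion I)ᶜ R := by
    intro T hTJ
    have hb : Bln N (J \ T) I (lt A g) :=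
      { pos := hB.pos
        dj := fun i hi j hj hij => hB.dj i (mem_sdiff.1 hi).1 j (mem_sdiff.1 hj).1 hij
        on := fun j hj => Ph.lt_on hK hE j (mem_sdiff.1 hj).1
        le := fun j hj => hlt j (mem_sdiff.1 hj).1
        sp := fun j hj => by
          have hj' := (mem_sdiff.1 hj).1
          have h1 := br_sp hB (T := {j}) (singleton_subset_iff.2 hj') (F := lt A g j)
            (fun x y hxy => lt_ol hg hA hj' x y (hxy j (mem_singleton_self j))) (hlt j hj')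
          rwa [card_singleton, pow_one] at h1 }
    have h1 : ∑ j ∈ J \ T, (1 - ‖av (lt A g j)‖) ≤ Lam + K := by
      calc ∑ j ∈ J \ T, (1 - ‖av (lt A g j)‖)
          ≤ ∑ j ∈ J \ T, ((1 - ‖av (g j)‖) + avg fun x => one (A j x)) := by
            refine sum_le_sum fun j hj => ?_
            have := (Ph.lt_av (A := A) hK (mem_sdiff.1 hj).1).2
            linarith
        _ ≤ ∑ j ∈ J, ((1 - ‖av (g j)‖) + avg fun x => one (A j x)) := by
            refine sum_le_sum_of_subset_of_nonneg sdiff_subset fun j hj _ => ?_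
            have h2 : ‖av (g j)‖ ≤ 1 :=
              (norm_av_le _).trans ((avg_mono fun x => (hg j hj).2 x).trans
                (le_of_eq (avg_const 1)))
            have h3 := mass_nonneg (A j)
            linarith
        _ ≤ Lam + K := by
            rw [sum_add_distrib]
            exact add_le_add hL hA.mass
    obtain ⟨t, R, h2, h3, h4, h5⟩ := hC₀ n N (J \ T) I (lt A g) hb h1
    exact ⟨ac' (T.biUnion I) t, ar (T.biUnion I) R, Ph.ac_close (Ph.light_on hK hE hTJ) h2,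
      (Ph.avg_ar _ _).trans_le h3, Ph.sp_ac _ h4, Ph.sp_ar _ h5, Ph.ar_on _ _⟩
  choose! t R ht using hT
  have hpos : ∀ T ∈ Ph.hs J s, T ⊆ J := fun T hT => mem_powerset.1 (mem_filter.1 hT).1
  have hcard : ∀ T ∈ Ph.hs J s, T.card ≤ s := fun T hT => (mem_filter.1 hT).2
  have hsc : ((Ph.hs J s).card : ℝ) ≤ ((n : ℝ) + 1) ^ s := by
    have h1 := sn_card J s
    have h2 : J.card ≤ n := by simpa using card_le_univ J
    have h3 : (Ph.hs J s).card ≤ (n + 1) ^ s :=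
      h1.trans (Nat.pow_le_pow_left (by omega) s)
    exact_mod_cast h3
  have hN1 : (1 : ℝ) ≤ N := by exact_mod_cast hB.pos
  have hn1 : (1 : ℝ) ≤ (n : ℝ) + 1 := by linarith [Nat.cast_nonneg (α := ℝ) n]
  have hnN : (1 : ℝ) ≤ ((n : ℝ) + 1) * N := by nlinarith
  have hpb : ∀ k : ℕ, (((n : ℝ) + 1) * N) ^ k ≤ bd (k + 1) n N := by
    intro k
    unfold bd
    have h1 : (((n : ℝ) + 1) * N) ^ k ≤ (((n : ℝ) + 1) * N) ^ (k + 1) :=
      pow_le_pow_right₀ hnN (Nat.le_succ k)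
    have h2 : (1 : ℝ) ≤ ((k + 1 : ℕ) : ℝ) := by
      push_cast
      linarith [Nat.cast_nonneg (α := ℝ) k]
    have h3 : (0 : ℝ) ≤ (((n : ℝ) + 1) * N) ^ (k + 1) := by positivity
    nlinarith
  have hbd0 := bd_nonneg C₀ n N
  have hmain : ((n : ℝ) + 1) ^ s * ((N : ℝ) ^ s * bd C₀ n N) ≤
      bd ((s + 1) * C₀ + (s + 1) + C₀) n N := by
    calc ((n : ℝ) + 1) ^ s * ((N : ℝ) ^ s * bd C₀ n N)
        = (((n : ℝ) + 1) * N) ^ s * bd C₀ n N := by rw [mul_pow]; ring
      _ ≤ bd (s + 1) n N * bd C₀ n N := mul_le_mul_of_nonneg_right (hpb s) hbd0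
      _ ≤ _ := bd_mul hB.pos n
  -- the heavy indicators
  have hsp1 : ∀ T : Finset (Fin n), T ⊆ J → Sp ((N : ℝ) ^ T.card)
      (fun x => ((∏ j ∈ T, one (A j x) : ℝ) : ℂ)) := by
    intro T hTJ
    refine br_sp hB hTJ (fun x y hxy => ?_) fun x => ?_
    · have h1 : ∏ j ∈ T, one (A j x) = ∏ j ∈ T, one (A j y) :=
        prod_congr rfl fun j hj => by rw [hA.on j (hTJ hj) x y (hxy j hj)]
      rw [h1]
    · rw [Complex.norm_real, Real.norm_eq_abs, abs_of_nonneg (Ph.prod_one_nonneg x T)]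
      exact prod_one_le x T
  refine ⟨fun x => ∑ T ∈ Ph.hs J s, hFl J lam A Φ g T x * t T x,
    fun x => (∑ T ∈ Ph.hs J s, (∏ j ∈ T, one (A j x)) * R T x) +
      ∑ T ∈ J.powersetCard (s + 1), ∏ j ∈ T, one (A j x), ?_, ?_, ?_, ?_⟩
  · -- the pointwise bound
    intro x
    rw [expl hΦ g x, ← sum_filter_add_sum_filter_not J.powerset (fun T => T.card ≤ s)]
    have h1 : (∑ T ∈ J.powerset.filter (fun T => T.card ≤ s),
        hFl J lam A Φ g T x * ∏ j ∈ J \ T, lt A g j x) +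
        (∑ T ∈ J.powerset.filter (fun T => ¬ T.card ≤ s),
          hFl J lam A Φ g T x * ∏ j ∈ J \ T, lt A g j x) -
        ∑ T ∈ Ph.hs J s, hFl J lam A Φ g T x * t T x =
        (∑ T ∈ Ph.hs J s, hFl J lam A Φ g T x * (∏ j ∈ J \ T, lt A g j x - t T x)) +
        ∑ T ∈ J.powerset.filter (fun T => ¬ T.card ≤ s),
          hFl J lam A Φ g T x * ∏ j ∈ J \ T, lt A g j x := by
      simp only [mul_sub, sum_sub_distrib]
      unfold Ph.hs
      ring
    rw [h1]
    refine (norm_add_le _ _).trans (add_le_add ?_ ?_)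
    · refine (norm_sum_le _ _).trans (sum_le_sum fun T hT => ?_)
      rw [norm_mul]
      exact mul_le_mul (hFl_norm hg hΦ (hpos T hT) x) ((ht T (hpos T hT)).1 x) (norm_nonneg _)
        (Ph.prod_one_nonneg x T)
    · exact (norm_sum_le _ _).trans (shl_tail hg hlt hΦ s x)
  · -- the average
    rw [avg_add]
    have h1 : (avg fun x => ∑ T ∈ Ph.hs J s, (∏ j ∈ T, one (A j x)) * R T x) ≤ ε / 2 := by
      rw [avg_sum]
      have h2 : ∀ T ∈ Ph.hs J s, (avg fun x => (∏ j ∈ T, one (A j x)) * R T x) ≤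
          (∏ j ∈ T, avg fun x => one (A j x)) * (ε / 2 / Real.exp K) := by
        intro T hT
        obtain ⟨-, h4, -, -, h7⟩ := ht T (hpos T hT)
        rw [Ph.real_indep (Ph.on_heavy hE (hpos T hT)) h7, Ph.avg_prod_one hK hE (hpos T hT)]
        exact mul_le_mul_of_nonneg_left h4 (prod_nonneg fun _ _ => mass_nonneg _)
      refine (sum_le_sum h2).trans ?_
      rw [← sum_mul]
      have h3 : ∑ T ∈ Ph.hs J s, ∏ j ∈ T, (avg fun x => one (A j x)) ≤ Real.exp K := by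
        refine le_trans (sum_le_sum_of_subset_of_nonneg (filter_subset _ _) fun T _ _ =>
          prod_nonneg fun _ _ => mass_nonneg _) (Ph.sh_count hE)
      calc (∑ T ∈ Ph.hs J s, ∏ j ∈ T, (avg fun x => one (A j x))) * (ε / 2 / Real.exp K)
          ≤ Real.exp K * (ε / 2 / Real.exp K) := mul_le_mul_of_nonneg_right h3 (by positivity)
        _ = ε / 2 := by
            field_simp
    have h2 : (avg fun x => ∑ T ∈ J.powersetCard (s + 1), ∏ j ∈ T, one (A j x)) ≤ ε / 2 := by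
      rw [avg_sum]
      refine le_trans (le_of_eq (sum_congr rfl fun T hT => ?_)) ((Ph.sh_count2 hE s).trans hs1)
      exact Ph.avg_prod_one hK hE (mem_powersetCard.1 hT).1
    linarith
  · -- the norm of `t`
    have h1 := Sp.sum (Ph.hs J s) (fun _ => (N : ℝ) ^ s * bd C₀ n N)
      (fun T x => hFl J lam A Φ g T x * t T x) fun T hT => by
        have h2 : Sp ((N : ℝ) ^ s) (hFl J lam A Φ g T) := by
          refine (br_sp hB (hpos T hT) (fun x y hxy => hFl_ol hg hA (hpos T hT) x y hxy)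
            fun x => ?_).mono (pow_le_pow_right₀ hN1 (hcard T hT))
          exact (hFl_norm hg hΦ (hpos T hT) x).trans (prod_one_le x T)
        exact h2.mul (ht T (hpos T hT)).2.2.1
    refine h1.mono ?_
    rw [sum_const, nsmul_eq_mul]
    have h2 : ((Ph.hs J s).card : ℝ) * ((N : ℝ) ^ s * bd C₀ n N) ≤
        ((n : ℝ) + 1) ^ s * ((N : ℝ) ^ s * bd C₀ n N) :=
      mul_le_mul_of_nonneg_right hsc (mul_nonneg (by positivity) hbd0)
    exact (h2.trans hmain).trans (bd_mono (by omega) hB.pos n)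
  · -- the norm of `R`
    have h1 := Sp.sum (Ph.hs J s) (fun _ => (N : ℝ) ^ s * bd C₀ n N)
      (fun T x => ((∏ j ∈ T, one (A j x) : ℝ) : ℂ) * ((R T x : ℝ) : ℂ)) fun T hT => by
        have h2 : Sp ((N : ℝ) ^ s) (fun x => ((∏ j ∈ T, one (A j x) : ℝ) : ℂ)) :=
          (hsp1 T (hpos T hT)).mono (pow_le_pow_right₀ hN1 (hcard T hT))
        exact h2.mul (ht T (hpos T hT)).2.2.2.1
    have h2 := Sp.sum (J.powersetCard (s + 1)) (fun _ => (N : ℝ) ^ (s + 1))
      (fun T x => ((∏ j ∈ T, one (A j x) : ℝ) : ℂ)) fun T hT => by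
        have h3 := hsp1 T (mem_powersetCard.1 hT).1
        rwa [(mem_powersetCard.1 hT).2] at h3
    refine ((h1.add h2).mono ?_).congr' fun x => ?_
    · rw [sum_const, sum_const, nsmul_eq_mul, nsmul_eq_mul]
      have h3 : ((Ph.hs J s).card : ℝ) * ((N : ℝ) ^ s * bd C₀ n N) ≤
          bd ((s + 1) * C₀ + (s + 1) + C₀) n N :=
        (mul_le_mul_of_nonneg_right hsc (mul_nonneg (by positivity) hbd0)).trans hmain
      have h4 : ((J.powersetCard (s + 1)).card : ℝ) * (N : ℝ) ^ (s + 1) ≤ bd (s + 2) n N := by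
        have h5 : ((J.powersetCard (s + 1)).card : ℝ) ≤ ((n : ℝ) + 1) ^ (s + 1) := by
          have h6 : J.powersetCard (s + 1) ⊆ J.powerset.filter fun T => T.card ≤ s + 1 := by
            intro T hT
            rw [mem_powersetCard] at hT
            exact mem_filter.2 ⟨mem_powerset.2 hT.1, hT.2.le⟩
          have h7 : J.card ≤ n := by simpa using card_le_univ J
          have h8 : (J.powersetCard (s + 1)).card ≤ (n + 1) ^ (s + 1) :=
            (card_le_card h6).trans ((sn_card J (s + 1)).trans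
              (Nat.pow_le_pow_left (by omega) (s + 1)))
          exact_mod_cast h8
        calc ((J.powersetCard (s + 1)).card : ℝ) * (N : ℝ) ^ (s + 1)
            ≤ ((n : ℝ) + 1) ^ (s + 1) * (N : ℝ) ^ (s + 1) :=
              mul_le_mul_of_nonneg_right h5 (by positivity)
          _ = (((n : ℝ) + 1) * N) ^ (s + 1) := (mul_pow _ _ _).symm
          _ ≤ bd (s + 2) n N := hpb (s + 1)
      exact (add_le_add h3 h4).trans ((bd_add hB.pos n).trans (bd_mono (by omega) hB.pos n))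
    · push_cast
      rfl

end Pool.Agent.MP_ca1109_lc.Pnh
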