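import Pool.Agent.MP_ca1109_lc.Pnh.Test

/-!
# Parity decision trees: the level sets of the value have small total Walsh norm
-/

namespace Pool.Agent.MP_ca1109_lc.Pnh

open Finset

variable {n : ℕ} {α : Type}

/-- Decision trees whose queries are parities of sets of bits; `α` is the set of values. -/
inductive PDT (n : ℕ) (α : Type) : Type
  | leaf (a : α) : PDT n α
  | node (S : Finset (Fin n)) (t u : PDT n α) : PDT n α

/-- The value of the tree: at a node one goes to `u` if the number of ones in `S` is odd, and to `t`
if it is even. -/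
def PDT.eval : PDT n α → (Fin n → Bool) → α
  | .leaf a, _ => a
  | .node S t u, x => if (S.filter fun i => x i = true).card % 2 = 1 then u.eval x else t.eval x

/-- The number of leaves. -/
def PDT.leaves : PDT n α → ℕ
  | .leaf _ => 1
  | .node _ t u => t.leaves + u.leaves

/-- All bits queried are in `I`. -/
def PDT.In (I : Finset (Fin n)) : PDT n α → Prop
  | .leaf _ => True
  | .node S t u => S ⊆ I ∧ t.In I ∧ u.In I

/-- The Walsh functions. -/
def trc (S : Finset (Fin n)) (x : Fin n → Bool) : ℤ := ∏ i ∈ S, (if x i = true then (-1 : ℤ) else 1)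

/-- The Walsh norm, times `2 ^ n`. -/
def trw (F : (Fin n → Bool) → ℤ) : ℤ := ∑ S : Finset (Fin n), |∑ x, F x * trc S x|

theorem trc_sq (S : Finset (Fin n)) (x : Fin n → Bool) : trc S x * trc S x = 1 := by
  unfold trc
  rw [← Finset.prod_mul_distrib]
  refine Finset.prod_eq_one fun i _ => ?_
  split <;> norm_num

theorem trc_mul (S T : Finset (Fin n)) (x : Fin n → Bool) :
    trc T x * trc S x = trc (symmDiff T S) x := by
  classical
  have h1 : ∀ U : Finset (Fin n), trc U x = ∏ i, if i ∈ U then (if x i = true then (-1 : ℤ) else 1)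
      else 1 := by
    intro U
    unfold trc
    rw [Finset.prod_ite_mem, Finset.univ_inter]
  rw [h1, h1, h1, ← Finset.prod_mul_distrib]
  refine Finset.prod_congr rfl fun i _ => ?_
  by_cases hT : i ∈ T <;> by_cases hS : i ∈ S <;> by_cases hx : x i = true <;>
    simp [Finset.mem_symmDiff, hT, hS, hx]

theorem trc_odd (S : Finset (Fin n)) (x : Fin n → Bool) :
    trc S x = if (S.filter fun i => x i = true).card % 2 = 1 then -1 else 1 := by
  unfold trc
  rw [Finset.prod_ite, Finset.prod_const_one, mul_one, Finset.prod_const]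
  split
  · next h => exact Odd.neg_one_pow (Nat.odd_iff.mpr h)
  · next h => exact Even.neg_one_pow (Nat.even_iff.mpr (by omega))

theorem trw_nonneg (F : (Fin n → Bool) → ℤ) : 0 ≤ trw F := sum_nonneg fun _ _ => abs_nonneg _

theorem trw_zero : trw (fun _ : Fin n → Bool => 0) = 0 := by
  unfold trw
  simp

theorem trw_add (F G : (Fin n → Bool) → ℤ) : trw (fun x => F x + G x) ≤ trw F + trw G := by
  unfold trw
  rw [← sum_add_distrib]
  refine sum_le_sum fun S _ => ?_
  have : ∑ x, (F x + G x) * trc S x = (∑ x, F x * trc S x) + ∑ x, G x * trc S x := by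
    rw [← sum_add_distrib]
    exact sum_congr rfl fun x _ => by ring
  rw [this]
  exact abs_add_le _ _

theorem trw_ch (T : Finset (Fin n)) (F : (Fin n → Bool) → ℤ) :
    trw (fun x => trc T x * F x) = trw F := by
  classical
  unfold trw
  have h1 : ∀ S : Finset (Fin n), |∑ x, trc T x * F x * trc S x| =
      |∑ x, F x * trc (symmDiff T S) x| := by
    intro S
    congr 1
    refine sum_congr rfl fun x _ => ?_
    rw [← trc_mul]
    ring
  simp only [h1]
  exact Equiv.sum_comp (Equiv.mk (fun S : Finset (Fin n) => symmDiff T S)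
    (fun S => symmDiff T S) (fun S => by simp) (fun S => by simp))
    (fun S => |∑ x, F x * trc S x|)

theorem trw_two (F : (Fin n → Bool) → ℤ) : trw (fun x => 2 * F x) = 2 * trw F := by
  unfold trw
  rw [mul_sum]
  refine sum_congr rfl fun S _ => ?_
  have : ∑ x, 2 * F x * trc S x = 2 * ∑ x, F x * trc S x := by
    rw [mul_sum]
    exact sum_congr rfl fun x _ => by ring
  rw [this, abs_mul]
  norm_num

theorem trw_neg (F : (Fin n → Bool) → ℤ) : trw (fun x => -F x) = trw F := by
  unfold trw
  refine sum_congr rfl fun S _ => ?_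
  have : ∑ x, -F x * trc S x = -∑ x, F x * trc S x := by
    rw [← sum_neg_distrib]
    exact sum_congr rfl fun x _ => by ring
  rw [this, abs_neg]

open Classical in
/-- The indicator of a level set. -/
noncomputable def tri (f : (Fin n → Bool) → α) (v : α) (x : Fin n → Bool) : ℤ :=
  if f x = v then 1 else 0

theorem trw_node (S : Finset (Fin n)) (t u : PDT n α) (v : α) :
    trw (tri (PDT.node S t u).eval v) ≤ trw (tri t.eval v) + trw (tri u.eval v) := by
  have h1 : (fun x => 2 * tri (PDT.node S t u).eval v x) = fun x =>
      (tri t.eval v x + trc S x * tri t.eval v x) +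
        (tri u.eval v x + -(trc S x * tri u.eval v x)) := by
    funext x
    rw [trc_odd]
    by_cases h : (S.filter fun i => x i = true).card % 2 = 1
    · have h5 : (PDT.node S t u).eval x = u.eval x := by
        show (if _ then _ else _) = _
        rw [if_pos h]
      unfold tri
      rw [h5, if_pos h]
      ring
    · have h5 : (PDT.node S t u).eval x = t.eval x := by
        show (if _ then _ else _) = _
        rw [if_neg h]
      unfold tri
      rw [h5, if_neg h]
      ring
  have h2 : 2 * trw (tri (PDT.node S t u).eval v) ≤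
      2 * (trw (tri t.eval v) + trw (tri u.eval v)) := by
    rw [← trw_two, h1]
    refine (trw_add _ _).trans ?_
    have h3 := trw_add (tri t.eval v) (fun x => trc S x * tri t.eval v x)
    have h4 := trw_add (tri u.eval v) (fun x => -(trc S x * tri u.eval v x))
    rw [trw_ch] at h3
    rw [trw_neg, trw_ch] at h4
    linarith
  linarith

theorem tri_zero (f : (Fin n → Bool) → α) (v : α) (h : ∀ x, f x ≠ v) :
    tri f v = fun _ => 0 := by
  funext x
  unfold tri
  rw [if_neg (h x)]

theorem trw_one : trw (fun _ : Fin n → Bool => 1) = 2 ^ n := by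
  classical
  unfold trw
  have h1 : ∀ S : Finset (Fin n), (∑ x : Fin n → Bool, 1 * trc S x) =
      if S = ∅ then 2 ^ n else 0 := by
    intro S
    have h2 : (∑ x : Fin n → Bool, 1 * trc S x) =
        ∏ i : Fin n, ∑ b : Bool, if i ∈ S then (if b = true then (-1 : ℤ) else 1) else 1 := by
      rw [Finset.prod_univ_sum, Fintype.piFinset_univ]
      refine sum_congr rfl fun x _ => ?_
      unfold trc
      rw [one_mul, Finset.prod_ite_mem, Finset.univ_inter]
    rw [h2]
    split
    · next h =>
      subst h
      simp
    · next h =>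
      obtain ⟨i, hi⟩ := Finset.nonempty_iff_ne_empty.mpr h
      refine Finset.prod_eq_zero (mem_univ i) ?_
      simp [hi]
  simp only [h1]
  rw [Finset.sum_eq_single ∅]
  · simp
  · intro S _ hS
    simp [hS]
  · simp

open Classical in
theorem lev_iff (N : ℕ) (f : (Fin n → Bool) → α) :
    Lev N f ↔ ∑ v ∈ univ.image f, trw (tri f v) ≤ N * 2 ^ n := by
  unfold Lev
  have h1 : ∀ v, (∑ S : Finset (Fin n), |∑ x with f x = v, ∏ i ∈ S,
      (if x i = true then (-1 : ℤ) else 1)|) = trw (tri f v) := by
    intro v
    unfold trw
    refine sum_congr rfl fun S _ => ?_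
    congr 1
    rw [Finset.sum_filter]
    refine sum_congr rfl fun x _ => ?_
    unfold tri trc
    split <;> simp
  simp only [h1]

open Classical in
theorem tree_sum (t : PDT n α) :
    ∑ v ∈ univ.image t.eval, trw (tri t.eval v) ≤ (t.leaves : ℤ) * 2 ^ n := by
  induction t with
  | leaf a =>
    have h1 : univ.image (PDT.leaf a : PDT n α).eval = {a} := by
      ext v
      simp only [mem_image, mem_univ, true_and, mem_singleton]
      constructor
      · rintro ⟨x, hx⟩
        exact hx.symm
      · rintro rfl
        exact ⟨fun _ => false, rfl⟩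
    rw [h1, sum_singleton]
    have h2 : tri (PDT.leaf a : PDT n α).eval a = fun _ => 1 := by
      funext x
      unfold tri
      exact if_pos rfl
    rw [h2, trw_one]
    simp [PDT.leaves]
  | node S t u iht ihu =>
    have h1 : ∀ (w : PDT n α) (s : Finset α), ∑ v ∈ s, trw (tri w.eval v) ≤
        ∑ v ∈ univ.image w.eval, trw (tri w.eval v) := by
      intro w s
      have h2 : ∀ v ∈ s, v ∉ univ.image w.eval → trw (tri w.eval v) = 0 := by
        intro v _ hv
        rw [tri_zero w.eval v fun x hx => hv (mem_image.mpr ⟨x, mem_univ x, hx⟩), trw_zero]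
      rw [← Finset.sum_inter_add_sum_sdiff s (univ.image w.eval)]
      have h3 : ∑ v ∈ s \ univ.image w.eval, trw (tri w.eval v) = 0 :=
        sum_eq_zero fun v hv => h2 v (mem_sdiff.mp hv).1 (mem_sdiff.mp hv).2
      rw [h3, add_zero]
      exact sum_le_sum_of_subset_of_nonneg inter_subset_right fun v _ _ => trw_nonneg _
    calc ∑ v ∈ univ.image (PDT.node S t u).eval, trw (tri (PDT.node S t u).eval v)
        ≤ ∑ v ∈ univ.image (PDT.node S t u).eval, (trw (tri t.eval v) + trw (tri u.eval v)) :=
          sum_le_sum fun v _ => trw_node S t u v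
      _ = (∑ v ∈ univ.image (PDT.node S t u).eval, trw (tri t.eval v)) +
          ∑ v ∈ univ.image (PDT.node S t u).eval, trw (tri u.eval v) := sum_add_distrib
      _ ≤ (t.leaves : ℤ) * 2 ^ n + (u.leaves : ℤ) * 2 ^ n :=
          add_le_add ((h1 t _).trans iht) ((h1 u _).trans ihu)
      _ = ((PDT.node S t u).leaves : ℤ) * 2 ^ n := by
          simp only [PDT.leaves]
          push_cast
          ring

/-- The level sets of the value of a parity decision tree have total Walsh norm at most the number
of leaves. -/
theorem PDT.lev (t : PDT n α) : Lev t.leaves t.eval := (lev_iff _ _).mpr (tree_sum t)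

/-- The value depends only on the bits queried. -/
theorem PDT.dep {I : Finset (Fin n)} : ∀ {t : PDT n α}, t.In I → ∀ x y : Fin n → Bool,
    (∀ i ∈ I, x i = y i) → t.eval x = t.eval y
  | .leaf a, _ => fun x y _ => rfl
  | .node S t u, h => fun x y hxy => by
    have h1 : (S.filter fun i => x i = true) = S.filter fun i => y i = true :=
      Finset.filter_congr fun i hi => by rw [hxy i (h.1 hi)]
    show (if _ then _ else _) = (if _ then _ else _)
    rw [h1, PDT.dep h.2.1 x y hxy, PDT.dep h.2.2 x y hxy]

end Pool.Agent.MP_ca1109_lc.Pnh
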