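import Pool.Agent.MP_ca1109_lc.Pnh.TR

/-!
# Functions of few bits
-/

namespace Pool.Agent.MP_ca1109_lc.Pnh

open Finset

variable {n : ℕ} {α : Type}

/-- A function of the bits in `I` is computed by a decision tree with `2 ^ |I|` leaves. -/
theorem ts_tree (I : Finset (Fin n)) : ∀ f : (Fin n → Bool) → α,
    (∀ x y, (∀ i ∈ I, x i = y i) → f x = f y) → ∃ t : PDT n α, t.leaves ≤ 2 ^ I.card ∧
      ∀ x, t.eval x = f x := by
  classical
  induction I using Finset.induction_on with
  | empty =>
    intro f hf
    exact ⟨.leaf (f fun _ => false), by simp [PDT.leaves], fun x => hf _ _ (by simp)⟩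
  | insert i I hi ih =>
    intro f hf
    have h1 : ∀ b : Bool, ∀ x y : Fin n → Bool, (∀ j ∈ I, x j = y j) →
        f (Function.update x i b) = f (Function.update y i b) := by
      intro b x y hxy
      refine hf _ _ fun j hj => ?_
      by_cases hji : j = i
      · subst hji
        simp
      · rw [Function.update_of_ne hji, Function.update_of_ne hji]
        exact hxy j ((mem_insert.1 hj).resolve_left hji)
    obtain ⟨t, ht, ht'⟩ := ih (fun x => f (Function.update x i false)) (h1 false)
    obtain ⟨u, hu, hu'⟩ := ih (fun x => f (Function.update x i true)) (h1 true)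
    refine ⟨.node {i} t u, ?_, fun x => ?_⟩
    · rw [card_insert_of_notMem hi, pow_succ]
      show t.leaves + u.leaves ≤ _
      omega
    · have h2 : (PDT.node {i} t u).eval x = if (({i} : Finset (Fin n)).filter
          fun i => x i = true).card % 2 = 1 then u.eval x else t.eval x := rfl
      rw [h2]
      by_cases hx : x i = true
      · have h3 : (({i} : Finset (Fin n)).filter fun i => x i = true).card % 2 = 1 := by
          rw [filter_singleton, if_pos hx, card_singleton]
        rw [if_pos h3, hu']
        show f (Function.update x i true) = f x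
        rw [← hx, Function.update_eq_self]
      · have h3 : ¬ (({i} : Finset (Fin n)).filter fun i => x i = true).card % 2 = 1 := by
          rw [filter_singleton, if_neg hx, card_empty]
          norm_num
        rw [if_neg h3, ht']
        show f (Function.update x i false) = f x
        rw [← Bool.eq_false_of_not_eq_true hx, Function.update_eq_self]

theorem Lev.mono {N N' : ℕ} {f : (Fin n → Bool) → α} (h : Lev N f) (hN : N ≤ N') : Lev N' f := by
  classical
  rw [lev_iff] at h ⊢
  refine h.trans ?_
  have h1 : (N : ℤ) ≤ N' := by exact_mod_cast hN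
  exact mul_le_mul_of_nonneg_right h1 (by positivity)

/-- The level sets of a function of the bits in `I` have total Walsh norm at most `2 ^ |I|`. -/
theorem lev_short (I : Finset (Fin n)) (f : (Fin n → Bool) → α)
    (hf : ∀ x y, (∀ i ∈ I, x i = y i) → f x = f y) : Lev (2 ^ I.card) f := by
  obtain ⟨t, ht, ht'⟩ := ts_tree I f hf
  have h1 : t.eval = f := funext ht'
  rw [← h1]
  exact t.lev.mono ht

end Pool.Agent.MP_ca1109_lc.Pnh
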